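import Pool.Agent.P8H6.Uni.Defs2

/-!
# Small sums over residue classes give small sums with all phases which are not minor (package ALL)
-/

set_option autoImplicit false

namespace Pool.Agent.P8H6.Uni

open Finset Filter Topology

lemma ex_add (x y : ℝ) : ex (x + y) = ex x * ex y := by
  unfold ex
  rw [← Complex.exp_add]
  congr 1
  push_cast
  ring

lemma ex_int (z : ℤ) : ex z = 1 := by
  unfold ex
  have h := Complex.exp_int_mul_two_pi_mul_I z
  rw [← h]
  congr 1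
  push_cast
  ring

lemma norm_ex (x : ℝ) : ‖ex x‖ = 1 := by
  unfold ex
  rw [show (2 * Real.pi * Complex.I * (x : ℂ)) = ((2 * Real.pi * x : ℝ) : ℂ) * Complex.I by push_cast; ring]
  exact Complex.norm_exp_ofReal_mul_I _

lemma ex_lip (x y : ℝ) : ‖ex x - ex y‖ ≤ 2 * Real.pi * |x - y| := by
  have e1 : ex x - ex y = ex y * (ex (x - y) - 1) := by
    rw [mul_sub, mul_one, ← ex_add]
    congr 2
    ring
  rw [e1, norm_mul, norm_ex, one_mul]
  have h := Real.norm_exp_I_mul_ofReal_sub_one_le (x := 2 * Real.pi * (x - y))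
  have e2 : ex (x - y) = Complex.exp (Complex.I * ((2 * Real.pi * (x - y) : ℝ) : ℂ)) := by
    unfold ex
    congr 1
    push_cast
    ring
  rw [e2]
  refine h.trans (le_of_eq ?_)
  rw [Real.norm_eq_abs, abs_mul, abs_of_pos Real.two_pi_pos]

/-- summation by parts: partial sums bounded by `B` -/
lemma parts (g : ℕ → ℂ) (β B : ℝ) (hB : 0 ≤ B) (N : ℕ) (h : ∀ X ≤ N, ‖∑ n ∈ Icc 1 X, g n‖ ≤ B) (X : ℕ)
    (hX : X ≤ N) : ‖∑ n ∈ Icc 1 X, g n * ex (β * n)‖ ≤ B * (1 + 2 * Real.pi * |β| * X) := by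
  have key : ∀ X : ℕ, ∑ n ∈ Icc 1 X, g n * ex (β * n) =
      (∑ n ∈ Icc 1 X, g n) * ex (β * X) -
        ∑ m ∈ range X, (∑ n ∈ Icc 1 m, g n) * (ex (β * ((m + 1 : ℕ) : ℝ)) - ex (β * m)) := by
    intro X
    induction X with
    | zero => simp
    | succ X ih =>
      rw [sum_Icc_succ_top (by omega), ih, sum_Icc_succ_top (by omega), sum_range_succ]
      ring
  rw [key X]
  have h1 : ‖(∑ n ∈ Icc 1 X, g n) * ex (β * X)‖ ≤ B := by
    rw [norm_mul, norm_ex, mul_one]
    exact h X hX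
  have h2 : ‖∑ m ∈ range X, (∑ n ∈ Icc 1 m, g n) * (ex (β * ((m + 1 : ℕ) : ℝ)) - ex (β * m))‖ ≤
      X * (B * (2 * Real.pi * |β|)) := by
    refine (norm_sum_le _ _).trans ?_
    have h3 : ∀ m ∈ range X, ‖(∑ n ∈ Icc 1 m, g n) * (ex (β * ((m + 1 : ℕ) : ℝ)) - ex (β * m))‖ ≤
        B * (2 * Real.pi * |β|) := by
      intro m hm
      rw [norm_mul]
      apply mul_le_mul (h m (by rw [mem_range] at hm; omega)) _ (norm_nonneg _) hB
      refine (ex_lip _ _).trans (le_of_eq ?_)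
      push_cast
      rw [← mul_sub]
      congr 1
      rw [add_sub_cancel_left, mul_one]
    refine (sum_le_sum h3).trans (le_of_eq ?_)
    rw [sum_const, card_range, nsmul_eq_mul]
  refine (norm_sub_le _ _).trans ?_
  have h3 : B * (1 + 2 * Real.pi * |β| * X) = B + X * (B * (2 * Real.pi * |β|)) := by ring
  rw [h3]
  linarith

/-- the classes modulo `q` -/
lemma classes (F : ℕ → ℂ) (q : ℕ) (hq : 1 ≤ q) (a : ℤ) (β : ℝ) (X : ℕ) :
    ∑ n ∈ Icc 1 X, F n * ex (((a : ℝ) / q + β) * n) =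
      ∑ r ∈ range q, ex ((a : ℝ) / q * r) *
        ∑ n ∈ Icc 1 X, (if n % q = r % q then F n else 0) * ex (β * n) := by
  have hq0 : (q : ℝ) ≠ 0 := by
    have : (0 : ℝ) < q := by exact_mod_cast hq
    exact this.ne'
  simp only [mul_sum]
  rw [sum_comm]
  refine sum_congr rfl fun n _ => ?_
  rw [sum_eq_single (n % q)]
  · rw [if_pos (Nat.mod_mod n q).symm]
    have e1 : ((a : ℝ) / q + β) * n = (a : ℝ) / q * ((n % q : ℕ) : ℝ) + (((a * (n / q : ℕ) : ℤ) : ℝ) + β * n) := by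
      have h1 : (n : ℝ) = q * ((n / q : ℕ) : ℝ) + ((n % q : ℕ) : ℝ) := by exact_mod_cast (Nat.div_add_mod n q).symm
      have h2 : (a : ℝ) / q * n = (a : ℝ) / q * (q * ((n / q : ℕ) : ℝ) + ((n % q : ℕ) : ℝ)) := by rw [← h1]
      rw [add_mul, h2, Int.cast_mul, Int.cast_natCast]
      field_simp
      ring
    rw [e1, ex_add, ex_add, ex_int, one_mul]
    ring
  · intro r hr hne
    rw [if_neg, zero_mul, mul_zero]
    intro h
    rw [mem_range] at hr
    rw [Nat.mod_eq_of_lt hr] at h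
    exact hne h.symm
  · intro h
    exact absurd (mem_range.2 (Nat.mod_lt _ hq)) h

theorem all_thm : S_ALL := by
  intro F hF E
  classical
  -- the threshold
  have h1 : ∀ m : ℕ, ∃ N₀ : ℕ, ∀ i ≤ m, SmallAP (F i) E → ∀ q : ℕ, 1 ≤ q → q ≤ m → ∀ r < q, ∀ N : ℕ, N₀ ≤ N →
      N ∉ E → ∀ X : ℕ, X ≤ N → ‖∑ n ∈ (Icc 1 X).filter (fun n => n % q = r % q), F i n‖ ≤
        1 / ((m : ℝ) + 1) ^ 4 * N := by
    intro m
    have h2 : ∀ i q r : ℕ, ∃ N₀ : ℕ, SmallAP (F i) E → 1 ≤ q → ∀ N : ℕ, N₀ ≤ N →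
      N ∉ E → ∀ X : ℕ, X ≤ N → ‖∑ n ∈ (Icc 1 X).filter (fun n => n % q = r % q), F i n‖ ≤
        1 / ((m : ℝ) + 1) ^ 4 * N := by
      intro i q r
      by_cases h3 : SmallAP (F i) E ∧ 1 ≤ q
      · obtain ⟨N₀, h4⟩ := h3.1 q h3.2 r (1 / ((m : ℝ) + 1) ^ 4) (by positivity)
        exact ⟨N₀, fun _ _ => h4⟩
      · exact ⟨0, fun h4 h5 => absurd ⟨h4, h5⟩ h3⟩
    choose n₀ hn₀ using h2
    refine ⟨∑ i ∈ range (m + 1), ∑ q ∈ range (m + 1), ∑ r ∈ range (m + 1), n₀ i q r,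
      fun i hi hS q hq1 hqm r hr N hN hNE X hX => ?_⟩
    apply hn₀ i q r hS hq1 N _ hNE X hX
    have k1 : n₀ i q r ≤ ∑ r ∈ range (m + 1), n₀ i q r :=
      single_le_sum (f := fun r => n₀ i q r) (fun _ _ => Nat.zero_le _) (mem_range.2 (by omega))
    have k2 : ∑ r ∈ range (m + 1), n₀ i q r ≤ ∑ q ∈ range (m + 1), ∑ r ∈ range (m + 1), n₀ i q r :=
      single_le_sum (f := fun q => ∑ r ∈ range (m + 1), n₀ i q r) (fun _ _ => Nat.zero_le _)
        (mem_range.2 (by omega))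
    have k3 : ∑ q ∈ range (m + 1), ∑ r ∈ range (m + 1), n₀ i q r ≤
        ∑ i ∈ range (m + 1), ∑ q ∈ range (m + 1), ∑ r ∈ range (m + 1), n₀ i q r :=
      single_le_sum (f := fun i => ∑ q ∈ range (m + 1), ∑ r ∈ range (m + 1), n₀ i q r)
        (fun _ _ => Nat.zero_le _) (mem_range.2 (by omega))
    omega
  choose T hT using h1
  -- the function `w`
  set w : ℕ → ℕ := fun N => Nat.findGreatest (fun m => ∀ m' ≤ m, T m' ≤ N) N with hw
  have hw1 : ∀ N, 1 ≤ w N → T (w N) ≤ N := by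
    intro N h
    have h2 := Nat.findGreatest_of_ne_zero (P := fun m => ∀ m' ≤ m, T m' ≤ N) (n := N) (m := w N) rfl (by omega)
    exact h2 (w N) le_rfl
  have hw2 : Tendsto w atTop atTop := by
    rw [tendsto_atTop_atTop]
    intro b
    refine ⟨b + ∑ m ∈ range (b + 1), T m, fun N hN => ?_⟩
    apply Nat.le_findGreatest (by omega)
    intro m' hm'
    have : T m' ≤ ∑ m ∈ range (b + 1), T m :=
      single_le_sum (f := T) (fun _ _ => Nat.zero_le _) (mem_range.2 (by omega))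
    omega
  refine ⟨w, hw2, fun i hS ε hε => ?_⟩
  obtain ⟨b, hb⟩ := exists_nat_gt (40 / ε)
  obtain ⟨N₀, hN₀⟩ := eventually_atTop.1 (hw2.eventually_ge_atTop (b + i + 1))
  refine ⟨N₀ + 1, fun N hN hNE α hα Y X hYX hXN => ?_⟩
  have hwN := hN₀ N (by omega)
  set m := w N with hm
  have hN0 : (0 : ℝ) < N := by exact_mod_cast (by omega : 0 < N)
  unfold Minor at hα
  push Not at hα
  obtain ⟨q, hq1, hq2, a, ha⟩ := hα
  have hq0 : (0 : ℝ) < q := by exact_mod_cast hq1
  have hm0 : (0 : ℝ) ≤ m := Nat.cast_nonneg m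
  set β : ℝ := α - a / q with hβ
  have hβ1 : |β| * N ≤ m := by
    have h2 : |β| ≤ |q * α - a| := by
      have h3 : β = (q * α - a) / q := by
        rw [hβ]
        field_simp
      rw [h3, abs_div, abs_of_pos hq0]
      apply div_le_self (abs_nonneg _)
      exact_mod_cast hq1
    calc |β| * N ≤ |q * α - a| * N := mul_le_mul_of_nonneg_right h2 hN0.le
      _ = N * |q * α - a| := mul_comm _ _
      _ ≤ m := ha
  have hTm := hT m i (by omega) hS q hq1 hq2
  set B : ℝ := 1 / ((m : ℝ) + 1) ^ 4 * N with hB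
  have hB0 : 0 ≤ B := by positivity
  -- the sums up to `X`
  have hfull : ∀ X ≤ N, ‖∑ n ∈ Icc 1 X, F i n * ex (α * n)‖ ≤ q * (B * (1 + 2 * Real.pi * m)) := by
    intro X hX
    have e1 : ∀ n : ℕ, α * n = ((a : ℝ) / q + β) * n := fun n => by rw [hβ]; ring
    simp only [e1]
    rw [classes (F i) q hq1 a β X]
    refine (norm_sum_le _ _).trans ?_
    have h2 : ∀ r ∈ range q, ‖ex ((a : ℝ) / q * r) *
        ∑ n ∈ Icc 1 X, (if n % q = r % q then F i n else 0) * ex (β * n)‖ ≤ B * (1 + 2 * Real.pi * m) := by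
      intro r hr
      rw [norm_mul, norm_ex, one_mul]
      refine (parts _ β B hB0 N (fun Z hZ => ?_) X hX).trans ?_
      · rw [← sum_filter]
        exact hTm r (mem_range.1 hr) N (hw1 N (by omega)) hNE Z hZ
      · apply mul_le_mul_of_nonneg_left _ hB0
        have h3 : |β| * X ≤ m := by
          have : (X : ℝ) ≤ N := by exact_mod_cast hX
          exact (mul_le_mul_of_nonneg_left this (abs_nonneg _)).trans hβ1
        have h4 := Real.pi_pos
        have h5 : 2 * Real.pi * |β| * X = 2 * Real.pi * (|β| * X) := by ring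
        rw [h5]
        have := mul_le_mul_of_nonneg_left h3 Real.two_pi_pos.le
        linarith
    refine (sum_le_sum h2).trans (le_of_eq ?_)
    rw [sum_const, card_range, nsmul_eq_mul]
  have h2 : ∑ n ∈ Ioc Y X, F i n * ex (α * n) =
      ∑ n ∈ Icc 1 X, F i n * ex (α * n) - ∑ n ∈ Icc 1 Y, F i n * ex (α * n) := by
    have h3 : Icc 1 X = Icc 1 Y ∪ Ioc Y X := by
      ext n
      simp only [mem_union, mem_Icc, mem_Ioc]
      omega
    have h4 : Disjoint (Icc 1 Y) (Ioc Y X) := by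
      rw [disjoint_left]
      intro n h5 h6
      rw [mem_Icc] at h5
      rw [mem_Ioc] at h6
      omega
    rw [h3, sum_union h4]
    ring
  rw [h2]
  refine (norm_sub_le _ _).trans ?_
  have h3 := hfull X hXN
  have h4 := hfull Y (hYX.trans hXN)
  have h5 : (q : ℝ) * (B * (1 + 2 * Real.pi * m)) ≤ ε / 2 * N := by
    have h6 : (q : ℝ) ≤ m + 1 := by
      have : (q : ℝ) ≤ m := by exact_mod_cast hq2
      linarith
    have h7 : 1 + 2 * Real.pi * m ≤ 8 * (m + 1) := by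
      have := Real.pi_lt_four
      nlinarith
    have h8 : (q : ℝ) * (B * (1 + 2 * Real.pi * m)) ≤ (m + 1) * (B * (8 * (m + 1))) := by
      apply mul_le_mul h6 _ _ (by linarith)
      · exact mul_le_mul_of_nonneg_left h7 hB0
      · have := Real.pi_pos
        positivity
    refine h8.trans ?_
    have h9 : ((m : ℝ) + 1) * (B * (8 * (m + 1))) = 8 / ((m : ℝ) + 1) ^ 2 * N := by
      rw [hB]
      field_simp
    rw [h9]
    apply mul_le_mul_of_nonneg_right _ hN0.le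
    rw [div_le_iff₀ (by positivity)]
    have h10 : (b : ℝ) ≤ m := by exact_mod_cast (by omega : b ≤ m)
    have h11 : 40 / ε < (m : ℝ) + 1 := by linarith
    rw [div_lt_iff₀ hε] at h11
    have h12 : (1 : ℝ) ≤ (m : ℝ) + 1 := by linarith
    nlinarith
  linarith

end Pool.Agent.P8H6.Uni
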