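import Pool.Agent.P8H6.Uni.Blk

/-!
# The main estimate: assembly
-/

set_option autoImplicit false

namespace Pool.Agent.P8H6.Uni

open Finset Filter Topology
open Pool.Agent.TH112.BL (Bd QD win)
open Pool.Agent.Y958.TC
open Pool.Agent.Y958.U (LZ QQ)
open Pool.Agent.P8H6.Irr (Flip ph ph_le ph_int ph_lip psi psi_le FF FF_le mul_le' prod_le exists_x psi_fract)

lemma Minor_fract {C N : ℕ} {α : ℝ} (h : Minor C N α) : Minor C N (Int.fract α) := by
  intro q hq1 hq2 a
  have h1 := h q hq1 hq2 (a + q * ⌊α⌋)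
  have e : (q : ℝ) * α - ((a + q * ⌊α⌋ : ℤ) : ℝ) = q * Int.fract α - a := by
    rw [Int.fract]
    push_cast
    ring
  rw [e] at h1
  exact h1

lemma pq_ge2 {i : ℕ} : 2 ≤ pq i (i + 1) := by
  obtain ⟨p, hp, h1, h2⟩ := Nat.exists_prime_lt_and_le_two_mul (2 ^ i) (by positivity)
  have hpQ : p ∈ QD i (i + 1) := by
    unfold QD
    rw [mem_filter, mem_Ioc]
    refine ⟨⟨h1, ?_⟩, hp⟩
    rw [pow_succ]
    omega
  have h3 : p ∣ pq i (i + 1) := Finset.dvd_prod_of_mem _ hpQ
  exact hp.two_le.trans (Nat.le_of_dvd (pq_pos _ _) h3)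

theorem one_thm (hEQ : S_EQ) (hDIG : S_DIG) : S_ONE := by
  intro k f a b hf ha ω hω θ δ hδ
  classical
  by_contra hcon
  set E : Set ℕ := {N : ℕ | ∃ α : ℝ, Minor (ω N) N α ∧ δ < |Av N (psi f a b α θ)|} with hEd
  have hb : ∀ i n, |f i n| ≤ 1 := fun i n => (hf i).bd n
  have hδ1 : δ ≤ 1 := by
    by_contra hc1
    rw [not_le] at hc1
    apply hcon
    have : E = ∅ := by
      rw [Set.eq_empty_iff_forall_notMem]
      rintro N ⟨α, _, h⟩
      have h2 := Av_bd zero_le_one (psi_le a b α θ hb) N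
      linarith
    rw [this]
    unfold LZ
    simp
  -- the frequencies
  have hch : ∀ N, ∃ α : ℝ, (0 ≤ α ∧ α ≤ 1) ∧ (N ∈ E → Minor (ω N) N α ∧ δ < |Av N (psi f a b α θ)|) := by
    intro N
    by_cases hN : N ∈ E
    · obtain ⟨α, h1, h2⟩ := hN
      refine ⟨Int.fract α, ⟨Int.fract_nonneg α, (Int.fract_lt_one α).le⟩, fun _ => ⟨Minor_fract h1, ?_⟩⟩
      have h4 : psi f a b α θ = psi f a b (Int.fract α) θ := funext fun n => psi_fract f a b α θ n
      rw [← h4]
      exact h2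
    · exact ⟨0, ⟨le_rfl, zero_le_one⟩, fun h => absurd h hN⟩
  choose αE h01 hαE using hch
  have hE1 : ∀ N ∈ E, Minor (ω N) N (αE N) := fun N hN => (hαE N hN).1
  have hE2 : ∀ N ∈ E, δ < |Av N (psi f a b (αE N) θ)| := fun N hN => (hαE N hN).2
  obtain ⟨ε', hε', I₀, hI₀1, hAv⟩ := avc_w Pool.Agent.Y304.U.pw E hcon
  choose P₀ sc hsc using fun i => (hf i).fl
  -- the constants
  set A : ℕ := 1 + ∑ i, a i with hAd
  have hAa : ∀ i, a i ≤ A := by
    intro i
    have := single_le_sum (f := a) (fun _ _ => Nat.zero_le _) (mem_univ i)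
    omega
  haveI : NeZero A := ⟨by omega⟩
  set c : ℕ := 2 * (1 + ∑ i, b i) with hc
  have hcb : ∀ i, 2 * (1 + b i) ≤ c := by
    intro i
    have := single_le_sum (f := b) (fun _ _ => Nat.zero_le _) (mem_univ i)
    omega
  have hc2 : 2 ≤ c := by omega
  obtain ⟨V, hV⟩ := exists_nat_ge (8 / δ)
  set ε : ℝ := ε' * δ / (16 * ((V : ℝ) + 1)) with hε
  have hε0 : 0 < ε := by positivity
  set η : ℝ := (ε / 30) * ε / 3 with hη
  have hη0 : 0 < η := by positivity
  obtain ⟨κ₀, hκ₀⟩ := exists_nat_ge (24 / η)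
  set κ : ℕ := κ₀ + 1 with hκ
  have hκ1 : 1 ≤ κ := by omega
  have hκ2 : 24 / η ≤ (2 : ℝ) ^ (κ - 1) := by
    rw [hκ, Nat.add_sub_cancel]
    refine hκ₀.trans ?_
    exact_mod_cast (Nat.lt_two_pow_self (n := κ₀)).le
  have hlim : Tendsto (fun i : ℕ => (i : ℝ) / 2 ^ i) atTop (𝓝 0) := by
    have := tendsto_pow_const_div_const_pow_of_one_lt 1 (show (1 : ℝ) < 2 by norm_num)
    simpa using this
  obtain ⟨I₂, hI₂⟩ := eventually_atTop.1 (hlim.eventually_lt_const hη0)
  obtain ⟨I₃, hI₃⟩ : ∃ I₃ : ℕ, ∀ i : ℕ, I₃ ≤ i →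
      3 * (2 * k + 2 * Real.pi * (2 ^ (i / 2) : ℕ)) / 2 ^ i ≤ ε := by
    have h1 := tendsto_pow_const_div_const_pow_of_one_lt 0 (show (1 : ℝ) < 2 by norm_num)
    have h2 := h1.const_mul (3 * (2 * k + 2 * Real.pi) : ℝ)
    simp only [pow_zero, mul_zero] at h2
    obtain ⟨I, hI⟩ := eventually_atTop.1 (h2.eventually_lt_const hε0)
    refine ⟨2 * I, fun i hi => ?_⟩
    have h3 := hI (i / 2) (by omega)
    refine le_trans ?_ h3.le
    rw [mul_one_div, div_le_div_iff₀ (by positivity) (by positivity)]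
    have h4 : (2 : ℝ) ^ (i / 2) * 2 ^ (i / 2) ≤ 2 ^ i := by
      rw [← pow_add]
      exact pow_le_pow_right₀ (by norm_num) (by omega)
    have h5 : (1 : ℝ) ≤ 2 ^ (i / 2) := one_le_pow₀ (by norm_num)
    have hpi := Real.pi_pos
    push_cast
    have h6 : 3 * (2 * (k : ℝ) + 2 * Real.pi * 2 ^ (i / 2)) * 2 ^ (i / 2) ≤
        3 * (2 * k + 2 * Real.pi) * (2 ^ (i / 2) * 2 ^ (i / 2)) := by
      have h7 : (2 : ℝ) ^ (i / 2) ≤ 2 ^ (i / 2) * 2 ^ (i / 2) := le_mul_of_one_le_left (by positivity) h5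
      have h8 : (0 : ℝ) ≤ k := Nat.cast_nonneg k
      nlinarith [mul_le_mul_of_nonneg_left h7 h8]
    exact h6.trans (mul_le_mul_of_nonneg_left h4 (by positivity))
  obtain ⟨I₄, hI₄⟩ := dc_lim c (by omega) (η / (4 * c)) (by
    have : (0 : ℝ) < c := by exact_mod_cast (by omega : 0 < c)
    positivity)
  set i₀ : ℕ := I₀ + I₂ + I₃ + I₄ + A + (∑ i, P₀ i) + 1 with hi₀
  set LA : ℝ := Real.log (Fintype.card (Fin k → Fin A → SignType)) with hLA
  have hLA0 : 0 ≤ LA := Real.log_natCast_nonneg _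
  have hcr : (0 : ℝ) < c := by exact_mod_cast (by omega : 0 < c)
  set B : ℝ := 2 * c / η * LA with hB
  have hB0 : 0 ≤ B := by positivity
  -- the blocks
  obtain ⟨S, hS⟩ := blk_sum (κ := κ) (i₀ := i₀) hκ1 (by omega) (4 * (3 * B) / ε')
  set I : ℕ → ℕ := blk κ i₀ with hI
  have hIinj : Function.Injective I := (blk_mono hκ1 i₀).injective
  have hIge : ∀ s, i₀ ≤ I s := blk_ge κ i₀
  set T : ℝ := ∑ s ∈ range S, (1 : ℝ) / I s with hT
  have hT0 : 0 < T := lt_of_le_of_lt (by positivity) hS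
  have hS1 : 0 < S := by
    rcases Nat.eq_zero_or_pos S with h | h
    · rw [hT, h, range_zero, sum_empty] at hT0
      exact absurd hT0 (lt_irrefl 0)
    · exact h
  set J : Finset ℕ := (range S).image I with hJ
  have hJsum : ∀ F : ℕ → ℝ, ∑ i ∈ J, F i = ∑ s ∈ range S, F (I s) := fun F => by
    rw [hJ, sum_image (fun x _ y _ h => hIinj h)]
  obtain ⟨U, hU, nx, hBU, hnx⟩ := nx_exists {M : ℕ | ε' * ∑ i ∈ J, (1 : ℝ) / i ≤ FJ E J M} (fun M₀ => by
    obtain ⟨M, h1, h2⟩ := hAv J (fun i hi => by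
      rw [hJ, mem_image] at hi
      obtain ⟨s, _, rfl⟩ := hi
      have := hIge s
      omega) (by
      rw [hJ]
      exact (nonempty_range_iff.2 (by omega)).image _) M₀
    exact ⟨M, h1, h2⟩)
  set μ := um U hU with hμ
  -- the deficiencies
  set Dd : ℕ → ℕ → ℝ := fun i q => Df μ (la (sl f a A) (XX αE nx (2 ^ (i / 2)) q) (pq i (i + 1)))
    (bx (XX αE nx (2 ^ (i / 2)) q)) (some ()) c i with hDd
  set BD : ℕ → Prop := fun s => ∃ q ∈ Bad U E (I s), η * 2 ^ (I s) / (I s : ℕ) < Dd (I s) q with hBD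
  -- bad blocks
  have hbad : ∑ s ∈ (range S).filter BD, (1 : ℝ) / I s ≤ B := by
    have h1 := tel (fun s => hh f a μ A c (I s)) (fun s => (η / (2 * c)) * (1 / I s)) (fun s => by
      have e : I (s + 1) = I s + gap κ (I s) := rfl
      simp only [e]
      exact hh_mono f a μ A c (I s) _ (by omega)) BD (fun s hs => by
      obtain ⟨q, hq1, hq2⟩ := hs
      have e : I (s + 1) = I s + gap κ (I s) := rfl
      simp only [e]
      have hge := hIge s
      have hqQ : q ∈ QD (I s) (I s + 1) := (mem_filter.1 hq1).1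
      have hqE : ∀ᶠ M : ℕ in (U : Filter ℕ), M / q ∈ E := (mem_filter.1 hq1).2
      have hm : Mov U (2 ^ (I s / 2)) (XX αE nx (2 ^ (I s / 2)) q) (BB αE (2 ^ (I s / 2)) q) :=
        mov_of U hU nx hnx αE h01 ω hω (QDp hqQ).pos Nat.one_le_two_pow (by
          filter_upwards [hqE] with M hM
          exact hE1 _ hM)
      refine dec_bad f a hEQ hDIG U hU (by omega) hm A (by omega) hη0 ?_ pq_ge2 (hI₄ (I s) (by omega) (by omega))
        hq2.le
      have h2 : ((2 ^ (κ - 1) * I s : ℕ) : ℝ) ≤ ((2 ^ gap κ (I s) : ℕ) : ℝ) := by exact_mod_cast gap_pow hκ1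
      push_cast at h2
      refine le_trans ?_ h2
      exact mul_le_mul_of_nonneg_right hκ2 (Nat.cast_nonneg _)) S
    haveI : Nonempty (Fin k → Fin A → SignType) := ⟨fun _ _ => 0⟩
    have h2 := hh_le f a μ A c (I 0) (by omega)
    have h3 : 0 ≤ hh f a μ A c (I S) := by
      have h4 := hh_mono f a μ A c (I S) 0 (by omega)
      unfold hh
      apply div_nonneg _ (Nat.cast_nonneg _)
      have h5 := E_mono μ (fun _ : ℕ => ()) (win (c * 2 ^ I S) (sl f a A)) (FR_win _ _) (fun _ _ _ => rfl)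
      rw [E_unit] at h5
      exact h5
    rw [← mul_sum] at h1
    have h4 : η / (2 * c) * ∑ s ∈ (range S).filter BD, (1 : ℝ) / I s ≤ LA := by
      refine h1.trans ?_
      linarith
    have h5 : ∑ s ∈ (range S).filter BD, (1 : ℝ) / I s =
        2 * c / η * (η / (2 * c) * ∑ s ∈ (range S).filter BD, (1 : ℝ) / I s) := by
      field_simp
    rw [h5, hB]
    exact mul_le_mul_of_nonneg_left h4 (by positivity)
  -- good blocks
  have hgood : ∀ s, ¬ BD s → ∑ p ∈ Bad U E (I s), Real.log p / 2 ^ (I s) ≤ ε' / 4 := by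
    intro s hs
    have hge := hIge s
    have h1 : ∀ q ∈ Bad U E (I s), Dd (I s) q ≤ η * 2 ^ (I s) / (I s : ℕ) := by
      intro q hq
      by_contra hc1
      exact hs ⟨q, hq, not_le.1 hc1⟩
    have h2 := block_good f a b θ hf ha hAa c hc2 hcb hε0 hδ hδ1 hV U hU nx hnx αE h01 ω hω E hE1 hE2 (∑ i, P₀ i)
      (fun p hp hpP j => ⟨sc j p, hsc j p hp (by
        have := single_le_sum (f := P₀) (fun _ _ => Nat.zero_le _) (mem_univ j)
        omega)⟩) (I s) (by omega) (by omega) (by omega) (hI₂ (I s) (by omega)) (hI₃ (I s) (by omega)) h1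
    refine h2.trans (le_of_eq ?_)
    rw [hε]
    field_simp
    ring
  have hall : ∀ i, ∑ p ∈ Bad U E i, Real.log (p : ℝ) / 2 ^ i ≤ 3 := by
    intro i
    have hsub : Bad U E i ⊆ QD i (i + 1) := by
      unfold Bad
      exact filter_subset _ _
    refine (sum_le_sum_of_subset_of_nonneg hsub fun p _ _ => div_nonneg (Real.log_natCast_nonneg _)
      (by positivity)).trans ?_
    rw [← sum_div, div_le_iff₀ (by positivity)]
    exact Pool.Agent.TH575.CW.theta_QD i
  -- one scale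
  have hev : ∀ᶠ M : ℕ in (U : Filter ℕ), ∀ i ∈ J, ∀ p ∈ QD i (i + 1), (M / p ∈ E → p ∈ Bad U E i) := by
    rw [Finset.eventually_all]
    exact fun i _ => Bad_spec U E i
  obtain ⟨M, hM1, hM2⟩ := (hev.and hBU).exists
  have hM3 : FJ E J M ≤ ∑ s ∈ range S, (1 : ℝ) / I s * ∑ p ∈ Bad U E (I s), Real.log p / 2 ^ (I s) := by
    unfold FJ
    rw [hJsum]
    apply sum_le_sum
    intro s hs
    apply mul_le_mul_of_nonneg_left _ (by positivity)
    have h1 : ∀ p ∈ QQ (I s), Real.log p / 2 ^ (I s) * Pool.Agent.Y304.U.ind E (M / p) ≤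
        if p ∈ Bad U E (I s) then Real.log p / 2 ^ (I s) else 0 := by
      intro p hp
      have h2 := hM1 (I s) (mem_image_of_mem I hs) p hp
      unfold Pool.Agent.Y304.U.ind
      by_cases h3 : M / p ∈ E
      · rw [if_pos h3, if_pos (h2 h3), mul_one]
      · rw [if_neg h3, mul_zero]
        split_ifs
        · exact div_nonneg (Real.log_natCast_nonneg _) (by positivity)
        · exact le_rfl
    refine (sum_le_sum h1).trans ?_
    rw [← sum_filter]
    apply sum_le_sum_of_subset_of_nonneg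
    · intro p hp
      exact (mem_filter.1 hp).2
    · intro p _ _
      exact div_nonneg (Real.log_natCast_nonneg _) (by positivity)
  have hM4 : ∑ s ∈ range S, (1 : ℝ) / I s * ∑ p ∈ Bad U E (I s), Real.log p / 2 ^ (I s) ≤
      ε' / 4 * T + 3 * B := by
    rw [← sum_filter_add_sum_filter_not (range S) BD, add_comm]
    apply add_le_add
    · rw [hT, mul_sum]
      refine le_trans (sum_le_sum (g := fun s : ℕ => ε' / 4 * ((1 : ℝ) / I s)) fun s hs => ?_)
        (sum_le_sum_of_subset_of_nonneg (filter_subset _ _) fun s _ _ => by positivity)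
      rw [mem_filter] at hs
      rw [mul_comm]
      exact mul_le_mul_of_nonneg_right (hgood s hs.2) (by positivity)
    · have h1 : ∑ s ∈ (range S).filter BD, (1 : ℝ) / I s * ∑ p ∈ Bad U E (I s), Real.log p / 2 ^ (I s) ≤
          ∑ s ∈ (range S).filter BD, (1 : ℝ) / I s * 3 := by
        apply sum_le_sum
        intro s _
        exact mul_le_mul_of_nonneg_left (hall _) (by positivity)
      rw [← sum_mul] at h1
      linarith
  have hM5 : ε' * T ≤ FJ E J M := by
    have h1 : ε' * ∑ i ∈ J, (1 : ℝ) / i ≤ FJ E J M := hM2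
    rw [hJsum] at h1
    exact h1
  have h6 : ε' * T ≤ ε' / 4 * T + 3 * B := hM5.trans (hM3.trans hM4)
  rw [div_lt_iff₀ hε'] at hS
  nlinarith

end Pool.Agent.P8H6.Uni
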