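import Pool.Agent.P8H6.Uni.Defs
import Pool.Agent.Y304.U.Avc
import Pool.Agent.Y304.U.Pw

/-!
# The averaging lemma over a sparse set of dyadic blocks
-/

set_option autoImplicit false

open Finset

namespace Pool.Agent.P8H6.Uni

open Pool.Agent.Y958.U (LZ QQ S_PW)
open Pool.Agent.Y304.U (ind ind_nonneg ind_le sE LZ_iff sE_nonneg lower1 lower2 blocks harm low upp)

/-- the weighted count -/
noncomputable def FJ (E : Set ℕ) (J : Finset ℕ) (M : ℕ) : ℝ :=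
  ∑ i ∈ J, (1 : ℝ) / i * ∑ p ∈ QQ i, Real.log p / 2 ^ i * ind E (M / p)

lemma FJ_nonneg (E : Set ℕ) (J : Finset ℕ) (M : ℕ) : 0 ≤ FJ E J M :=
  sum_nonneg fun i _ => mul_nonneg (by positivity) (sum_nonneg fun p _ =>
    mul_nonneg (div_nonneg (Real.log_natCast_nonneg p) (by positivity)) (ind_nonneg _ _))

lemma FJ_le (E : Set ℕ) (J : Finset ℕ) (M : ℕ) : FJ E J M ≤ 3 * ∑ i ∈ J, (1 : ℝ) / i := by
  unfold FJ
  rw [mul_sum]
  refine sum_le_sum fun i _ => ?_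
  rw [mul_comm 3]
  refine mul_le_mul_of_nonneg_left (le_trans (sum_le_sum fun p _ => ?_) (upp i)) (by positivity)
  exact mul_le_of_le_one_right (div_nonneg (Real.log_natCast_nonneg p) (by positivity))
    (ind_le _ _)

lemma FJ_low (E : Set ℕ) {I₀ : ℕ} (hI : ∀ i, I₀ ≤ i → (1 / 8 : ℝ) ≤ ∑ p ∈ QQ i, Real.log p / 2 ^ i)
    {J : Finset ℕ} {i₁ : ℕ} (h0 : ∀ i ∈ J, I₀ ≤ i) (h1 : ∀ i ∈ J, i < i₁) {X : ℕ} (hX : 2 ^ i₁ ≤ X) :
    1 / 8 * (∑ i ∈ J, (1 : ℝ) / i) * (sE E X - 2 * 2 ^ i₁ - 1) ≤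
      ∑ M ∈ Icc 1 X, FJ E J M / M := by
  by_cases hneg : sE E X - 2 * 2 ^ i₁ - 1 < 0
  · have h1 : 1 / 8 * (∑ i ∈ J, (1 : ℝ) / i) * (sE E X - 2 * 2 ^ i₁ - 1) ≤ 0 := by
      apply mul_nonpos_of_nonneg_of_nonpos
      · exact mul_nonneg (by norm_num) (sum_nonneg fun i _ => by positivity)
      · exact hneg.le
    exact h1.trans (sum_nonneg fun M _ => div_nonneg (FJ_nonneg _ _ _) (Nat.cast_nonneg M))
  push Not at hneg
  have e : ∑ M ∈ Icc 1 X, FJ E J M / M = ∑ i ∈ J, (1 : ℝ) / i *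
      ∑ p ∈ QQ i, Real.log p / 2 ^ i * ∑ M ∈ Icc 1 X, ind E (M / p) / M := by
    unfold FJ
    simp only [sum_div, mul_sum]
    rw [sum_comm]
    refine sum_congr rfl fun i _ => ?_
    rw [sum_comm]
    refine sum_congr rfl fun p _ => sum_congr rfl fun M _ => by ring
  rw [e, mul_right_comm, mul_comm, sum_mul]
  refine sum_le_sum fun i hi => mul_le_mul_of_nonneg_left ?_ (by positivity)
  have h1i := h1 i hi
  have h1 : ∀ p ∈ QQ i, sE E X - 2 * 2 ^ i₁ - 1 ≤ ∑ M ∈ Icc 1 X, ind E (M / p) / (M : ℝ) := by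
    intro p hp
    unfold QQ at hp
    rw [mem_filter, mem_Ioc] at hp
    have hp1 : 1 ≤ p := hp.2.one_lt.le
    have hp2 : p ≤ 2 ^ i₁ := hp.1.2.trans (Nat.pow_le_pow_right (by norm_num) (by omega))
    have hT : 1 ≤ 2 ^ i₁ := Nat.one_le_two_pow
    have h2 := lower2 E hT hX
    have h3 := lower1 E (X / 2 ^ i₁ - 1)
    have h4 := blocks E hp1 (X / 2 ^ i₁ - 1)
    have h5 : ∑ M ∈ Ico p (p * (X / 2 ^ i₁ - 1 + 1)), ind E (M / p) / (M : ℝ) ≤
        ∑ M ∈ Icc 1 X, ind E (M / p) / (M : ℝ) := by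
      refine sum_le_sum_of_subset_of_nonneg ?_ fun M _ _ =>
        div_nonneg (ind_nonneg _ _) (Nat.cast_nonneg M)
      intro M hM
      rw [mem_Ico] at hM
      rw [mem_Icc]
      refine ⟨by omega, ?_⟩
      have h6 : 1 ≤ X / 2 ^ i₁ := (Nat.one_le_div_iff (by omega)).2 hX
      rw [show X / 2 ^ i₁ - 1 + 1 = X / 2 ^ i₁ by omega] at hM
      have h7 : p * (X / 2 ^ i₁) ≤ 2 ^ i₁ * (X / 2 ^ i₁) := Nat.mul_le_mul_right _ hp2
      have h8 := Nat.mul_div_le X (2 ^ i₁)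
      omega
    push_cast at h2
    linarith
  calc 1 / 8 * (sE E X - 2 * 2 ^ i₁ - 1) ≤
        (∑ p ∈ QQ i, Real.log p / 2 ^ i) * (sE E X - 2 * 2 ^ i₁ - 1) :=
        mul_le_mul_of_nonneg_right (hI i (h0 i hi)) hneg
    _ = ∑ p ∈ QQ i, Real.log p / 2 ^ i * (sE E X - 2 * 2 ^ i₁ - 1) := by rw [sum_mul]
    _ ≤ _ := sum_le_sum fun p hp => mul_le_mul_of_nonneg_left (h1 p hp)
        (div_nonneg (Real.log_natCast_nonneg p) (by positivity))

/-- the averaging lemma for every finite set of large blocks -/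
theorem avc_w (h : S_PW) (E : Set ℕ) (hE : ¬ LZ E) : ∃ ε' : ℝ, 0 < ε' ∧ ∃ I₀ : ℕ, 1 ≤ I₀ ∧
    ∀ J : Finset ℕ, (∀ i ∈ J, I₀ ≤ i) → J.Nonempty → ∀ M₀ : ℕ, ∃ M : ℕ, M₀ ≤ M ∧
      ε' * ∑ i ∈ J, (1 : ℝ) / i ≤ FJ E J M := by
  rw [LZ_iff] at hE
  obtain ⟨I₀, hI1, hI⟩ := low h
  -- the lower density
  obtain ⟨δ, hδ, hfr⟩ : ∃ δ : ℝ, 0 < δ ∧ ∃ᶠ X : ℕ in Filter.atTop, δ ≤ sE E X / Real.log X := by
    by_contra hcon
    push Not at hcon
    apply hE
    rw [Metric.tendsto_nhds]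
    intro ε hε
    have h1 := hcon ε hε
    filter_upwards [h1, Filter.eventually_ge_atTop 1] with X h2 h3
    rw [dist_zero_right, Real.norm_eq_abs, abs_of_nonneg]
    · exact h2
    · exact div_nonneg (sE_nonneg _ _) (Real.log_natCast_nonneg X)
  refine ⟨δ / 32, by positivity, I₀, hI1, fun J h0 hJ M₀ => ?_⟩
  by_contra hcon
  push Not at hcon
  obtain ⟨i₁, hi₁⟩ : ∃ i₁ : ℕ, ∀ i ∈ J, i < i₁ := ⟨J.sup id + 1, fun i hi => by
    have := Finset.le_sup (f := id) hi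
    simp only [id] at this
    omega⟩
  set S : ℝ := ∑ i ∈ J, (1 : ℝ) / i with hS
  have hS0 : 0 < S := by
    refine sum_pos (fun i hi => ?_) hJ
    have := h0 i hi
    have : (0 : ℝ) < i := by exact_mod_cast (by omega : 0 < i)
    positivity
  have hF : ∀ M, M₀ ≤ M → FJ E J M ≤ δ / 32 * S := fun M h1 => (hcon M h1).le
  -- upper bound of the average
  have hup : ∀ X : ℕ, ∑ M ∈ Icc 1 X, FJ E J M / M ≤
      3 * S * M₀ + δ / 32 * S * (1 + Real.log X) := by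
    intro X
    have h1 : ∀ M ∈ Icc 1 X, FJ E J M / M ≤
        (if M < M₀ then 3 * S else 0) + δ / 32 * S * (1 / M) := by
      intro M hM
      have hM1 : (1 : ℝ) ≤ M := by exact_mod_cast (mem_Icc.1 hM).1
      have hM0 : (0 : ℝ) < M := by linarith
      have hF3 := FJ_le E J M
      have t1 : 0 ≤ δ / 32 * S * (1 / M) := by positivity
      by_cases hc1 : M < M₀
      · rw [if_pos hc1]
        have : FJ E J M / M ≤ 3 * S :=
          (div_le_self (FJ_nonneg _ _ _) hM1).trans hF3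
        linarith
      · rw [if_neg hc1, zero_add]
        rw [mul_one_div]
        exact div_le_div_of_nonneg_right (hF M (not_lt.1 hc1)) hM0.le
    refine (sum_le_sum h1).trans ?_
    rw [sum_add_distrib, ← mul_sum]
    have h2 : ∑ M ∈ Icc 1 X, (if M < M₀ then 3 * S else 0) ≤ 3 * S * M₀ := by
      rw [← sum_filter, sum_const, nsmul_eq_mul, mul_comm]
      refine mul_le_mul_of_nonneg_left ?_ (by positivity)
      have : ((Icc 1 X).filter (fun M => M < M₀)).card ≤ (range M₀).card := by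
        refine card_le_card fun M hM => ?_
        rw [mem_filter] at hM
        exact mem_range.2 hM.2
      rw [card_range] at this
      exact_mod_cast this
    have h3 := mul_le_mul_of_nonneg_left (harm X) (show 0 ≤ δ / 32 * S by positivity)
    linarith
  -- small terms
  have hlogT : Filter.Tendsto (fun X : ℕ => Real.log X) Filter.atTop Filter.atTop :=
    Real.tendsto_log_atTop.comp tendsto_natCast_atTop_atTop
  have hc : ∀ c : ℝ, Filter.Tendsto (fun X : ℕ => c / Real.log X) Filter.atTop (nhds 0) :=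
    fun c => tendsto_const_nhds.div_atTop hlogT
  obtain ⟨c, hcdef⟩ : ∃ c : ℝ, c = 3 * M₀ + δ / 32 + 1 / 8 * (2 * 2 ^ i₁ + 1) := ⟨_, rfl⟩
  have ev1 := (hc c).eventually (gt_mem_nhds (show (0 : ℝ) < δ / 64 by positivity))
  have ev3 := hlogT.eventually_gt_atTop 0
  obtain ⟨X, hX1, hX2, hX4, hX5⟩ := (hfr.and_eventually (ev1.and (ev3.and
    (Filter.eventually_ge_atTop (2 ^ i₁))))).exists
  have k1 := FJ_low E hI h0 hi₁ hX5
  rw [← hS] at k1
  have k2 := hup X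
  have k3 : 1 / 8 * S * (sE E X - 2 * 2 ^ i₁ - 1) ≤
      3 * S * M₀ + δ / 32 * S * (1 + Real.log X) := k1.trans k2
  have k4 : 1 / 8 * (sE E X - 2 * 2 ^ i₁ - 1) ≤
      3 * M₀ + δ / 32 * (1 + Real.log X) := by
    have e1 : 1 / 8 * S * (sE E X - 2 * 2 ^ i₁ - 1) = S * (1 / 8 * (sE E X - 2 * 2 ^ i₁ - 1)) := by
      ring
    have e2 : 3 * S * M₀ + δ / 32 * S * (1 + Real.log X) =
        S * (3 * M₀ + δ / 32 * (1 + Real.log X)) := by ring
    rw [e1, e2] at k3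
    exact le_of_mul_le_mul_left k3 hS0
  rw [le_div_iff₀ hX4] at hX1
  rw [div_lt_iff₀ hX4] at hX2
  nlinarith

end Pool.Agent.P8H6.Uni
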