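import Pool.Agent.P8H6.Uni.Cell

/-!
# One block: all the cells; the decrement at a bad block; summation over the blocks
-/

set_option autoImplicit false

namespace Pool.Agent.P8H6.Uni

open Finset Filter Topology
open Pool.Agent.TH112.BL (Bd QD win)
open Pool.Agent.Y958.TC
open Pool.Agent.P8H6.Irr (Flip ph ph_le ph_int ph_lip psi psi_le FF FF_le mul_le' prod_le exists_x)

open scoped Classical in
/-- the bad primes of a block -/
noncomputable def Bad (U : Ultrafilter ℕ) (E : Set ℕ) (i : ℕ) : Finset ℕ :=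
  (QD i (i + 1)).filter (fun p => ∀ᶠ M : ℕ in (U : Filter ℕ), M / p ∈ E)

lemma Bad_spec (U : Ultrafilter ℕ) (E : Set ℕ) (i : ℕ) :
    ∀ᶠ M : ℕ in (U : Filter ℕ), ∀ p ∈ QD i (i + 1), (M / p ∈ E → p ∈ Bad U E i) := by
  classical
  rw [Finset.eventually_all]
  intro p hp
  by_cases h : ∀ᶠ M : ℕ in (U : Filter ℕ), M / p ∈ E
  · filter_upwards with M _
    unfold Bad
    rw [mem_filter]
    exact ⟨hp, h⟩
  · have h1 : ∀ᶠ M : ℕ in (U : Filter ℕ), ¬ M / p ∈ E := Ultrafilter.eventually_not.2 h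
    filter_upwards [h1] with M hM h2
    exact absurd h2 hM

lemma log_pq_le (i : ℕ) : Real.log (pq i (i + 1)) ≤ 3 * 2 ^ i := by
  rw [log_pq]
  exact Pool.Agent.TH575.CW.theta_QD i

section blk

variable {k : ℕ} (f : Fin k → ℕ → ℤ) (a b : Fin k → ℕ) (θ : ℝ)

/-- all the cells of a good block -/
lemma block_good (hf : ∀ i, Flip (f i)) (ha : ∀ i, 1 ≤ a i) {A : ℕ} (hA : ∀ i, a i ≤ A)
    (c : ℕ) (hc2 : 2 ≤ c) (hc : ∀ i, 2 * (1 + b i) ≤ c) {ε δ : ℝ} (hε : 0 < ε) (hδ : 0 < δ) (hδ1 : δ ≤ 1)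
    {V : ℕ} (hV : 8 / δ ≤ V) (U : Ultrafilter ℕ) (hU : (U : Filter ℕ) ≤ atTop) (nx : ℕ → ℕ)
    (hnx : ∀ η : ℝ, 0 < η → ∀ᶠ M : ℕ in (U : Filter ℕ), ∀ n : ℕ, η * M ≤ n → n < M → nx n = M)
    (αE : ℕ → ℝ) (h01 : ∀ N, 0 ≤ αE N ∧ αE N ≤ 1) (ω : ℕ → ℕ) (hω : Tendsto ω atTop atTop) (E : Set ℕ)
    (hE1 : ∀ N ∈ E, Minor (ω N) N (αE N)) (hE2 : ∀ N ∈ E, δ < |Av N (psi f a b (αE N) θ)|)
    (P₀ : ℕ) (hP₀ : ∀ p : ℕ, p.Prime → P₀ ≤ p → ∀ j, ∃ s : ℤ, |s| = 1 ∧ ∀ n, ¬ p ∣ n → f j (p * n) = s * f j n)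
    (i : ℕ) (hi1 : 1 ≤ i) (hiA : A ≤ i) (hiP : P₀ ≤ i)
    (h2 : (i : ℝ) / 2 ^ i < (ε / 30) * ε / 3)
    (h3 : 3 * (2 * k + 2 * Real.pi * (2 ^ (i / 2) : ℕ)) / 2 ^ i ≤ ε)
    (hD : ∀ q ∈ Bad U E i, Df (um U hU) (la (sl f a A) (XX αE nx (2 ^ (i / 2)) q) (pq i (i + 1)))
      (bx (XX αE nx (2 ^ (i / 2)) q)) (some ()) c i ≤ ((ε / 30) * ε / 3) * 2 ^ i / i) :
    ∑ p ∈ Bad U E i, Real.log p / 2 ^ i ≤ ((V : ℝ) + 1) * (4 * ε / δ) := by
  classical
  have h2i : 0 < 2 ^ i := by positivity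
  have hmaps : ∀ p ∈ Bad U E i, V * p / 2 ^ i ∈ Icc V (2 * V) := by
    intro p hp
    unfold Bad QD at hp
    rw [mem_filter, mem_filter, mem_Ioc] at hp
    rw [mem_Icc]
    constructor
    · rw [Nat.le_div_iff_mul_le h2i]
      exact Nat.mul_le_mul_left V hp.1.1.1.le
    · apply Nat.div_le_of_le_mul
      calc V * p ≤ V * 2 ^ (i + 1) := Nat.mul_le_mul_left V hp.1.1.2
        _ = 2 ^ i * (2 * V) := by rw [pow_succ]; ring
  rw [← sum_fiberwise_of_maps_to hmaps]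
  have h4 : ∀ v ∈ Icc V (2 * V), ∑ p ∈ (Bad U E i).filter (fun p => V * p / 2 ^ i = v), Real.log p / 2 ^ i ≤
      4 * ε / δ := by
    intro v _
    set Q := (Bad U E i).filter (fun p => V * p / 2 ^ i = v) with hQ
    rcases Q.eq_empty_or_nonempty with h | h
    · rw [h, sum_empty]
      positivity
    · have hqQ := Q.max'_mem h
      have hqB : Q.max' h ∈ Bad U E i := (mem_filter.1 hqQ).1
      have hBQD : Bad U E i ⊆ QD i (i + 1) := by
        unfold Bad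
        exact filter_subset _ _
      refine cell_sum f a b θ hf ha hA c hc2 hc hε hδ hδ1 hV U hU nx hnx αE h01 ω hω E hE1 hE2 P₀ hP₀ i hi1 hiA hiP
        h2 h3 Q ((filter_subset _ _).trans hBQD) (Q.max' h) hqQ (fun p hp => Q.le_max' p hp) ?_ ?_ (hD _ hqB)
      · intro p hp
        have e1 : V * p / 2 ^ i = v := (mem_filter.1 hp).2
        have e2 : V * Q.max' h / 2 ^ i = v := (mem_filter.1 hqQ).2
        have e3 : v * 2 ^ i ≤ V * p := by rw [← e1]; exact Nat.div_mul_le_self _ _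
        have e4 : V * Q.max' h < (v + 1) * 2 ^ i := by
          rw [← e2]
          exact (Nat.lt_mul_div_succ (V * Q.max' h) h2i).trans_le (mul_comm _ _).le
        have e5 : (v + 1) * 2 ^ i = v * 2 ^ i + 2 ^ i := by ring
        rw [Nat.mul_sub]
        omega
      · unfold Bad at hqB
        exact (mem_filter.1 hqB).2
  refine (sum_le_sum h4).trans (le_of_eq ?_)
  rw [sum_const, Nat.card_Icc, nsmul_eq_mul]
  congr 1
  have : 2 * V + 1 - V = V + 1 := by omega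
  rw [this]
  push_cast
  ring

/-- the normalised entropy of the windows -/
noncomputable def hh (μ : NM) (A c i : ℕ) : ℝ := E μ (win (c * 2 ^ i) (sl f a A)) / ((c * 2 ^ i : ℕ) : ℝ)

lemma hh_mono (μ : NM) (A c i t : ℕ) (hc : 1 ≤ c) : hh f a μ A c (i + t) ≤ hh f a μ A c i := by
  unfold hh
  have h := sub_pow μ (sl f a A) (c * 2 ^ i) t
  have e : c * 2 ^ (i + t) = 2 ^ t * (c * 2 ^ i) := by rw [pow_add]; ring
  have hc0 : (0 : ℝ) < c := by exact_mod_cast hc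
  rw [e]
  push_cast
  rw [div_le_div_iff₀ (by positivity) (by positivity)]
  have h2 : (0 : ℝ) ≤ c * 2 ^ i := by positivity
  nlinarith [mul_le_mul_of_nonneg_right h h2]

/-- the decrement at a bad block -/
lemma dec_bad (hEQ : S_EQ) (hDIG : S_DIG) (U : Ultrafilter ℕ) (hU : (U : Filter ℕ) ≤ atTop) {x β : ℕ → ℝ} {i : ℕ}
    (hi1 : 1 ≤ i) (hm : Mov U (2 ^ (i / 2)) x β) (A : ℕ) {c t : ℕ} (hc : 1 ≤ c) {η : ℝ} (hη : 0 < η)
    (ht : 24 / η * i ≤ 2 ^ t) (hP2 : 2 ≤ pq i (i + 1))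
    (hdc : (((c * 2 ^ i : ℕ) : ℝ) / ((2 ^ (i / 2) : ℕ) : ℝ) + 1) * Real.log (((c * 2 ^ i : ℕ) : ℝ) + 1) /
      ((c * 2 ^ i : ℕ) : ℝ) ≤ (η / (4 * c)) / i)
    (hD : η * 2 ^ i / i ≤ Df (um U hU) (la (sl f a A) x (pq i (i + 1))) (bx x) (some ()) c i) :
    hh f a (um U hU) A c (i + t) ≤ hh f a (um U hU) A c i - (η / (2 * c)) * (1 / i) := by
  have h1 := step_mov (sl f a A) x hEQ hDIG U hU Nat.one_le_two_pow hm c i t hP2
  have e : c * 2 ^ (i + t) = 2 ^ t * (c * 2 ^ i) := by rw [pow_add]; ring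
  have hc0 : (0 : ℝ) < c := by exact_mod_cast hc
  have hi0 : (0 : ℝ) < i := by exact_mod_cast hi1
  unfold hh
  rw [e]
  have hP := log_pq_le i
  have hW0 : (0 : ℝ) < ((c * 2 ^ i : ℕ) : ℝ) := by
    push_cast
    positivity
  have ht0 : (0 : ℝ) < 2 ^ t := by positivity
  set W : ℝ := ((c * 2 ^ i : ℕ) : ℝ) with hW
  set H := E (um U hU) (win (c * 2 ^ i) (sl f a A)) with hH
  set D := Df (um U hU) (la (sl f a A) x (pq i (i + 1))) (bx x) (some ()) c i with hDd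
  set G := (W / ((2 ^ (i / 2) : ℕ) : ℝ) + 1) * Real.log (W + 1) with hG
  set H' := E (um U hU) (win (2 ^ t * (c * 2 ^ i)) (sl f a A)) with hH'
  have hWe : W = c * 2 ^ i := by rw [hW]; push_cast; ring
  have e2 : ((2 ^ t * (c * 2 ^ i) : ℕ) : ℝ) = 2 ^ t * W := by rw [hW]; push_cast; ring
  rw [e2]
  -- divide by 2 ^ t * W
  have h2 : H' / (2 ^ t * W) ≤ 2 * Real.log (pq i (i + 1)) / (2 ^ t * W) + (H / W + G / W - D / W) := by
    have h3 : 2 * Real.log (pq i (i + 1)) / (2 ^ t * W) + (H / W + G / W - D / W) =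
        (2 * Real.log (pq i (i + 1)) + 2 ^ t * (H + G - D)) / (2 ^ t * W) := by
      field_simp
    rw [h3]
    exact div_le_div_of_nonneg_right h1 (by positivity)
  have h3 : 2 * Real.log (pq i (i + 1)) / (2 ^ t * W) ≤ (η / (4 * c)) / i := by
    rw [div_le_iff₀ (by positivity)]
    have h4 : η / (4 * c) / i * (2 ^ t * W) = η / (4 * i) * 2 ^ i * 2 ^ t := by
      rw [hWe]
      field_simp
    rw [h4]
    have h5 : 6 * (2 : ℝ) ^ i ≤ η / (4 * i) * 2 ^ i * 2 ^ t := by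
      have h6 : η / (4 * i) * 2 ^ i * (24 / η * i) = 6 * 2 ^ i := by
        field_simp
        ring
      rw [← h6]
      exact mul_le_mul_of_nonneg_left ht (by positivity)
    linarith
  have h4 : η / c / i ≤ D / W := by
    rw [le_div_iff₀ hW0]
    refine le_trans (le_of_eq ?_) hD
    rw [hWe]
    field_simp
  have h5 : (η / (2 * c)) * (1 / i) = η / c / i - 2 * ((η / (4 * c)) / i) := by
    field_simp
    ring
  rw [h5]
  have h6 : G / W ≤ (η / (4 * c)) / i := hdc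
  linarith

lemma hh_le (μ : NM) (A c i : ℕ) (hc : 1 ≤ c) [Nonempty (Fin k → Fin A → SignType)] :
    hh f a μ A c i ≤ Real.log (Fintype.card (Fin k → Fin A → SignType)) := by
  classical
  unfold hh
  have hcp : 0 < Fintype.card (Fin k → Fin A → SignType) := Fintype.card_pos
  have hW0 : (0 : ℝ) < ((c * 2 ^ i : ℕ) : ℝ) := by
    have : 0 < c * 2 ^ i := Nat.mul_pos hc (by positivity)
    exact_mod_cast this
  rw [div_le_iff₀ hW0]
  have h := E_card μ (win (c * 2 ^ i) (sl f a A)) (fun _ : ℕ => ()) (FR_win _ _) (Set.toFinite _)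
    (Fintype.card (Fin k → Fin A → SignType) ^ (c * 2 ^ i)) (Nat.one_le_iff_ne_zero.2 (pow_pos hcp _).ne') univ
    (by rw [card_univ, Fintype.card_fun, Fintype.card_fin]) (fun _ => mem_univ _)
  rw [E_unit, zero_add] at h
  have h2 : E μ (win (c * 2 ^ i) (sl f a A)) ≤ E μ (fun n => (win (c * 2 ^ i) (sl f a A) n, (fun _ : ℕ => ()) n)) := by
    apply E_mono μ _ _ ((FR_win _ _).pair (Set.toFinite _))
    intro n m h
    exact (Prod.mk.injEq _ _ _ _ ▸ h).1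
  refine h2.trans (h.trans (le_of_eq ?_))
  push_cast
  rw [Real.log_pow]
  push_cast
  ring

end blk

/-- summation over the blocks -/
lemma tel (h g : ℕ → ℝ) (hmono : ∀ s, h (s + 1) ≤ h s) (B : ℕ → Prop) [DecidablePred B]
    (hB : ∀ s, B s → h (s + 1) ≤ h s - g s) (S : ℕ) : ∑ s ∈ (range S).filter B, g s ≤ h 0 - h S := by
  induction S with
  | zero => simp
  | succ S ih =>
    rw [range_add_one, filter_insert]
    split_ifs with hS
    · rw [sum_insert (by simp)]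
      have := hB S hS
      linarith
    · have := hmono S
      linarith

/-- the digits have small entropy -/
lemma dc_lim (c : ℕ) (hc : 1 ≤ c) (τ : ℝ) (hτ : 0 < τ) : ∃ I : ℕ, ∀ i : ℕ, I ≤ i → 1 ≤ i →
    (((c * 2 ^ i : ℕ) : ℝ) / ((2 ^ (i / 2) : ℕ) : ℝ) + 1) * Real.log (((c * 2 ^ i : ℕ) : ℝ) + 1) /
      ((c * 2 ^ i : ℕ) : ℝ) ≤ τ / i := by
  have hlim : Tendsto (fun j : ℕ => 8 * ((j : ℝ) ^ 2 / 2 ^ j) + (8 + 4 * (c : ℝ)) * ((j : ℝ) ^ 1 / 2 ^ j) +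
      (2 + 2 * (c : ℝ)) * ((j : ℝ) ^ 0 / 2 ^ j)) atTop
      (𝓝 (8 * 0 + (8 + 4 * (c : ℝ)) * 0 + (2 + 2 * (c : ℝ)) * 0)) := by
    have h1 := tendsto_pow_const_div_const_pow_of_one_lt 2 (show (1 : ℝ) < 2 by norm_num)
    have h2 := tendsto_pow_const_div_const_pow_of_one_lt 1 (show (1 : ℝ) < 2 by norm_num)
    have h3 := tendsto_pow_const_div_const_pow_of_one_lt 0 (show (1 : ℝ) < 2 by norm_num)
    exact ((h1.const_mul 8).add (h2.const_mul (8 + 4 * (c : ℝ)))).add (h3.const_mul (2 + 2 * (c : ℝ)))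
  have e0 : (8 * 0 + (8 + 4 * (c : ℝ)) * 0 + (2 + 2 * (c : ℝ)) * 0) = 0 := by ring
  rw [e0] at hlim
  obtain ⟨I, hI⟩ := eventually_atTop.1 (hlim.eventually_lt_const hτ)
  refine ⟨2 * I, fun i hi hi1 => ?_⟩
  have hj := hI (i / 2) (by omega)
  set j := i / 2 with hjd
  have hij : i ≤ 2 * j + 1 := by omega
  have hijr : (i : ℝ) ≤ 2 * j + 1 := by exact_mod_cast hij
  have hi0 : (0 : ℝ) < i := by exact_mod_cast hi1
  have hc1 : (1 : ℝ) ≤ c := by exact_mod_cast hc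
  set W : ℝ := ((c * 2 ^ i : ℕ) : ℝ) with hW
  have hWe : W = c * 2 ^ i := by rw [hW]; push_cast; ring
  have h2i : (1 : ℝ) ≤ 2 ^ i := one_le_pow₀ (by norm_num)
  have hW0 : (0 : ℝ) < W := by rw [hWe]; positivity
  have hL : (((2 ^ j : ℕ)) : ℝ) = 2 ^ j := by push_cast; ring
  have hjp : (0 : ℝ) < 2 ^ j := by positivity
  rw [hL]
  have hlog : Real.log (W + 1) ≤ c + i := by
    have h1 : W + 1 ≤ (c + 1) * 2 ^ i := by rw [hWe]; nlinarith
    have h2 : Real.log (W + 1) ≤ Real.log ((c + 1) * 2 ^ i) := Real.log_le_log (by linarith) h1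
    rw [Real.log_mul (by positivity) (by positivity), Real.log_pow] at h2
    have h3 : Real.log ((c : ℝ) + 1) ≤ c := by
      have := Real.log_le_sub_one_of_pos (show (0 : ℝ) < (c : ℝ) + 1 by positivity)
      linarith
    have h4 := Real.log_two_lt_d9
    have h5 : (i : ℝ) * Real.log 2 ≤ i * 1 := mul_le_mul_of_nonneg_left (by linarith) hi0.le
    linarith
  have hlog0 : 0 ≤ Real.log (W + 1) := Real.log_nonneg (by linarith)
  have h1 : W / 2 ^ j + 1 ≤ 2 * (W / 2 ^ j) := by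
    have h2 : (1 : ℝ) ≤ W / 2 ^ j := by
      rw [le_div_iff₀ hjp, one_mul, hWe]
      have h3 : (2 : ℝ) ^ j ≤ 2 ^ i := pow_le_pow_right₀ (by norm_num) (by omega)
      nlinarith
    linarith
  rw [div_le_div_iff₀ hW0 hi0]
  have h2 : (W / 2 ^ j + 1) * Real.log (W + 1) * i ≤ 2 * (W / 2 ^ j) * (c + i) * i := by
    apply mul_le_mul_of_nonneg_right _ hi0.le
    exact mul_le_mul h1 hlog hlog0 (by positivity)
  refine h2.trans ?_
  have h3 : 2 * (W / 2 ^ j) * (c + i) * i = W * (2 * (c + i) * i / 2 ^ j) := by ring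
  rw [h3, mul_comm τ W]
  apply mul_le_mul_of_nonneg_left _ hW0.le
  refine le_trans ?_ hj.le
  rw [div_le_iff₀ hjp]
  have h4 : (8 * ((j : ℝ) ^ 2 / 2 ^ j) + (8 + 4 * c) * ((j : ℝ) ^ 1 / 2 ^ j) +
      (2 + 2 * c) * ((j : ℝ) ^ 0 / 2 ^ j)) * 2 ^ j = 8 * (j : ℝ) ^ 2 + (8 + 4 * c) * j + (2 + 2 * c) := by
    field_simp
  rw [h4]
  have h5 : 2 * ((c : ℝ) + i) * i ≤ 2 * (c + (2 * j + 1)) * (2 * j + 1) := by
    apply mul_le_mul _ hijr hi0.le (by positivity)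
    linarith
  linarith

end Pool.Agent.P8H6.Uni
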