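import Pool.Agent.P8H6.Uni.Defs2
import Pool.Agent.Y965.PS.Maj

/-!
# Package BOHR of project UNI: the points with `{P(n)}` in an interval (helper43)

The indicator function of an interval minus its length is the difference of two values of the sawtooth
function, whose sums are controlled by exponential sums (starting file `Pool.Agent.Y965.PS.Maj`).
-/

set_option autoImplicit false

namespace Pool.Agent.P8H6.Uni

open Finset Filter Topology

namespace BOHRaux

open Pool.Agent.Y965.PS (psi psi_sum)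
open Pool.Agent.H469R2.NK (e)

lemma e_eq (x : ℝ) : e x = ex x := by
  unfold e ex
  congr 1
  push_cast
  ring

lemma ex_conj (x : ℝ) : (starRingEnd ℂ) (ex x) = ex (-x) := by
  unfold ex
  rw [← Complex.exp_conj]
  congr 1
  rw [map_mul, map_mul, map_mul, Complex.conj_I, Complex.conj_ofReal, Complex.conj_ofReal]
  rw [show (starRingEnd ℂ) 2 = 2 from Complex.conj_ofNat 2]
  push_cast
  ring

lemma ind_eq (x u v : ℝ) (hu : 0 ≤ u) (huv : u ≤ v) (hv : v ≤ 1)
    [Decidable (u ≤ Int.fract x ∧ Int.fract x < v)] :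
    (if u ≤ Int.fract x ∧ Int.fract x < v then (1 : ℝ) else 0) - (v - u) = psi (x - v) - psi (x - u) := by
  have h0 := Int.fract_nonneg x
  have h1 := Int.fract_lt_one x
  have hx : x - Int.fract x = ⌊x⌋ := by
    have := Int.floor_add_fract x
    linarith
  have key : ∀ w : ℝ, 0 ≤ w → w ≤ 1 → Int.fract (x - w) = if Int.fract x < w then Int.fract x - w + 1
      else Int.fract x - w := by
    intro w hw0 hw1
    split_ifs with h
    · rw [Int.fract_eq_iff]
      refine ⟨by linarith, by linarith, ⌊x⌋ - 1, ?_⟩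
      push_cast
      linarith
    · rw [Int.fract_eq_iff]
      refine ⟨by linarith [not_lt.1 h], by linarith, ⌊x⌋, ?_⟩
      linarith
  unfold psi
  rw [key v (by linarith) hv, key u hu (by linarith)]
  by_cases hA : Int.fract x < u
  · have hB : Int.fract x < v := by linarith
    have hC : ¬ (u ≤ Int.fract x ∧ Int.fract x < v) := fun h => by linarith [h.1]
    rw [if_neg hC, if_pos hB, if_pos hA]
    ring
  · by_cases hB : Int.fract x < v
    · have hC : u ≤ Int.fract x ∧ Int.fract x < v := ⟨not_lt.1 hA, hB⟩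
      rw [if_pos hC, if_pos hB, if_neg hA]
      ring
    · have hC : ¬ (u ≤ Int.fract x ∧ Int.fract x < v) := fun h => hB h.2
      rw [if_neg hC, if_neg hB, if_neg hA]
      ring

/-- the three exponential sums -/
noncomputable def TT (G : Finset ℕ) (F : ℕ → ℂ) (y : ℕ → ℝ) (n : ℕ) : ℝ :=
  ‖∑ m ∈ G, (1 : ℂ) * ex (n * y m)‖ + ‖∑ m ∈ G, F m * ex (n * y m)‖ + ‖∑ m ∈ G, F m * ex (-(n * y m))‖

lemma TT_nonneg (G : Finset ℕ) (F : ℕ → ℂ) (y : ℕ → ℝ) (n : ℕ) : 0 ≤ TT G F y n := by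
  unfold TT
  positivity

lemma real_part (G : Finset ℕ) (F : ℕ → ℂ) (hF : ∀ n, ‖F n‖ ≤ 1) (y : ℕ → ℝ) (K : ℕ) (hK : 1 ≤ K) (η : ℝ)
    (h0 : 0 < η) (h1 : η < 1) :
    |∑ m ∈ G, (F m).re * psi (y m)| ≤ 3 * (η * G.card + 2 * G.card / (η * K) +
      ∑ n ∈ Icc 1 K, 1 / (n : ℝ) * TT G F y n) := by
  have hre : ∀ m, |(F m).re| ≤ 1 := fun m => (Complex.abs_re_le_norm _).trans (hF m)
  have hA := psi_sum G (F := fun m => (1 + (F m).re) / 2) (fun m => by
    have := (abs_le.1 (hre m)).1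
    linarith) (fun m => by
    have := (abs_le.1 (hre m)).2
    linarith) y hK h0 h1
  have hB := psi_sum G (F := fun _ => 1) (fun m => by norm_num) (fun m => le_rfl) y hK h0 h1
  simp only [one_mul, Complex.ofReal_one] at hB
  have hTB : ∑ n ∈ Icc 1 K, 1 / (n : ℝ) * ‖∑ m ∈ G, e (n * y m)‖ ≤ ∑ n ∈ Icc 1 K, 1 / (n : ℝ) * TT G F y n := by
    apply sum_le_sum
    intro n _
    apply mul_le_mul_of_nonneg_left _ (by positivity)
    unfold TT
    have e1 : ∑ m ∈ G, e (n * y m) = ∑ m ∈ G, (1 : ℂ) * ex (n * y m) :=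
      sum_congr rfl fun m _ => by rw [e_eq, one_mul]
    rw [e1]
    have h2 := norm_nonneg (∑ m ∈ G, F m * ex (n * y m))
    have h3 := norm_nonneg (∑ m ∈ G, F m * ex (-(n * y m)))
    linarith
  have hTA : ∑ n ∈ Icc 1 K, 1 / (n : ℝ) * ‖∑ m ∈ G, (((1 + (F m).re) / 2 : ℝ) : ℂ) * e (n * y m)‖ ≤
      ∑ n ∈ Icc 1 K, 1 / (n : ℝ) * TT G F y n := by
    apply sum_le_sum
    intro n _
    apply mul_le_mul_of_nonneg_left _ (by positivity)
    have e1 : ∑ m ∈ G, (((1 + (F m).re) / 2 : ℝ) : ℂ) * e (n * y m) =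
        (1 / 2) * ∑ m ∈ G, (1 : ℂ) * ex (n * y m) + (1 / 4) * ∑ m ∈ G, F m * ex (n * y m) +
        (1 / 4) * (starRingEnd ℂ) (∑ m ∈ G, F m * ex (-(n * y m))) := by
      rw [map_sum, mul_sum, mul_sum, mul_sum, ← sum_add_distrib, ← sum_add_distrib]
      apply sum_congr rfl
      intro m _
      rw [e_eq, map_mul, ex_conj, neg_neg]
      have h2 : (((F m).re : ℝ) : ℂ) = (F m + (starRingEnd ℂ) (F m)) / 2 := by
        rw [Complex.add_conj]
        push_cast
        ring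
      push_cast
      rw [h2]
      ring
    rw [e1]
    refine (norm_add₃_le).trans ?_
    rw [norm_mul, norm_mul, norm_mul, RCLike.norm_conj]
    unfold TT
    have h2 := norm_nonneg (∑ m ∈ G, F m * ex (n * y m))
    have h3 := norm_nonneg (∑ m ∈ G, F m * ex (-(n * y m)))
    have h4 := norm_nonneg (∑ m ∈ G, (1 : ℂ) * ex (n * y m))
    have h5 : ‖(1 / 2 : ℂ)‖ = 1 / 2 := by norm_num
    have h6 : ‖(1 / 4 : ℂ)‖ = 1 / 4 := by norm_num
    rw [h5, h6]
    linarith
  have e2 : ∑ m ∈ G, (F m).re * psi (y m) = 2 * ∑ m ∈ G, (1 + (F m).re) / 2 * psi (y m) - ∑ m ∈ G, psi (y m) := by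
    rw [mul_sum, ← sum_sub_distrib]
    exact sum_congr rfl fun m _ => by ring
  rw [e2]
  have hA' := abs_le.1 (hA.trans (add_le_add_right hTA _))
  have hB' := abs_le.1 (hB.trans (add_le_add_right hTB _))
  rw [abs_le]
  constructor <;> linarith [hA'.1, hA'.2, hB'.1, hB'.2]

lemma complex_part (G : Finset ℕ) (F : ℕ → ℂ) (hF : ∀ n, ‖F n‖ ≤ 1) (y : ℕ → ℝ) (K : ℕ) (hK : 1 ≤ K) (η : ℝ)
    (h0 : 0 < η) (h1 : η < 1) :
    ‖∑ m ∈ G, F m * ((psi (y m) : ℝ) : ℂ)‖ ≤ 6 * (η * G.card + 2 * G.card / (η * K) +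
      ∑ n ∈ Icc 1 K, 1 / (n : ℝ) * TT G F y n) := by
  have hR := real_part G F hF y K hK η h0 h1
  have hI := real_part G (fun m => -Complex.I * F m) (fun m => by
    rw [norm_mul, norm_neg, Complex.norm_I, one_mul]
    exact hF m) y K hK η h0 h1
  have hTT : ∀ n, TT G (fun m => -Complex.I * F m) y n = TT G F y n := by
    intro n
    unfold TT
    have h2 : ∀ g : ℕ → ℂ, ‖∑ m ∈ G, -Complex.I * F m * g m‖ = ‖∑ m ∈ G, F m * g m‖ := by
      intro g
      have : ∑ m ∈ G, -Complex.I * F m * g m = -Complex.I * ∑ m ∈ G, F m * g m := by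
        rw [mul_sum]
        exact sum_congr rfl fun m _ => by ring
      rw [this, norm_mul, norm_neg, Complex.norm_I, one_mul]
    rw [h2, h2]
  simp only [hTT] at hI
  have him : ∀ m, (-Complex.I * F m).re = (F m).im := by
    intro m
    simp
  simp only [him] at hI
  have hre : (∑ m ∈ G, F m * ((psi (y m) : ℝ) : ℂ)).re = ∑ m ∈ G, (F m).re * psi (y m) := by
    rw [Complex.re_sum]
    exact sum_congr rfl fun m _ => Complex.re_mul_ofReal _ _
  have hima : (∑ m ∈ G, F m * ((psi (y m) : ℝ) : ℂ)).im = ∑ m ∈ G, (F m).im * psi (y m) := by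
    rw [Complex.im_sum]
    exact sum_congr rfl fun m _ => Complex.im_mul_ofReal _ _
  refine (Complex.norm_le_abs_re_add_abs_im _).trans ?_
  rw [hre, hima]
  linarith

lemma Minor.mul' {C C' N m : ℕ} {α : ℝ} (hm : 1 ≤ m) (h : Minor C N α) (hC : C' * m ≤ C) :
    Minor C' N ((m : ℝ) * α) := by
  intro q h1 h2 a
  have h3 := h (q * m) (Nat.mul_pos h1 hm) ((Nat.mul_le_mul_right m h2).trans hC) a
  have h4 : C' ≤ C := le_trans (Nat.le_mul_of_pos_right _ hm) hC
  have h5 : (C' : ℝ) ≤ C := by exact_mod_cast h4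
  push_cast at h3
  rw [mul_assoc] at h3
  linarith

lemma Minor.neg' {C N : ℕ} {α : ℝ} (h : Minor C N α) : Minor C N (-α) := by
  intro q h1 h2 a
  have := h q h1 h2 (-a)
  rw [Int.cast_neg] at this
  have e3 : |(q : ℝ) * -α - a| = |(q : ℝ) * α - -(a : ℝ)| := by
    rw [← abs_neg]
    congr 1
    ring
  rw [e3]
  exact this

/-- the coefficients of `s (P - t)` -/
noncomputable def cc (c : ℕ → ℝ) (s t : ℝ) (j : ℕ) : ℝ := s * (c j - if j = 0 then t else 0)

lemma cc_sum (c : ℕ → ℝ) (s t : ℝ) (d n : ℕ) : ∑ j ∈ range (d + 1), cc c s t j * (n : ℝ) ^ j =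
    s * (∑ j ∈ range (d + 1), c j * (n : ℝ) ^ j - t) := by
  have h1 : ∀ j ∈ range (d + 1), cc c s t j * (n : ℝ) ^ j = s * (c j * (n : ℝ) ^ j) -
      (if j = 0 then s * t else 0) := by
    intro j _
    unfold cc
    split_ifs with h
    · subst h
      simp
      ring
    · ring
  rw [sum_congr rfl h1, sum_sub_distrib, ← mul_sum, sum_ite_eq' (range (d + 1)) 0]
  simp
  ring

end BOHRaux

open BOHRaux in
open Pool.Agent.Y965.PS (psi) in
theorem bohr_thm : S_BOHR := by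
  intro F hF ω ω' E d hd _ hω hPF hP1 ε hε
  set ε₁ : ℝ := ε / 36 with hε₁
  have hε₁0 : 0 < ε₁ := by positivity
  set η : ℝ := min ε₁ (1 / 2) with hη
  have hη0 : 0 < η := lt_min hε₁0 (by norm_num)
  have hη1 : η < 1 := lt_of_le_of_lt (min_le_right _ _) (by norm_num)
  have hηε : η ≤ ε₁ := min_le_left _ _
  obtain ⟨K, hK⟩ := exists_nat_gt (2 / (η * ε₁))
  have hK0 : (0 : ℝ) < K := lt_of_le_of_lt (by positivity) hK
  have hK1 : 1 ≤ K := by exact_mod_cast hK0
  have hKε : 2 / (η * K) ≤ ε₁ := by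
    rw [div_lt_iff₀ (by positivity)] at hK
    rw [div_le_iff₀ (by positivity)]
    nlinarith
  obtain ⟨N₁, hN₁⟩ := hPF (ε₁ / (3 * K)) (by positivity)
  obtain ⟨N₂, hN₂⟩ := hP1 (ε₁ / (3 * K)) (by positivity)
  obtain ⟨N₃, hN₃⟩ := Filter.eventually_atTop.1 (hω K)
  refine ⟨N₁ + N₂ + N₃, ?_⟩
  intro N hN hE c hc Y X hYX hXN u v hu huv hv
  have hω' := hN₃ N (by omega)
  have hNr : (0 : ℝ) ≤ N := Nat.cast_nonneg N
  have hcard : ((Ioc Y X).card : ℝ) ≤ N := by
    rw [Nat.card_Ioc]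
    exact_mod_cast (by omega : X - Y ≤ N)
  -- the sums with the sawtooth function
  have main : ∀ t : ℝ, ‖∑ n ∈ Ioc Y X, F n *
      ((psi (∑ j ∈ range (d + 1), c j * (n : ℝ) ^ j - t) : ℝ) : ℂ)‖ ≤ ε / 2 * N := by
    intro t
    refine (complex_part (Ioc Y X) F hF (fun n => ∑ j ∈ range (d + 1), c j * (n : ℝ) ^ j - t) K hK1 η hη0
      hη1).trans ?_
    have hT : ∀ n ∈ Icc 1 K, 1 / (n : ℝ) * TT (Ioc Y X) F (fun n => ∑ j ∈ range (d + 1), c j * (n : ℝ) ^ j - t) n ≤
        ε₁ / K * N := by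
      intro n hn
      rw [mem_Icc] at hn
      have hn0 : (1 : ℝ) ≤ n := by exact_mod_cast hn.1
      have hcd : ∀ s : ℝ, cc c s t d = s * c d := by
        intro s
        unfold cc
        rw [if_neg (by omega)]
        ring
      have hm1 : Minor (ω' N) N (cc c (n : ℝ) t d) := by
        rw [hcd]
        exact Minor.mul' hn.1 hc (le_trans (by rw [mul_comm]; exact Nat.mul_le_mul_right _ hn.2) hω')
      have hm2 : Minor (ω' N) N (cc c (-(n : ℝ)) t d) := by
        rw [hcd, neg_mul]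
        apply Minor.neg'
        rw [hcd] at hm1
        exact hm1
      have s1 := hN₁ N (by omega) hE (cc c (n : ℝ) t) hm1 Y X hYX hXN
      have s2 := hN₁ N (by omega) hE (cc c (-(n : ℝ)) t) hm2 Y X hYX hXN
      have s3 := hN₂ N (by omega) hE (cc c (n : ℝ) t) hm1 Y X hYX hXN
      simp only [cc_sum] at s1 s2 s3
      have hTT : TT (Ioc Y X) F (fun n => ∑ j ∈ range (d + 1), c j * (n : ℝ) ^ j - t) n ≤ ε₁ / K * N := by
        unfold TT
        have e1 : ∀ m : ℕ, -((n : ℝ) * (∑ j ∈ range (d + 1), c j * (m : ℝ) ^ j - t)) =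
            -(n : ℝ) * (∑ j ∈ range (d + 1), c j * (m : ℝ) ^ j - t) := fun m => by ring
        simp only [e1]
        have e2 : ε₁ / K * N = 3 * (ε₁ / (3 * K) * N) := by
          field_simp
        rw [e2]
        linarith
      calc 1 / (n : ℝ) * TT (Ioc Y X) F (fun n => ∑ j ∈ range (d + 1), c j * (n : ℝ) ^ j - t) n
          ≤ 1 * TT (Ioc Y X) F (fun n => ∑ j ∈ range (d + 1), c j * (n : ℝ) ^ j - t) n := by
            apply mul_le_mul_of_nonneg_right _ (TT_nonneg _ _ _ _)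
            rw [div_le_one (by linarith)]
            exact hn0
        _ ≤ _ := by rw [one_mul]; exact hTT
    have hS := sum_le_sum hT
    rw [sum_const, Nat.card_Icc, Nat.add_sub_cancel, nsmul_eq_mul] at hS
    have e3 : (K : ℝ) * (ε₁ / K * N) = ε₁ * N := by
      field_simp
    rw [e3] at hS
    have h4 : η * ((Ioc Y X).card : ℝ) ≤ ε₁ * N := mul_le_mul hηε hcard (Nat.cast_nonneg _) hε₁0.le
    have h5 : 2 * ((Ioc Y X).card : ℝ) / (η * K) ≤ ε₁ * N := by
      calc 2 * ((Ioc Y X).card : ℝ) / (η * K) = 2 / (η * K) * ((Ioc Y X).card : ℝ) := by ring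
        _ ≤ ε₁ * N := mul_le_mul hKε hcard (Nat.cast_nonneg _) hε₁0.le
    have h6 : 6 * (ε₁ * N + ε₁ * N + ε₁ * N) = ε / 2 * N := by
      rw [hε₁]
      ring
    rw [← h6]
    linarith
  have e4 : ∑ n ∈ Ioc Y X, F n * (((if u ≤ Int.fract (∑ j ∈ range (d + 1), c j * (n : ℝ) ^ j) ∧
        Int.fract (∑ j ∈ range (d + 1), c j * (n : ℝ) ^ j) < v then (1 : ℝ) else 0) - (v - u) : ℝ) : ℂ) =
      ∑ n ∈ Ioc Y X, F n * ((psi (∑ j ∈ range (d + 1), c j * (n : ℝ) ^ j - v) : ℝ) : ℂ) -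
      ∑ n ∈ Ioc Y X, F n * ((psi (∑ j ∈ range (d + 1), c j * (n : ℝ) ^ j - u) : ℝ) : ℂ) := by
    rw [← sum_sub_distrib]
    apply sum_congr rfl
    intro n _
    rw [ind_eq _ u v hu huv hv]
    push_cast
    ring
  rw [e4]
  refine (norm_sub_le _ _).trans ?_
  linarith [main u, main v]

end Pool.Agent.P8H6.Uni
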