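import Pool.Agent.P8H6.Uni.Defs

/-!
# A sparse set of scales; the sparse sequence of blocks
-/

set_option autoImplicit false

namespace Pool.Agent.P8H6.Uni

open Finset Filter Topology
open Pool.Agent.Y958.TC

/-- a sparse subset of a set of scales and an ultrafilter on it -/
lemma nx_exists (B : Set ℕ) (hB : ∀ M₀ : ℕ, ∃ M, M₀ ≤ M ∧ M ∈ B) :
    ∃ (U : Ultrafilter ℕ) (_ : (U : Filter ℕ) ≤ atTop) (nx : ℕ → ℕ), B ∈ (U : Filter ℕ) ∧
      ∀ η : ℝ, 0 < η → ∀ᶠ M : ℕ in (U : Filter ℕ), ∀ n : ℕ, η * M ≤ n → n < M → nx n = M := by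
  classical
  choose g hg1 hg2 using hB
  obtain ⟨m, hm0, hms⟩ : ∃ m : ℕ → ℕ, m 0 = g 1 ∧ ∀ j, m (j + 1) = g ((j + 2) * m j + 1) :=
    ⟨fun j => Nat.rec (g 1) (fun j x => g ((j + 2) * x + 1)) j, rfl, fun j => rfl⟩
  have hgr : ∀ j, (j + 2) * m j < m (j + 1) := fun j => by
    rw [hms]
    exact Nat.lt_of_succ_le (hg1 _)
  have hpos : ∀ j, 1 ≤ m j := by
    intro j
    induction j with
    | zero => rw [hm0]; exact hg1 1
    | succ j ih =>
      have := hgr j
      omega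
  have hmono : StrictMono m := strictMono_nat_of_lt_succ fun j => by
    have h1 := hgr j
    have h2 : m j ≤ (j + 2) * m j := Nat.le_mul_of_pos_left _ (by omega)
    omega
  have hmB : ∀ j, m j ∈ B := by
    intro j
    cases j with
    | zero => rw [hm0]; exact hg2 1
    | succ j => rw [hms]; exact hg2 _
  obtain ⟨U, hU, hT⟩ := exists_ultra (Set.range m) (fun M₀ => ⟨m M₀, hmono.le_apply, M₀, rfl⟩)
  have hex : ∀ n, ∃ j, n < m j := fun n => ⟨n + 1, lt_of_lt_of_le (Nat.lt_succ_self n) hmono.le_apply⟩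
  refine ⟨U, hU, fun n => m (Nat.find (p := fun j => n < m j) (hex n)), ?_, ?_⟩
  · refine Filter.mem_of_superset hT ?_
    rintro _ ⟨j, rfl⟩
    exact hmB j
  · intro η hη
    obtain ⟨j₀, hj₀⟩ := exists_nat_gt (1 / η)
    filter_upwards [hT, hU (eventually_ge_atTop (m (j₀ + 1)))] with M hM1 hM2 n hn1 hn2
    obtain ⟨j, rfl⟩ := hM1
    have hj : j₀ + 1 ≤ j := by
      by_contra hcon
      exact absurd (hmono (not_le.1 hcon)) (not_lt.2 hM2)
    obtain ⟨i, rfl⟩ : ∃ i, j = i + 1 := ⟨j - 1, by omega⟩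
    have h1 : m i ≤ n := by
      have h2 : (((i + 2) * m i : ℕ) : ℝ) ≤ (m (i + 1) : ℝ) := by exact_mod_cast (hgr i).le
      have h3 : 1 ≤ η * ((i : ℝ) + 2) := by
        have h4 : (j₀ : ℝ) ≤ i := by exact_mod_cast (by omega : j₀ ≤ i)
        rw [div_lt_iff₀ hη] at hj₀
        nlinarith
      have h5 : (m i : ℝ) ≤ n := by
        refine le_trans ?_ hn1
        push_cast at h2
        have h6 : (0 : ℝ) ≤ m i := Nat.cast_nonneg _
        have h7 : (m i : ℝ) ≤ (η * ((i : ℝ) + 2)) * m i := le_mul_of_one_le_left h6 h3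
        have h8 := mul_le_mul_of_nonneg_left h2 hη.le
        refine h7.trans (le_trans (le_of_eq ?_) h8)
        ring
      exact_mod_cast h5
    have h2 : Nat.find (p := fun j => n < m j) (hex n) = i + 1 := by
      rw [Nat.find_eq_iff]
      refine ⟨hn2, fun k hk => ?_⟩
      rw [not_lt]
      exact (hmono.monotone (by omega : k ≤ i)).trans h1
    show m (Nat.find (p := fun j => n < m j) (hex n)) = m (i + 1)
    rw [h2]

/-! ### the blocks -/

/-- the gaps between the blocks -/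
def gap (κ i : ℕ) : ℕ := Nat.log 2 i + κ

/-- the sequence of blocks -/
def blk (κ i₀ : ℕ) : ℕ → ℕ
  | 0 => i₀
  | s + 1 => blk κ i₀ s + gap κ (blk κ i₀ s)

lemma blk_ge (κ i₀ s : ℕ) : i₀ ≤ blk κ i₀ s := by
  induction s with
  | zero => exact le_rfl
  | succ s ih => exact ih.trans (Nat.le_add_right _ _)

lemma blk_mono {κ : ℕ} (hκ : 1 ≤ κ) (i₀ : ℕ) : StrictMono (blk κ i₀) :=
  strictMono_nat_of_lt_succ fun s => by
    show blk κ i₀ s < blk κ i₀ s + gap κ (blk κ i₀ s)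
    unfold gap
    omega

lemma gap_pow {κ i : ℕ} (hκ : 1 ≤ κ) : 2 ^ (κ - 1) * i ≤ 2 ^ gap κ i := by
  unfold gap
  have h1 : i < 2 ^ (Nat.log 2 i + 1) := Nat.lt_pow_succ_log_self (by norm_num) i
  calc 2 ^ (κ - 1) * i ≤ 2 ^ (κ - 1) * 2 ^ (Nat.log 2 i + 1) := Nat.mul_le_mul_left _ h1.le
    _ = 2 ^ (Nat.log 2 i + κ) := by rw [← pow_add]; congr 1; omega

/-- the weights `1 / i` over the blocks diverge -/
lemma blk_sum {κ i₀ : ℕ} (hκ : 1 ≤ κ) (hi₀ : 1 ≤ i₀) (R : ℝ) :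
    ∃ S : ℕ, R < ∑ s ∈ range S, (1 : ℝ) / blk κ i₀ s := by
  set g : ℕ → ℝ := fun i => 1 / ((i : ℝ) * (gap κ i : ℝ)) with hg
  have hgap1 : ∀ i, (1 : ℝ) ≤ gap κ i := fun i => by
    unfold gap
    exact_mod_cast (by omega : 1 ≤ Nat.log 2 i + κ)
  have hg0 : ∀ i, 0 ≤ g i := fun i => by
    have := hgap1 i
    rw [hg]
    positivity
  have hanti : ∀ ⦃m n : ℕ⦄, 0 < m → m ≤ n → g n ≤ g m := by
    intro m n hm hmn
    rw [hg]
    have h1 := hgap1 m
    have h2 : (gap κ m : ℝ) ≤ gap κ n := by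
      unfold gap
      exact_mod_cast Nat.add_le_add_right (Nat.log_mono_right hmn) κ
    have h3 : (0 : ℝ) < m := by exact_mod_cast hm
    have h4 : (m : ℝ) ≤ n := by exact_mod_cast hmn
    apply one_div_le_one_div_of_le (by positivity)
    exact mul_le_mul h4 h2 (by positivity) (by positivity)
  have hns : ¬ Summable g := by
    rw [← summable_condensed_iff_of_nonneg hg0 hanti]
    intro h
    have h2 : Summable (fun k : ℕ => (1 : ℝ) / ((k + κ : ℕ) : ℝ)) := by
      refine h.congr fun k => ?_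
      rw [hg]
      simp only [gap, Nat.log_pow (by norm_num : 1 < 2)]
      push_cast
      have : (0 : ℝ) < 2 ^ k := by positivity
      field_simp
    rw [summable_nat_add_iff (f := fun k : ℕ => (1 : ℝ) / (k : ℝ)) κ] at h2
    exact Real.not_summable_one_div_natCast h2
  have hkey : ∀ S, ∑ i ∈ Ico i₀ (blk κ i₀ S), g i ≤ ∑ s ∈ range S, (1 : ℝ) / blk κ i₀ s := by
    intro S
    induction S with
    | zero =>
      have : blk κ i₀ 0 = i₀ := rfl
      rw [this]
      simp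
    | succ S ih =>
      rw [sum_range_succ, ← sum_Ico_consecutive g (blk_ge κ i₀ S)
        ((blk_mono hκ i₀).monotone (Nat.le_succ S))]
      apply add_le_add ih
      have hb : 0 < blk κ i₀ S := lt_of_lt_of_le (by omega) (blk_ge κ i₀ S)
      have h1 : ∀ i ∈ Ico (blk κ i₀ S) (blk κ i₀ (S + 1)), g i ≤ g (blk κ i₀ S) := fun i hi =>
        hanti hb (mem_Ico.1 hi).1
      refine (sum_le_sum h1).trans ?_
      rw [sum_const, Nat.card_Ico, nsmul_eq_mul]
      have h2 : blk κ i₀ (S + 1) - blk κ i₀ S = gap κ (blk κ i₀ S) := by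
        show blk κ i₀ S + gap κ (blk κ i₀ S) - blk κ i₀ S = _
        omega
      rw [h2, hg]
      have h3 := hgap1 (blk κ i₀ S)
      have h4 : (0 : ℝ) < blk κ i₀ S := by exact_mod_cast hb
      apply le_of_eq
      field_simp
  have h1 : Tendsto (fun n => ∑ i ∈ range n, g i) atTop atTop :=
    (not_summable_iff_tendsto_nat_atTop_of_nonneg hg0).1 hns
  obtain ⟨n, hn1, hn2⟩ := ((h1.eventually_gt_atTop (R + ∑ i ∈ range i₀, g i)).and (eventually_ge_atTop i₀)).exists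
  refine ⟨n, lt_of_lt_of_le ?_ (hkey n)⟩
  have h2 : n ≤ blk κ i₀ n := (blk_mono hκ i₀).le_apply
  have h3 : ∑ i ∈ range n, g i ≤ ∑ i ∈ range (blk κ i₀ n), g i :=
    sum_le_sum_of_subset_of_nonneg (range_subset_range.2 h2) fun i _ _ => hg0 i
  have h4 := sum_range_add_sum_Ico g (hn2.trans h2)
  linarith

end Pool.Agent.P8H6.Uni
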