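import Pool.Agent.P8H6.Uni.Cmp
import Pool.Agent.P8H6.Uni.Nx
import Pool.Agent.P8H6.Uni.Avw

/-!
# One cell of primes at a good block
-/

set_option autoImplicit false

namespace Pool.Agent.P8H6.Uni

open Finset Filter Topology
open Pool.Agent.TH112.BL (Bd QD win)
open Pool.Agent.Y958.TC
open Pool.Agent.P8H6.Irr (Flip ph ph_le ph_int ph_lip psi psi_le FF FF_le mul_le' prod_le exists_x)

instance (i : ℕ) : NeZero (pq i (i + 1)) := ⟨(pq_pos _ _).ne'⟩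

/-- the moving sequence of a prime -/
noncomputable def XX (αE : ℕ → ℝ) (nx : ℕ → ℕ) (L p : ℕ) (n : ℕ) : ℝ := αE (nx n / p) / L * n

/-- the moving frequency of a prime -/
noncomputable def BB (αE : ℕ → ℝ) (L p : ℕ) (M : ℕ) : ℝ := αE (M / p) / L

lemma mov_of (U : Ultrafilter ℕ) (hU : (U : Filter ℕ) ≤ atTop) (nx : ℕ → ℕ)
    (hnx : ∀ η : ℝ, 0 < η → ∀ᶠ M : ℕ in (U : Filter ℕ), ∀ n : ℕ, η * M ≤ n → n < M → nx n = M)
    (αE : ℕ → ℝ) (h01 : ∀ N, 0 ≤ αE N ∧ αE N ≤ 1) (ω : ℕ → ℕ) (hω : Tendsto ω atTop atTop) {p L : ℕ}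
    (hp : 1 ≤ p) (hL : 1 ≤ L) (hmin : ∀ᶠ M : ℕ in (U : Filter ℕ), Minor (ω (M / p)) (M / p) (αE (M / p))) :
    Mov U L (XX αE nx L p) (BB αE L p) := by
  have hL0 : (0 : ℝ) < L := by exact_mod_cast hL
  refine ⟨fun n => ?_, fun η hη => ?_, ?_, ?_, fun q hq C => ?_⟩
  · unfold XX
    have := (h01 (nx n / p)).1
    positivity
  · filter_upwards [hnx η hη] with M hM n hn1 hn2
    unfold XX BB
    rw [hM n hn1 hn2]
  · filter_upwards with M
    unfold BB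
    exact div_nonneg (h01 _).1 hL0.le
  · filter_upwards with M
    unfold BB
    rw [mul_div_cancel₀ _ hL0.ne']
    exact (h01 _).2
  · have h1 : Tendsto (fun M : ℕ => ω (M / p)) (U : Filter ℕ) atTop := hω.comp (div_atTop U hU p hp)
    obtain ⟨C', hC'⟩ := exists_nat_ge (C * L)
    filter_upwards [hmin, h1.eventually_ge_atTop (C' + q)] with M h2 h3 a
    have h4 := h2 q hq (by omega) (a * L)
    unfold BB
    have h5 : (M : ℝ) * |q * (αE (M / p) / L) - a| = M / L * |q * αE (M / p) - ((a * L : ℤ) : ℝ)| := by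
      have h6 : (q : ℝ) * (αE (M / p) / L) - a = (q * αE (M / p) - ((a * L : ℤ) : ℝ)) / L := by
        push_cast
        field_simp
      rw [h6, abs_div, abs_of_pos hL0]
      ring
    rw [h5, div_mul_eq_mul_div, le_div_iff₀ hL0]
    have h6 : ((M / p : ℕ) : ℝ) ≤ M := by exact_mod_cast Nat.div_le_self M p
    have h7 : ((M / p : ℕ) : ℝ) * |q * αE (M / p) - ((a * L : ℤ) : ℝ)| ≤
        M * |q * αE (M / p) - ((a * L : ℤ) : ℝ)| := mul_le_mul_of_nonneg_right h6 (abs_nonneg _)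
    have h8 : ((C' : ℕ) : ℝ) ≤ (ω (M / p) : ℕ) := by exact_mod_cast (by omega : C' ≤ ω (M / p))
    push_cast at h4 h7 ⊢
    linarith

/-- the averages up to `M / p` and up to `M / p'` -/
lemma low_p {ψ : ℕ → ℝ} (hψ : ∀ n, |ψ n| ≤ 1) {δ : ℝ} (hδ : 0 < δ) (hδ1 : δ ≤ 1) {V : ℕ} (hV : 8 / δ ≤ V)
    {p q M : ℕ} (hp : 1 ≤ p) (hpq : p ≤ q) (hV2 : V * (q - p) ≤ p) (hM : 4 * (2 + δ) / δ ≤ ((M / q : ℕ) : ℝ))
    (h : δ < |Av (M / q) ψ|) : δ / 2 ≤ |Av (M / p) ψ| := by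
  have hq0 : (0 : ℝ) < q := by exact_mod_cast (by omega : 0 < q)
  have hp0 : (0 : ℝ) < p := by exact_mod_cast hp
  set N := M / p with hN
  set N' := M / q with hN'
  have hV0 : (0 : ℝ) < V := lt_of_lt_of_le (by positivity) hV
  have hN'0 : (0 : ℝ) < N' := lt_of_lt_of_le (by positivity) hM
  have hle : N' ≤ N := Nat.div_le_div_left hpq hp
  have hler : (N' : ℝ) ≤ N := by exact_mod_cast hle
  have hN0 : (0 : ℝ) < N := lt_of_lt_of_le hN'0 hler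
  -- the difference
  have h1 : (N : ℝ) ≤ M / p := Nat.cast_div_le
  have h2 : (M : ℝ) / q ≤ N' + 1 := by
    rw [div_le_iff₀ hq0]
    have h3 : M < q * (N' + 1) := Nat.lt_mul_div_succ M (by omega)
    have h4 : (M : ℝ) < q * ((N' : ℝ) + 1) := by exact_mod_cast h3
    linarith
  have h3 : (M : ℝ) / p ≤ (1 + 1 / V) * (M / q) := by
    rw [div_le_iff₀ hp0]
    have h4 : (V : ℝ) * (q - p) ≤ p := by
      have h5 : ((V * (q - p) : ℕ) : ℝ) ≤ (p : ℕ) := by exact_mod_cast hV2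
      rw [Nat.cast_mul, Nat.cast_sub hpq] at h5
      exact h5
    have h6 : (q : ℝ) ≤ (1 + 1 / V) * p := by
      have h7 : (q : ℝ) - p ≤ p / V := by
        rw [le_div_iff₀ hV0]
        linarith
      have h8 : (1 + 1 / (V : ℝ)) * p = p + p / V := by ring
      rw [h8]
      linarith
    have h7 : (1 + 1 / (V : ℝ)) * (M / q) * p = M * (((1 + 1 / V) * p) / q) := by
      ring
    rw [h7]
    have h8 : 1 ≤ ((1 + 1 / (V : ℝ)) * p) / q := by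
      rw [le_div_iff₀ hq0]
      linarith
    have hM0 : (0 : ℝ) ≤ M := Nat.cast_nonneg M
    nlinarith
  have h4 : (N : ℝ) ≤ (1 + 1 / V) * (N' + 1) :=
    h1.trans (h3.trans (mul_le_mul_of_nonneg_left h2 (by positivity)))
  have hV1 : 1 / (V : ℝ) ≤ δ / 8 := by
    rw [div_le_iff₀ hδ] at hV
    rw [div_le_iff₀ hV0]
    linarith
  -- the sums
  have h5 : ∑ n ∈ range N, ψ n = ∑ n ∈ range N', ψ n + ∑ n ∈ Ico N' N, ψ n := (sum_range_add_sum_Ico _ hle).symm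
  have h6 : |∑ n ∈ Ico N' N, ψ n| ≤ (N : ℝ) - N' := by
    refine (abs_sum_le_sum_abs _ _).trans ((sum_le_sum fun n _ => hψ n).trans (le_of_eq ?_))
    rw [sum_const, Nat.card_Ico, nsmul_eq_mul, mul_one, Nat.cast_sub hle]
  have h7 : δ * N' < |∑ n ∈ range N', ψ n| := by
    unfold Av at h
    rw [abs_div, Nat.abs_cast, lt_div_iff₀ hN'0] at h
    exact h
  have h8 : |∑ n ∈ range N', ψ n| ≤ |∑ n ∈ range N, ψ n| + |∑ n ∈ Ico N' N, ψ n| := by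
    have h9 : ∑ n ∈ range N', ψ n = ∑ n ∈ range N, ψ n - ∑ n ∈ Ico N' N, ψ n := by rw [h5]; ring
    rw [h9]
    exact abs_sub _ _
  unfold Av
  rw [abs_div, Nat.abs_cast, le_div_iff₀ hN0]
  have h9 : (1 + 1 / (V : ℝ)) * (N' + 1) ≤ (1 + δ / 8) * (N' + 1) :=
    mul_le_mul_of_nonneg_right (by linarith) (by linarith)
  have h10 : 4 * (2 + δ) ≤ δ * N' := by
    rw [div_le_iff₀ hδ] at hM
    linarith
  have h11 : (N : ℝ) ≤ N' + δ / 8 * N' + (1 + δ / 8) := by nlinarith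
  have h12 : δ / 2 * N ≤ δ / 2 * (N' + δ / 8 * N' + (1 + δ / 8)) := mul_le_mul_of_nonneg_left h11 (by linarith)
  have h13 : δ / 2 * (δ / 8 * N') ≤ 1 / 2 * (δ / 8 * N') :=
    mul_le_mul_of_nonneg_right (by linarith) (by positivity)
  have h14 : δ / 2 * (1 + δ / 8) ≤ 1 := by nlinarith
  nlinarith

section cell

variable {k : ℕ} (f : Fin k → ℕ → ℤ) (a b : Fin k → ℕ) (θ : ℝ)

/-- one cell of primes at a good block -/
lemma cell_sum (hf : ∀ i, Flip (f i)) (ha : ∀ i, 1 ≤ a i) {A : ℕ} (hA : ∀ i, a i ≤ A)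
    (c : ℕ) (hc2 : 2 ≤ c) (hc : ∀ i, 2 * (1 + b i) ≤ c) {ε δ : ℝ} (hε : 0 < ε) (hδ : 0 < δ) (hδ1 : δ ≤ 1)
    {V : ℕ} (hV : 8 / δ ≤ V) (U : Ultrafilter ℕ) (hU : (U : Filter ℕ) ≤ atTop) (nx : ℕ → ℕ)
    (hnx : ∀ η : ℝ, 0 < η → ∀ᶠ M : ℕ in (U : Filter ℕ), ∀ n : ℕ, η * M ≤ n → n < M → nx n = M)
    (αE : ℕ → ℝ) (h01 : ∀ N, 0 ≤ αE N ∧ αE N ≤ 1) (ω : ℕ → ℕ) (hω : Tendsto ω atTop atTop) (E : Set ℕ)
    (hE1 : ∀ N ∈ E, Minor (ω N) N (αE N)) (hE2 : ∀ N ∈ E, δ < |Av N (psi f a b (αE N) θ)|)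
    (P₀ : ℕ) (hP₀ : ∀ p : ℕ, p.Prime → P₀ ≤ p → ∀ j, ∃ s : ℤ, |s| = 1 ∧ ∀ n, ¬ p ∣ n → f j (p * n) = s * f j n)
    (i : ℕ) (hi1 : 1 ≤ i) (hiA : A ≤ i) (hiP : P₀ ≤ i)
    (h2 : (i : ℝ) / 2 ^ i < (ε / 30) * ε / 3)
    (h3 : 3 * (2 * k + 2 * Real.pi * (2 ^ (i / 2) : ℕ)) / 2 ^ i ≤ ε)
    (Q : Finset ℕ) (hQ : Q ⊆ QD i (i + 1)) (q : ℕ) (hq : q ∈ Q) (hmax : ∀ p ∈ Q, p ≤ q)
    (hcell : ∀ p ∈ Q, V * (q - p) ≤ 2 ^ i) (hqE : ∀ᶠ M : ℕ in (U : Filter ℕ), M / q ∈ E)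
    (hD : Df (um U hU) (la (sl f a A) (XX αE nx (2 ^ (i / 2)) q) (pq i (i + 1)))
      (bx (XX αE nx (2 ^ (i / 2)) q)) (some ()) c i ≤ ((ε / 30) * ε / 3) * 2 ^ i / i) :
    ∑ p ∈ Q, Real.log p / 2 ^ i ≤ 4 * ε / δ := by
  classical
  have hb : ∀ i n, |f i n| ≤ 1 := fun i n => (hf i).bd n
  set L := 2 ^ (i / 2) with hL
  have hL1 : 1 ≤ L := Nat.one_le_two_pow
  have hqD := hQ hq
  have hqp := QDp hqD
  have hm : Mov U L (XX αE nx L q) (BB αE L q) :=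
    mov_of U hU nx hnx αE h01 ω hω hqp.pos hL1 (by
      filter_upwards [hqE] with M hM
      exact hE1 _ hM)
  have h2i : (0 : ℝ) < 2 ^ i := by positivity
  have hlow : ∀ p ∈ QD i (i + 1), 2 ^ i < p := by
    intro p hp
    unfold QD at hp
    rw [mem_filter, mem_Ioc] at hp
    exact hp.1.1
  have hcop : ∀ p ∈ QD i (i + 1), Nat.Coprime L p := by
    intro p hp
    have hpp := QDp hp
    have h4 := hlow p hp
    have h5 : 2 ^ 1 ≤ 2 ^ i := Nat.pow_le_pow_right (by norm_num) hi1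
    apply Nat.Coprime.pow_left
    rw [Nat.coprime_primes Nat.prime_two hpp]
    omega
  have hdec := one_scale_x f a b (XX αE nx L q) L θ (um U hU) hb ha hA c hc2 hc hε i hi1 hcop h2 hD
  have hw0 : ∀ p ∈ QD i (i + 1), 0 ≤ Real.log (p : ℝ) / 2 ^ i := fun p _ =>
    div_nonneg (Real.log_natCast_nonneg _) (by positivity)
  -- the lower bound for each prime
  have hper : ∀ p ∈ Q, δ / 2 ≤ |(um U hU).m (fun n => GX f a b (XX αE nx L q) L θ p (n + (p - n % p) % p))| +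
      (2 * k + 2 * Real.pi * L) / 2 ^ i := by
    intro p hp
    have hpD := hQ hp
    have hpp := QDp hpD
    have hp2 := hlow p hpD
    have hp2r : (2 : ℝ) ^ i ≤ p := by exact_mod_cast hp2.le
    have hi2 : i < 2 ^ i := Nat.lt_two_pow_self
    choose sc hsc1 hsc2 using hP₀ p hpp (by omega)
    have hx : ∀ j, ∃ y : ℕ, ∀ m : ℕ, p ∣ a j * m + b j → p ∣ m + y := fun j =>
      exists_x hpp (ha j) (by
        have := hA j
        omega)
    apply le_of_forall_pos_le_add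
    intro ε₁ hε₁
    have h4 := cmp_lim f a b (XX αE nx L q) L θ hb hpp.pos sc hsc1 hsc2 hx U hU hm hε₁
    have h5 : ∀ᶠ M : ℕ in (U : Filter ℕ), 4 * (2 + δ) / δ ≤ ((M / q : ℕ) : ℝ) := by
      obtain ⟨R, hR⟩ := exists_nat_ge (4 * (2 + δ) / δ)
      filter_upwards [(div_atTop U hU q hqp.pos).eventually_ge_atTop R] with M hM
      exact hR.trans (by exact_mod_cast hM)
    obtain ⟨M, h6, h7, h8⟩ := (h4.and (h5.and hqE)).exists
    have h9 : (L : ℝ) * BB αE L q M = αE (M / q) := by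
      unfold BB
      have : (L : ℝ) ≠ 0 := by
        have : (0 : ℝ) < L := by exact_mod_cast hL1
        exact this.ne'
      field_simp
    rw [h9] at h6
    have h10 := low_p (psi_le a b (αE (M / q)) θ hb) hδ hδ1 hV hpp.pos (hmax p hp)
      ((hcell p hp).trans hp2.le) h7 (hE2 _ h8)
    have h11 : (2 * (k : ℝ) + 2 * Real.pi * L) / p ≤ (2 * k + 2 * Real.pi * L) / 2 ^ i :=
      div_le_div_of_nonneg_left (by positivity) h2i hp2r
    linarith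
  have hsum : ∑ p ∈ Q, Real.log p / 2 ^ i * (δ / 2) ≤
      ∑ p ∈ Q, Real.log p / 2 ^ i * |(um U hU).m (fun n => GX f a b (XX αE nx L q) L θ p (n + (p - n % p) % p))| +
      (∑ p ∈ Q, Real.log (p : ℝ) / 2 ^ i) * ((2 * k + 2 * Real.pi * L) / 2 ^ i) := by
    rw [sum_mul, ← sum_add_distrib]
    apply sum_le_sum
    intro p hp
    rw [← mul_add]
    exact mul_le_mul_of_nonneg_left (hper p hp) (hw0 p (hQ hp))
  have h4 : ∑ p ∈ Q, Real.log p / 2 ^ i *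
      |(um U hU).m (fun n => GX f a b (XX αE nx L q) L θ p (n + (p - n % p) % p))| ≤ ε := by
    refine le_trans (sum_le_sum_of_subset_of_nonneg hQ fun p hp _ => ?_) hdec
    exact mul_nonneg (hw0 p hp) (abs_nonneg _)
  have h5 : ∑ p ∈ Q, Real.log (p : ℝ) / 2 ^ i ≤ 3 := by
    refine (sum_le_sum_of_subset_of_nonneg hQ fun p hp _ => hw0 p hp).trans ?_
    rw [← sum_div, div_le_iff₀ h2i]
    exact Pool.Agent.TH575.CW.theta_QD i
  have h6 : (∑ p ∈ Q, Real.log (p : ℝ) / 2 ^ i) * ((2 * k + 2 * Real.pi * L) / 2 ^ i) ≤ ε := by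
    refine le_trans (mul_le_mul_of_nonneg_right h5 (by positivity)) ?_
    rw [← mul_div_assoc]
    exact h3
  rw [← sum_mul] at hsum
  rw [le_div_iff₀ hδ]
  linarith

end cell

end Pool.Agent.P8H6.Uni
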