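import Pool.Agent.P8H6.Uni.Ons

/-!
# Comparison of the averages at the scales `M / p` with the mean of the dilated product
-/

set_option autoImplicit false

namespace Pool.Agent.P8H6.Uni

open Finset Filter Topology
open Pool.Agent.TH112.BL (Bd QD win)
open Pool.Agent.Y958.TC
open Pool.Agent.P8H6.Irr (Flip ph ph_le ph_int ph_lip psi psi_le FF FF_le mul_le' prod_le)

section cmp

variable {k : ℕ} (f : Fin k → ℕ → ℤ) (a b : Fin k → ℕ) (x : ℕ → ℝ) (L : ℕ) (θ : ℝ)

lemma cmpM (hb : ∀ i n, |f i n| ≤ 1) {p : ℕ} (hp1 : 1 ≤ p) (sc : Fin k → ℤ) (hsc : ∀ j, |sc j| = 1)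
    (hsgn : ∀ j n, ¬ p ∣ n → f j (p * n) = sc j * f j n)
    (hx : ∀ j, ∃ y : ℕ, ∀ m : ℕ, p ∣ a j * m + b j → p ∣ m + y) {M : ℕ} (hpM : p ≤ M) {η β : ℝ} (hη : 0 ≤ η)
    (hβ : 0 ≤ β) (hlin : ∀ n : ℕ, η * M ≤ n → n < M → x n = β * n) :
    |Av (M / p) (psi f a b (L * β) θ)| ≤ |Av M (fun n => GX f a b x L θ p (n + (p - n % p) % p))| +
      4 * p / M + 2 * k * (1 / p + 1 / ((M / p : ℕ) : ℝ)) + 2 * Real.pi * L / p +
      2 * (η * M / p + 1) / ((M / p : ℕ) : ℝ) := by
  classical
  have hpr : (0 : ℝ) < p := by exact_mod_cast hp1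
  set K := M / p with hK
  have hK1 : 1 ≤ K := (Nat.one_le_div_iff hp1).2 hpM
  have hK0 : (0 : ℝ) < K := by exact_mod_cast hK1
  have hM0 : (0 : ℝ) < M := by exact_mod_cast (by omega : 0 < M)
  set s : ℝ := ∏ j, (sc j : ℝ) with hs
  have hs1 : |s| = 1 := by
    rw [hs, abs_prod]
    apply prod_eq_one
    intro j _
    exact_mod_cast hsc j
  set ψ' : ℕ → ℝ := fun n => (∏ i, (f i (a i * n + b i) : ℝ)) * ph θ (((L * ⌊x (p * n)⌋₊ : ℕ) : ℝ) / p) with hψ'
  have hprodle : ∀ n, |∏ i, (f i (a i * n + b i) : ℝ)| ≤ 1 := fun n => by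
    apply prod_le
    intro i
    exact_mod_cast hb i _
  have hψ'1 : ∀ n, |ψ' n| ≤ 1 := fun n => mul_le' (hprodle n) (ph_le _ _)
  choose y hy using hx
  have h1 := ceil_av p M hp1 hpM (GX f a b x L θ p) (GX_le f a b x L θ hb p)
  have h2 := av_cmp (univ : Finset (Fin k)) y p K hp1 hK1 s (GX f a b x L θ p) ψ' (GX_le f a b x L θ hb p)
    (fun n => mul_le' hs1.le (hψ'1 n)) (by
      intro m hm
      unfold GX FF
      rw [hψ']
      simp only
      rw [← mul_assoc, hs, ← prod_mul_distrib]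
      congr 1
      refine prod_congr rfl fun j _ => ?_
      have h7 : ¬ p ∣ a j * m + b j := fun h => hm j (mem_univ j) (hy j m h)
      rw [show a j * (p * m) + p * b j = p * (a j * m + b j) by ring, hsgn j _ h7]
      push_cast
      ring)
  rw [card_univ, Fintype.card_fin] at h2
  -- the phases
  have h3 : |Av K ψ' - Av K (psi f a b (L * β) θ)| ≤ 2 * Real.pi * L / p + 2 * (η * M / p + 1) / K := by
    unfold Av
    rw [← sub_div, ← sum_sub_distrib, abs_div, abs_of_pos hK0, div_le_iff₀ hK0]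
    have h4 : ∀ n ∈ range K, |ψ' n - psi f a b (L * β) θ n| ≤
        2 * Real.pi * L / p + if ((p * n : ℕ) : ℝ) < η * M then 2 else 0 := by
      intro n hn
      rw [mem_range] at hn
      split_ifs with hc
      · have h5 := abs_sub (ψ' n) (psi f a b (L * β) θ n)
        have h6 := psi_le a b (L * β) θ hb n
        have h7 := hψ'1 n
        have h8 : 0 ≤ 2 * Real.pi * L / p := by positivity
        linarith
      · rw [add_zero]
        rw [not_lt] at hc
        have h5 : p * n < M := by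
          have h6 : p * K ≤ M := Nat.mul_div_le M p
          have h7 : p * n < p * K := Nat.mul_lt_mul_of_pos_left hn hp1
          omega
        have h6 := hlin (p * n) hc h5
        unfold psi
        rw [hψ']
        simp only
        rw [← mul_sub, abs_mul]
        have h9 := ph_lip θ (((L * ⌊x (p * n)⌋₊ : ℕ) : ℝ) / p) (L * β * n)
        have h10 : |((L * ⌊x (p * n)⌋₊ : ℕ) : ℝ) / p - L * β * n| ≤ L / p := by
          have h11 : 0 ≤ x (p * n) := by rw [h6]; positivity
          have h12 := Nat.floor_le h11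
          have h13 := Nat.lt_floor_add_one (x (p * n))
          have h14 : (L : ℝ) * β * n = L * x (p * n) / p := by
            rw [h6]
            push_cast
            field_simp
          rw [h14, ← sub_div, abs_div, abs_of_pos hpr]
          apply div_le_div_of_nonneg_right _ hpr.le
          push_cast
          rw [← mul_sub, abs_mul, Nat.abs_cast]
          calc (L : ℝ) * |(⌊x (p * n)⌋₊ : ℝ) - x (p * n)| ≤ L * 1 := by
                apply mul_le_mul_of_nonneg_left _ (Nat.cast_nonneg L)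
                rw [abs_le]
                constructor <;> linarith
            _ = L := mul_one _
        calc |∏ i, (f i (a i * n + b i) : ℝ)| * |ph θ (((L * ⌊x (p * n)⌋₊ : ℕ) : ℝ) / p) - ph θ (L * β * n)| ≤
              1 * (2 * Real.pi * (L / p)) := by
              apply mul_le_mul (hprodle n) _ (abs_nonneg _) zero_le_one
              exact h9.trans (mul_le_mul_of_nonneg_left h10 Real.two_pi_pos.le)
          _ = 2 * Real.pi * L / p := by ring
    refine (abs_sum_le_sum_abs _ _).trans ((sum_le_sum h4).trans ?_)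
    rw [sum_add_distrib, sum_const, card_range, nsmul_eq_mul, ← sum_filter, sum_const, nsmul_eq_mul]
    have h5 : (((range K).filter (fun n => ((p * n : ℕ) : ℝ) < η * M)).card : ℝ) ≤ η * M / p + 1 := by
      have h6 : (range K).filter (fun n => ((p * n : ℕ) : ℝ) < η * M) ⊆ range (⌊η * M / p⌋₊ + 1) := by
        intro n hn
        rw [mem_filter] at hn
        rw [mem_range, Nat.lt_succ_iff, Nat.le_floor_iff (by positivity), le_div_iff₀ hpr]
        have := hn.2
        push_cast at this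
        linarith
      have h7 := card_le_card h6
      rw [card_range] at h7
      have h8 := Nat.floor_le (show 0 ≤ η * M / p by positivity)
      have h9 : (((range K).filter (fun n => ((p * n : ℕ) : ℝ) < η * M)).card : ℝ) ≤
          ((⌊η * M / p⌋₊ + 1 : ℕ) : ℝ) := by exact_mod_cast h7
      push_cast at h9
      push_cast
      linarith
    have h6 : (2 * Real.pi * L / p + 2 * (η * M / p + 1) / K) * K =
        K * (2 * Real.pi * L / p) + (η * M / p + 1) * 2 := by
      field_simp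
    rw [h6]
    linarith
  have h4 : |Av K (psi f a b (L * β) θ)| ≤ |Av K ψ'| + |Av K ψ' - Av K (psi f a b (L * β) θ)| := by
    have := abs_sub_abs_le_abs_sub (Av K (psi f a b (L * β) θ)) (Av K ψ')
    rw [abs_sub_comm] at this
    linarith
  have h5 : |Av K ψ'| = |s * Av K ψ'| := by rw [abs_mul, hs1, one_mul]
  have h6 := abs_sub_abs_le_abs_sub (s * Av K ψ') (Av K (fun k => GX f a b x L θ p (p * k)))
  rw [abs_sub_comm] at h6
  have h7 := abs_sub_abs_le_abs_sub (Av K (fun k => GX f a b x L θ p (p * k)))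
    (Av M (fun n => GX f a b x L θ p (n + (p - n % p) % p)))
  rw [abs_sub_comm] at h7
  linarith

/-- the limit form -/
lemma cmp_lim (hb : ∀ i n, |f i n| ≤ 1) {p : ℕ} (hp1 : 1 ≤ p) (sc : Fin k → ℤ) (hsc : ∀ j, |sc j| = 1)
    (hsgn : ∀ j n, ¬ p ∣ n → f j (p * n) = sc j * f j n)
    (hx : ∀ j, ∃ y : ℕ, ∀ m : ℕ, p ∣ a j * m + b j → p ∣ m + y) (U : Ultrafilter ℕ)
    (hU : (U : Filter ℕ) ≤ atTop) {β : ℕ → ℝ} (hm : Mov U L x β) {ε : ℝ} (hε : 0 < ε) :
    ∀ᶠ M : ℕ in (U : Filter ℕ), |Av (M / p) (psi f a b (L * β M) θ)| ≤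
      |(um U hU).m (fun n => GX f a b x L θ p (n + (p - n % p) % p))| + (2 * k + 2 * Real.pi * L) / p + ε := by
  have hpr : (0 : ℝ) < p := by exact_mod_cast hp1
  have h1 := (um_tendsto U hU (φ := fun n => GX f a b x L θ p (n + (p - n % p) % p))
    ⟨1, fun n => GX_le f a b x L θ hb _ _⟩).abs
  have h2 := h1.eventually_lt_const (show |(um U hU).m (fun n => GX f a b x L θ p (n + (p - n % p) % p))| <
    |(um U hU).m (fun n => GX f a b x L θ p (n + (p - n % p) % p))| + ε / 4 by linarith)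
  have h3 : Tendsto (fun M : ℕ => (4 * p : ℝ) / (M : ℝ)) (U : Filter ℕ) (𝓝 0) :=
    (tendsto_const_div_atTop_nhds_zero_nat (4 * p : ℝ)).mono_left hU
  have h4 := h3.eventually_lt_const (show (0 : ℝ) < ε / 4 by positivity)
  have h5 : Tendsto (fun M : ℕ => (2 * k + 2 : ℝ) / ((M / p : ℕ) : ℝ)) (U : Filter ℕ) (𝓝 0) :=
    (tendsto_const_div_atTop_nhds_zero_nat (2 * k + 2 : ℝ)).comp (div_atTop U hU p hp1)
  have h6 := h5.eventually_lt_const (show (0 : ℝ) < ε / 4 by positivity)
  filter_upwards [h2, h4, h6, hU (eventually_ge_atTop p), hm.pos, hm.lin (ε / 16) (by positivity)] with M k2 k4 k6 k7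
    k8 k9
  have h7 := cmpM f a b x L θ hb hp1 sc hsc hsgn hx k7 (by positivity : (0 : ℝ) ≤ ε / 16) k8 k9
  have hK1 : 1 ≤ M / p := (Nat.one_le_div_iff hp1).2 k7
  have hK0 : (0 : ℝ) < ((M / p : ℕ) : ℝ) := by exact_mod_cast hK1
  have h8 : 2 * (ε / 16 * M / p + 1) / ((M / p : ℕ) : ℝ) ≤ ε / 4 + 2 / ((M / p : ℕ) : ℝ) := by
    rw [mul_add, add_div, mul_one]
    apply add_le_add_left
    rw [div_le_iff₀ hK0]
    have h9 : (M : ℝ) / p ≤ 2 * ((M / p : ℕ) : ℝ) := by
      rw [div_le_iff₀ hpr]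
      have h10 : M < p * (M / p + 1) := Nat.lt_mul_div_succ M hp1
      have h11 : (M : ℝ) < p * (((M / p : ℕ) : ℝ) + 1) := by exact_mod_cast h10
      have h12 : (1 : ℝ) ≤ ((M / p : ℕ) : ℝ) := by exact_mod_cast hK1
      nlinarith
    have h10 : 2 * (ε / 16 * M / p) = ε / 8 * (M / p) := by ring
    rw [h10]
    nlinarith
  have h9 : (2 * (k : ℝ) + 2) / ((M / p : ℕ) : ℝ) = 2 * k * (1 / ((M / p : ℕ) : ℝ)) + 2 / ((M / p : ℕ) : ℝ) := by
    ring
  have h10 : (2 * (k : ℝ) + 2 * Real.pi * L) / p = 2 * k * (1 / p) + 2 * Real.pi * L / p := by ring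
  rw [h9] at k6
  rw [h10]
  rw [mul_add (2 * (k : ℝ))] at h7
  linarith

end cmp

end Pool.Agent.P8H6.Uni
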