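import Pool.Agent.P8H6.Uni.Defs

/-!
# The entropy decrement with a moving cocycle
-/

set_option autoImplicit false

namespace Pool.Agent.P8H6.Uni

open Finset Filter Topology
open Pool.Agent.TH112.BL (Bd QD win)
open Pool.Agent.Y958.TC

section dec

variable (μ : NM) {A κ : Type} (a : ℕ → A) (b : κ → ℕ → ℕ)

/-- the cocycles along a window, modulo `Mo` -/
lemma cocm {Mo : ℕ} {dd : κ → A → ℕ} (hb : ∀ k n, b k (n + 1) % Mo = (b k n + dd k (a n)) % Mo) (k : κ) (n W : ℕ) :
    b k (n + W) % Mo = (b k n + ∑ j ∈ range W, dd k (a (n + j))) % Mo := by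
  induction W with
  | zero => simp
  | succ W ih =>
    rw [sum_range_succ, ← add_assoc, ← add_assoc, hb]
    exact Nat.ModEq.add_right _ ih

lemma cocm_eq {Mo : ℕ} {dd : κ → A → ℕ} (hb : ∀ k n, b k (n + 1) % Mo = (b k n + dd k (a n)) % Mo)
    (W n m : ℕ) (h : win W a n = win W a m) :
    Rr b Mo (n + W) = Rr b Mo (m + W) ↔ Rr b Mo n = Rr b Mo m := by
  have h1 : ∀ k, ∑ j ∈ range W, dd k (a (n + j)) = ∑ j ∈ range W, dd k (a (m + j)) := by
    intro k
    refine sum_congr rfl fun j hj => ?_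
    have := congrFun h ⟨j, mem_range.1 hj⟩
    unfold win at this
    simp only at this
    rw [this]
  rw [Rr_eq, Rr_eq]
  refine forall_congr' fun k => ?_
  rw [cocm a b hb, cocm a b hb, h1 k]
  constructor
  · intro h2
    exact Nat.ModEq.add_right_cancel' _ h2
  · intro h2
    exact Nat.ModEq.add_right _ h2

variable [Finite A] [Finite κ]

lemma dbl {Mo : ℕ} (hM : 0 < Mo) {dd : κ → A → ℕ} (hb : ∀ k n, b k (n + 1) % Mo = (b k n + dd k (a n)) % Mo)
    (W : ℕ) : E μ (fun n => (win (W + W) a n, Rr b Mo n)) + E μ (Rr b Mo) ≤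
      2 * E μ (fun n => (win W a n, Rr b Mo n)) := by
  have fW : FR (win W a) := FR_win _ _
  have fR : FR (Rr b Mo) := FR_R b Mo hM
  have fW' : FR (fun n => win W a (n + W)) := fW.sh W
  have fR' : FR (fun n => Rr b Mo (n + W)) := fR.sh W
  -- the long window
  have h1 : E μ (fun n => (win (W + W) a n, Rr b Mo n)) ≤
      E μ (fun n => (win W a (n + W), (Rr b Mo (n + W), win W a n))) := by
    apply E_mono μ _ _ (fW'.pair (fR'.pair fW))
    intro n m h
    simp only [Prod.mk.injEq] at h ⊢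
    refine ⟨?_, (cocm_eq a b hb W m n h.2.2).1 h.2.1⟩
    funext k
    unfold win
    by_cases hk : (k : ℕ) < W
    · have := congrFun h.2.2 ⟨k, hk⟩
      exact this
    · have h5 : (k : ℕ) - W < W := by
        have := k.2
        omega
      have := congrFun h.1 ⟨k - W, h5⟩
      unfold win at this
      simp only at this
      have e1 : m + W + ((k : ℕ) - W) = m + k := by omega
      have e2 : n + W + ((k : ℕ) - W) = n + k := by omega
      rw [e1, e2] at this
      exact this
  have h2 := E_sub μ (fun n => win W a (n + W)) (fun n => Rr b Mo (n + W)) (fun n => win W a n)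
    fW' fR' fW
  have h3 : E μ (fun n => (Rr b Mo (n + W), win W a n)) = E μ (fun n => (win W a n, Rr b Mo n)) := by
    apply E_congr μ _ _ (fW.pair fR)
    intro n m
    simp only [Prod.mk.injEq]
    constructor
    · rintro ⟨x, y⟩
      exact ⟨(cocm_eq a b hb W m n x).2 y, x⟩
    · rintro ⟨x, y⟩
      exact ⟨y, (cocm_eq a b hb W m n y).1 x⟩
  have h4 : E μ (fun n => (win W a (n + W), Rr b Mo (n + W))) =
      E μ (fun n => (win W a n, Rr b Mo n)) := E_shift μ (fun n => (win W a n, Rr b Mo n)) W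
  have h5 : E μ (fun n => Rr b Mo (n + W)) = E μ (Rr b Mo) := E_shift μ (Rr b Mo) W
  linarith

lemma dbl_pow {Mo : ℕ} (hM : 0 < Mo) {dd : κ → A → ℕ}
    (hb : ∀ k n, b k (n + 1) % Mo = (b k n + dd k (a n)) % Mo) (W t : ℕ) :
    E μ (fun n => (win (2 ^ t * W) a n, Rr b Mo n)) - E μ (Rr b Mo) ≤
      2 ^ t * (E μ (fun n => (win W a n, Rr b Mo n)) - E μ (Rr b Mo)) := by
  induction t with
  | zero =>
    have e : 2 ^ 0 * W = W := by ring
    rw [e, pow_zero, one_mul]
  | succ t ih =>
    have h := dbl μ a b hM hb (2 ^ t * W)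
    have e : 2 ^ t * W + 2 ^ t * W = 2 ^ (t + 1) * W := by rw [pow_succ]; ring
    rw [e] at h
    have e2 : (2 : ℝ) ^ (t + 1) = 2 * 2 ^ t := by rw [pow_succ]; ring
    rw [e2]
    linarith

end dec

/-- the entropy of a constant -/
lemma E_unit (μ : NM) : E μ (fun _ : ℕ => ()) = 0 := by
  unfold E
  rw [finsum_unique]
  have h : ind (fun n : ℕ => (fun _ : ℕ => ()) n = default) = fun _ => 1 := by
    funext n
    unfold ind
    simp
  rw [h, μ.one]
  simp

/-- plain subadditivity -/
lemma sub_pow (μ : NM) {A : Type} [Finite A] (a : ℕ → A) (W t : ℕ) :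
    E μ (win (2 ^ t * W) a) ≤ 2 ^ t * E μ (win W a) := by
  set b : Empty → ℕ → ℕ := fun k => Empty.elim k with hb
  have h := dbl_pow μ a b (dd := fun k _ => Empty.elim k) one_pos (fun k => Empty.elim k) W t
  have fR : FR (Rr b 1) := FR_R b 1 one_pos
  have h1 : E μ (Rr b 1) = 0 := by
    rw [← E_unit μ]
    apply E_congr μ _ _ (Set.toFinite _)
    intro n m
    constructor
    · intro _
      funext k
      exact Empty.elim k
    · intro _
      rfl
  have h2 : ∀ V : ℕ, E μ (fun n => (win V a n, Rr b 1 n)) = E μ (win V a) := by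
    intro V
    apply E_congr μ _ _ (FR_win V a)
    intro n m
    simp only [Prod.mk.injEq]
    constructor
    · intro h3
      refine ⟨h3, ?_⟩
      funext k
      exact Empty.elim k
    · intro h3
      exact h3.1
  rw [h1, h2, h2, sub_zero, sub_zero] at h
  exact h

section step

variable (μ : NM) {A : Type} [Finite A] (f : ℕ → A) (x : ℕ → ℝ)

/-- the letters -/
noncomputable def la (P : ℕ) [NeZero P] (n : ℕ) : A × Fin P := (f n, Fin.ofNat P (dx P x n))

/-- the increments -/
def dl (P : ℕ) : Option Unit → A × Fin P → ℕ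
  | none => fun _ => 1
  | some _ => fun l => (l.2 : ℕ)

omit [Finite A] in
lemma dx_lt {P : ℕ} (hP : 0 < P) (n : ℕ) : dx P x n < P := Nat.mod_lt _ hP

omit [Finite A] in
lemma la_snd (P : ℕ) [NeZero P] (n : ℕ) : ((la f x P n).2 : ℕ) = dx P x n := by
  unfold la
  simp only [Fin.ofNat_eq_cast, Fin.val_natCast]
  exact Nat.mod_eq_of_lt (dx_lt x (Nat.pos_of_ne_zero (NeZero.ne P)) n)

omit [Finite A] in
lemma bx_succ (P : ℕ) [NeZero P] (j : Option Unit) (n : ℕ) :
    bx x j (n + 1) % P = (bx x j n + dl P j (la f x P n)) % P := by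
  cases j with
  | none => rfl
  | some _ =>
    show ⌊x (n + 1)⌋₊ % P = (⌊x n⌋₊ + ((la f x P n).2 : ℕ)) % P
    rw [la_snd]
    unfold dx
    rw [Nat.add_mod_mod]
    obtain ⟨Q, hQ⟩ : ∃ Q, P = Q + 1 := ⟨P - 1, by
      have := NeZero.pos P
      omega⟩
    have e : ⌊x n⌋₊ + (⌊x (n + 1)⌋₊ + (P - 1) * ⌊x n⌋₊) = ⌊x (n + 1)⌋₊ + P * ⌊x n⌋₊ := by
      rw [hQ, Nat.add_sub_cancel]
      ring
    rw [e, Nat.add_mul_mod_self_left]

lemma ER_ge (hE : EQ μ (bx x) (some ())) (P : ℕ) (hP : 1 ≤ P) : 2 * Real.log P ≤ E μ (Rr (bx x) P) := by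
  rw [full μ (bx x) (some ()) hE P hP]
  have h1 := E_equi μ (fun _ : ℕ => ()) (Set.toFinite _) (fun n => n % P) (FR_mod (fun n => n) P hP) P hP (by
    intro n
    have e1 : ind (fun m : ℕ => ((fun _ : ℕ => ()) m, m % P) = ((fun _ : ℕ => ()) n, n % P)) =
        ind (fun m : ℕ => m % P = n % P) := by
      apply ind_congr
      intro m
      simp
    have e2 : ind (fun m : ℕ => (fun _ : ℕ => ()) m = (fun _ : ℕ => ()) n) = fun _ => 1 := by
      funext m
      unfold ind
      simp
    rw [e1, e2, μ.one, m_class μ P (n % P) (Nat.mod_lt _ hP), mul_one])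
  rw [E_unit, zero_add] at h1
  have h2 : E μ (Vv (bx x) (some ()) P) = E μ (fun n : ℕ => ((), n % P)) := by
    symm
    apply E_congr μ _ _ (FR_V (bx x) (some ()) P hP)
    intro n m
    simp only [Prod.mk.injEq, true_and, Vv_eq]
    constructor
    · intro h
      exact h none (by simp)
    · intro h k hk
      cases k with
      | none => exact h
      | some k => exact absurd rfl hk
  rw [h2, h1]
  linarith

/-- **the decrement** -/
theorem step (hE : EQ μ (bx x) (some ())) (c i t : ℕ) [NeZero (pq i (i + 1))] :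
    E μ (win (2 ^ t * (c * 2 ^ i)) f) ≤ 2 * Real.log (pq i (i + 1)) +
      2 ^ t * (E μ (win (c * 2 ^ i) (la f x (pq i (i + 1)))) -
        Df μ (la f x (pq i (i + 1))) (bx x) (some ()) c i) := by
  have hPp := pq_pos i (i + 1)
  set P := pq i (i + 1) with hP
  set W := c * 2 ^ i with hW
  set l := la f x P with hl
  set b := bx x with hb
  have fR : FR (Rr b P) := FR_R b P hPp
  have fV : FR (Vv b (some ()) P) := FR_V b (some ()) P hPp
  have fU : FR (fun n => b (some ()) n % P) := FR_mod _ _ hPp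
  have fl : ∀ V, FR (win V l) := fun V => FR_win V l
  have h1 : E μ (win (2 ^ t * W) f) ≤ E μ (fun n => (win (2 ^ t * W) l n, Rr b P n)) := by
    apply E_mono μ _ _ ((fl _).pair fR)
    intro n m h
    simp only [Prod.mk.injEq] at h
    funext k
    have := congrFun h.1 k
    unfold win at this ⊢
    exact congrArg Prod.fst this
  have h2 := dbl_pow μ l b hPp (dd := dl P) (bx_succ f x P) W t
  have h3 : E μ (fun n => (win W l n, Rr b P n)) =
      E μ (fun n => (b (some ()) n % P, (win W l n, Vv b (some ()) P n))) := by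
    apply E_congr μ _ _ (fU.pair ((fl W).pair fV))
    intro n m
    simp only [Prod.mk.injEq, Rr_eq, Vv_eq]
    constructor
    · rintro ⟨h4, h5, h6⟩
      refine ⟨h5, fun k => ?_⟩
      by_cases hk : k = some ()
      · rw [hk]; exact h4
      · exact h6 k hk
    · rintro ⟨h4, h5⟩
      exact ⟨h5 _, h4, fun k _ => h5 k⟩
  have h4 : E μ (fun n => (win W l n, Vv b (some ()) P n)) ≤ E μ (win W l) + Real.log P := by
    have h5 := E_card μ (fun n : ℕ => n % P) (win W l) (FR_mod (fun n => n) P hPp) (fl W) P hPp (range P)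
      (by rw [card_range]) (fun n => mem_range.2 (Nat.mod_lt _ hPp))
    refine le_trans (le_of_eq ?_) h5
    apply E_congr μ _ _ ((FR_mod (fun n => n) P hPp).pair (fl W))
    intro n m
    simp only [Prod.mk.injEq, Vv_eq]
    constructor
    · rintro ⟨h6, h7⟩
      refine ⟨h7, fun k hk => ?_⟩
      cases k with
      | none => exact h6
      | some k => exact absurd rfl hk
    · rintro ⟨h6, h7⟩
      exact ⟨h7 none (by simp), h6⟩
  have h5 := ER_ge μ x hE P hPp
  have h6 : Df μ l b (some ()) c i = Real.log P -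
      (E μ (fun n => (b (some ()) n % P, (win W l n, Vv b (some ()) P n))) -
        E μ (fun n => (win W l n, Vv b (some ()) P n))) := rfl
  rw [h6]
  rw [h3] at h2
  have h7 : (1 : ℝ) ≤ 2 ^ t := one_le_pow₀ (by norm_num)
  set ER := E μ (Rr b P) with hER
  set X := E μ (fun n => (b (some ()) n % P, (win W l n, Vv b (some ()) P n))) with hX
  set Y := E μ (fun n => (win W l n, Vv b (some ()) P n)) with hY
  set Z := E μ (win W l) with hZ
  have h8 : (2 : ℝ) ^ t * (X - ER) ≤ 2 ^ t * (X - ER + (Z + Real.log P - Y)) :=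
    mul_le_mul_of_nonneg_left (by linarith) (by linarith)
  have h9 : ((2 : ℝ) ^ t - 1) * (2 * Real.log P) ≤ (2 ^ t - 1) * ER :=
    mul_le_mul_of_nonneg_left h5 (by linarith)
  nlinarith

omit [Finite A] in
lemma FR_dx {P : ℕ} (hP : 0 < P) (W : ℕ) : FR (win W (dx P x)) := by
  refine (Set.Finite.pi' (fun _ : Fin W => Set.finite_Iio P)).subset ?_
  rintro _ ⟨n, rfl⟩
  intro k
  exact dx_lt x hP _

/-- the decrement for a moving sequence -/
theorem step_mov (hEQ : S_EQ) (hDIG : S_DIG) (U : Ultrafilter ℕ) (hU : (U : Filter ℕ) ≤ atTop) {L : ℕ} (hL : 1 ≤ L)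
    {β : ℕ → ℝ} (hm : Mov U L x β) (c i t : ℕ) [NeZero (pq i (i + 1))] (hP2 : 2 ≤ pq i (i + 1)) :
    E (um U hU) (win (2 ^ t * (c * 2 ^ i)) f) ≤ 2 * Real.log (pq i (i + 1)) +
      2 ^ t * (E (um U hU) (win (c * 2 ^ i) f) +
        (((c * 2 ^ i : ℕ) : ℝ) / L + 1) * Real.log (((c * 2 ^ i : ℕ) : ℝ) + 1) -
        Df (um U hU) (la f x (pq i (i + 1))) (bx x) (some ()) c i) := by
  have h1 := step (um U hU) f x (hEQ U hU L x β hm) c i t
  have h2 := hDIG U hU L x β hL hm (pq i (i + 1)) hP2 _ (win (c * 2 ^ i) f) (FR_win _ _) (c * 2 ^ i)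
  have h3 : E (um U hU) (win (c * 2 ^ i) (la f x (pq i (i + 1)))) ≤
      E (um U hU) (fun n => (win (c * 2 ^ i) (dx (pq i (i + 1)) x) n, win (c * 2 ^ i) f n)) := by
    apply E_mono _ _ _ ((FR_dx x (pq_pos _ _) _).pair (FR_win _ _))
    intro n m h
    simp only [Prod.mk.injEq] at h
    funext k
    have h4 := congrFun h.1 k
    have h5 := congrFun h.2 k
    unfold win at h4 h5 ⊢
    unfold la
    rw [h4, h5]
  have h4 : (0 : ℝ) < 2 ^ t := by positivity
  nlinarith [mul_le_mul_of_nonneg_left (h3.trans h2) h4.le]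

end step

end Pool.Agent.P8H6.Uni
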