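import Pool.Agent.P8H6.Irr.Sup

/-!
# Uniform minor arc bounds: definitions and the statements of the packages (helper6)
-/

set_option autoImplicit false

namespace Pool.Agent.P8H6.Uni

open Finset Filter Topology
open Pool.Agent.TH112.BL (Bd QD win)
open Pool.Agent.Y958.TC
open Pool.Agent.Y958.U (LZ)
open Pool.Agent.P8H6.Irr (Flip ph psi)

/-- a moving sequence: before the scale `M` (in the ultrafilter) it is `β M * n`, up to the part `n < η M`;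
`β M` is not close to a rational with small denominator -/
structure Mov (U : Ultrafilter ℕ) (L : ℕ) (x β : ℕ → ℝ) : Prop where
  nonneg : ∀ n, 0 ≤ x n
  lin : ∀ η : ℝ, 0 < η → ∀ᶠ M : ℕ in (U : Filter ℕ), ∀ n : ℕ, η * M ≤ n → n < M → x n = β M * n
  pos : ∀ᶠ M : ℕ in (U : Filter ℕ), 0 ≤ β M
  small : ∀ᶠ M : ℕ in (U : Filter ℕ), L * β M ≤ 1
  spread : ∀ q : ℕ, 1 ≤ q → ∀ C : ℝ, ∀ᶠ M : ℕ in (U : Filter ℕ), ∀ a : ℤ, C ≤ M * |q * β M - a|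

/-- the two cocycles `n` and `⌊x n⌋` -/
noncomputable def bx (x : ℕ → ℝ) : Option Unit → ℕ → ℕ
  | none => fun n => n
  | some _ => fun n => ⌊x n⌋₊

/-- the digits of `⌊x n⌋` modulo `P` -/
noncomputable def dx (P : ℕ) (x : ℕ → ℝ) (n : ℕ) : ℕ := (⌊x (n + 1)⌋₊ + (P - 1) * ⌊x n⌋₊) % P

/-- package EQ: `n` and `⌊x n⌋` are jointly equidistributed in residue classes -/
def S_EQ : Prop := ∀ (U : Ultrafilter ℕ) (hU : (U : Filter ℕ) ≤ atTop) (L : ℕ) (x β : ℕ → ℝ), Mov U L x β →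
  EQ (um U hU) (bx x) (some ())

/-- package DIG: the entropy of the windows of digits is small -/
def S_DIG : Prop := ∀ (U : Ultrafilter ℕ) (hU : (U : Filter ℕ) ≤ atTop) (L : ℕ) (x β : ℕ → ℝ), 1 ≤ L →
  Mov U L x β → ∀ P : ℕ, 2 ≤ P → ∀ (B : Type) (G : ℕ → B), FR G → ∀ W : ℕ,
    E (um U hU) (fun n => (win W (dx P x) n, G n)) ≤
      E (um U hU) G + ((W : ℝ) / L + 1) * Real.log ((W : ℝ) + 1)

/-- minor arcs: `N |q α - a| > C` for all `1 ≤ q ≤ C` -/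
def Minor (C N : ℕ) (α : ℝ) : Prop := ∀ q : ℕ, 1 ≤ q → q ≤ C → ∀ a : ℤ, (C : ℝ) < N * |q * α - a|

/-- the main estimate, for full sums and one system of forms -/
def S_ONE : Prop := ∀ (k : ℕ) (f : Fin k → ℕ → ℤ) (a b : Fin k → ℕ), (∀ i, Flip (f i)) → (∀ i, 1 ≤ a i) →
  ∀ ω : ℕ → ℕ, Tendsto ω atTop atTop → ∀ θ δ : ℝ, 0 < δ →
    LZ {N : ℕ | ∃ α : ℝ, Minor (ω N) N α ∧ δ < |Av N (psi f a b α θ)|}

/-- all partial sums, one exceptional set: linear phases -/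
def Lin (f : ℕ → ℕ → ℤ) (ω : ℕ → ℕ) (E : Set ℕ) : Prop :=
  ∀ (k : ℕ) (s a b : Fin k → ℕ), (∀ i, 1 ≤ a i) → ∀ ε : ℝ, 0 < ε →
    ∃ N₀ : ℕ, ∀ N : ℕ, N₀ ≤ N → N ∉ E → ∀ α : ℝ, Minor (ω N) N α → ∀ Y X : ℕ, Y ≤ X → X ≤ N →
      ‖∑ n ∈ Ioc Y X, (((∏ i, f (s i) (a i * n + b i) : ℤ) : ℝ) : ℂ) *
        Complex.exp (2 * Real.pi * Complex.I * (α * n))‖ ≤ ε * N

/-- polynomial phases of degree `d` with minor leading coefficient -/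
def Pol (f : ℕ → ℕ → ℤ) (ω : ℕ → ℕ) (E : Set ℕ) : Prop :=
  ∀ (k : ℕ) (s a b : Fin k → ℕ), (∀ i, 1 ≤ a i) → ∀ d : ℕ, 1 ≤ d → ∀ ε : ℝ, 0 < ε →
    ∃ N₀ : ℕ, ∀ N : ℕ, N₀ ≤ N → N ∉ E → ∀ c : ℕ → ℝ, Minor (ω N) N (c d) → ∀ Y X : ℕ, Y ≤ X → X ≤ N →
      ‖∑ n ∈ Ioc Y X, (((∏ i, f (s i) (a i * n + b i) : ℤ) : ℝ) : ℂ) *
        Complex.exp (2 * Real.pi * Complex.I * ((∑ j ∈ range (d + 1), c j * (n : ℝ) ^ j : ℝ) : ℂ))‖ ≤ ε * N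

/-- package SUP -/
def S_SUP : Prop := S_ONE → ∀ f : ℕ → ℕ → ℤ, (∀ j, Flip (f j)) → ∀ ω : ℕ → ℕ, Tendsto ω atTop atTop →
  ∃ E : Set ℕ, LZ E ∧ Lin f ω E

/-- package POLY (van der Corput) -/
def S_POLY : Prop := ∀ f : ℕ → ℕ → ℤ, (∀ j n, |f j n| ≤ 1) → ∀ (ω ω' : ℕ → ℕ) (E : Set ℕ), Tendsto ω' atTop atTop →
  (∀ K : ℕ, ∀ᶠ N in atTop, K * ω' N ≤ ω N) → Lin f ω' E → Pol f ω E

end Pool.Agent.P8H6.Uni
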