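import Pool.Agent.P8H6.Uni.Defs

/-!
# Uniform minor arc bounds: two more packages (helper6)
-/

set_option autoImplicit false

namespace Pool.Agent.P8H6.Uni

open Finset Filter Topology
open Pool.Agent.Y958.U (LZ)
open Pool.Agent.P8H6.Irr (Flip)

/-- `exp (2 π i x)` -/
noncomputable def ex (x : ℝ) : ℂ := Complex.exp (2 * Real.pi * Complex.I * x)

/-- the sums of `F` over all residue classes are small at the scales outside `E` -/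
def SmallAP (F : ℕ → ℂ) (E : Set ℕ) : Prop :=
  ∀ q : ℕ, 1 ≤ q → ∀ r : ℕ, ∀ ε : ℝ, 0 < ε → ∃ N₀ : ℕ, ∀ N : ℕ, N₀ ≤ N → N ∉ E → ∀ X : ℕ, X ≤ N →
    ‖∑ n ∈ (Icc 1 X).filter (fun n => n % q = r % q), F n‖ ≤ ε * N

/-- package ALL: small sums over residue classes give small sums with the phases `e(α n)`, `α` not minor -/
def S_ALL : Prop := ∀ (F : ℕ → ℕ → ℂ), (∀ i n, ‖F i n‖ ≤ 1) → ∀ E : Set ℕ,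
  ∃ w : ℕ → ℕ, Tendsto w atTop atTop ∧ ∀ i, SmallAP (F i) E → ∀ ε : ℝ, 0 < ε → ∃ N₀ : ℕ, ∀ N : ℕ, N₀ ≤ N → N ∉ E →
    ∀ α : ℝ, ¬ Minor (w N) N α → ∀ Y X : ℕ, Y ≤ X → X ≤ N → ‖∑ n ∈ Ioc Y X, F i n * ex (α * n)‖ ≤ ε * N

/-- all phases `e(P(n))`, `P` of degree `d` with minor leading coefficient -/
def Phs (F : ℕ → ℂ) (ω : ℕ → ℕ) (E : Set ℕ) (d : ℕ) : Prop :=
  ∀ ε : ℝ, 0 < ε → ∃ N₀ : ℕ, ∀ N : ℕ, N₀ ≤ N → N ∉ E → ∀ c : ℕ → ℝ, Minor (ω N) N (c d) →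
    ∀ Y X : ℕ, Y ≤ X → X ≤ N → ‖∑ n ∈ Ioc Y X, F n * ex (∑ j ∈ range (d + 1), c j * (n : ℝ) ^ j)‖ ≤ ε * N

open scoped Classical in
/-- package BOHR: the points with `{P(n)}` in an interval -/
def S_BOHR : Prop := ∀ (F : ℕ → ℂ), (∀ n, ‖F n‖ ≤ 1) → ∀ (ω ω' : ℕ → ℕ) (E : Set ℕ) (d : ℕ), 1 ≤ d →
  Tendsto ω' atTop atTop → (∀ K : ℕ, ∀ᶠ N in atTop, K * ω' N ≤ ω N) → Phs F ω' E d → Phs (fun _ => 1) ω' E d →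
  ∀ ε : ℝ, 0 < ε → ∃ N₀ : ℕ, ∀ N : ℕ, N₀ ≤ N → N ∉ E → ∀ c : ℕ → ℝ, Minor (ω N) N (c d) →
    ∀ Y X : ℕ, Y ≤ X → X ≤ N → ∀ u v : ℝ, 0 ≤ u → u ≤ v → v ≤ 1 →
      ‖∑ n ∈ Ioc Y X, F n * (((if u ≤ Int.fract (∑ j ∈ range (d + 1), c j * (n : ℝ) ^ j) ∧
        Int.fract (∑ j ∈ range (d + 1), c j * (n : ℝ) ^ j) < v then (1 : ℝ) else 0) - (v - u) : ℝ) : ℂ)‖ ≤ ε * N

end Pool.Agent.P8H6.Uni
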