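import Pool.Agent.P8H6.Uni.Defs

/-!
# Package DIG of project UNI (helper52): the entropy of the windows of sparse digits
-/

set_option autoImplicit false

namespace Pool.Agent.P8H6.Uni

open Finset Filter Topology
open Pool.Agent.TH112.BL (Bd QD win)
open Pool.Agent.Y958.TC

namespace DigP

/-- functions which agree outside a null set have the same entropy -/
lemma E_null (μ : NM) {B : Type} (F F' : ℕ → B) (N : ℕ → Prop) (hN : μ.m (ind (fun n => ¬ N n)) = 0)
    (h : ∀ n, N n → F n = F' n) : E μ F = E μ F' := by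
  unfold E
  congr 1
  funext x
  congr 1
  have h1 : Bd (fun n => ind (fun n => F n = x) n - ind (fun n => F' n = x) n) := by
    refine ⟨2, fun n => ?_⟩
    show |ind (fun n => F n = x) n - ind (fun n => F' n = x) n| ≤ 2
    unfold ind
    split_ifs <;> norm_num
  have h2 := μ.abs_le h1
  have h3 : μ.m (fun n => |ind (fun n => F n = x) n - ind (fun n => F' n = x) n|) ≤
      μ.m (ind (fun n => ¬ N n)) := by
    refine μ.mono h1.abs (Bd_ind _) fun n => ?_
    by_cases hn : N n
    · have h4 : ind (fun n => F n = x) n = ind (fun n => F' n = x) n := by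
        unfold ind
        by_cases hx : F' n = x
        · rw [if_pos (show F n = x from (h n hn).trans hx), if_pos hx]
        · rw [if_neg (show ¬ F n = x from fun h' => hx ((h n hn).symm.trans h')), if_neg hx]
      rw [h4, sub_self, abs_zero]
      exact ind_nonneg _ n
    · have h4 : ind (fun n => ¬ N n) n = 1 := by
        unfold ind
        rw [if_pos hn]
      rw [h4]
      unfold ind
      split_ifs <;> norm_num
  rw [hN] at h3
  rw [μ.sub (Bd_ind _) (Bd_ind _)] at h2
  have h4 := abs_eq_zero.1 (le_antisymm (h2.trans h3) (abs_nonneg _))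
  linarith

/-- the word with ones at the places listed by `g` -/
noncomputable def wd {W K : ℕ} (g : Fin K → Option (Fin W)) : Fin W → ℕ := fun j => by
  classical exact if ∃ i, g i = some j then 1 else 0

open scoped Classical in
/-- the words of length `W` with at most `K` ones -/
noncomputable def tw (W K : ℕ) : Finset (Fin W → ℕ) := (univ : Finset (Fin K → Option (Fin W))).image wd

lemma tw_card (W K : ℕ) : (tw W K).card ≤ (W + 1) ^ K := by
  classical
  refine card_image_le.trans ?_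
  rw [card_univ, Fintype.card_fun, Fintype.card_option, Fintype.card_fin, Fintype.card_fin]

lemma mem_tw (W K : ℕ) (w : Fin W → ℕ) (h01 : ∀ j, w j = 0 ∨ w j = 1)
    (hK : (univ.filter (fun j => w j = 1)).card ≤ K) : w ∈ tw W K := by
  classical
  unfold tw
  rw [mem_image]
  set S : Finset (Fin W) := univ.filter (fun j => w j = 1) with hS
  let e := S.equivFin
  refine ⟨fun i => if h : i.1 < S.card then some (e.symm ⟨i.1, h⟩).1 else none, mem_univ _, ?_⟩
  funext j
  unfold wd
  rcases h01 j with hj | hj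
  · rw [hj, if_neg]
    rintro ⟨i, hi⟩
    dsimp only at hi
    split_ifs at hi with hc
    · have h1 : (e.symm ⟨i.1, hc⟩).1 = j := by simpa using hi
      have h2 := (e.symm ⟨i.1, hc⟩).2
      rw [h1, hS, mem_filter, hj] at h2
      exact absurd h2.2 (by norm_num)
  · rw [hj, if_pos]
    have hjS : j ∈ S := by
      rw [hS, mem_filter]
      exact ⟨mem_univ _, hj⟩
    refine ⟨⟨(e ⟨j, hjS⟩).1, lt_of_lt_of_le (e ⟨j, hjS⟩).2 hK⟩, ?_⟩
    dsimp only
    rw [dif_pos (e ⟨j, hjS⟩).2]
    simp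

/-- `n` is nice for `W` -/
def Nice (L W : ℕ) (x : ℕ → ℝ) (n : ℕ) : Prop :=
  ∃ b : ℝ, 0 ≤ b ∧ L * b ≤ 1 ∧ ∀ s : ℕ, s ≤ W → x (n + s) = b * ((n + s : ℕ) : ℝ)

lemma nice_digit {L W P : ℕ} {x : ℕ → ℝ} {n : ℕ} (hL : 1 ≤ L) (hP : 2 ≤ P) {b : ℝ} (hb0 : 0 ≤ b) (hb1 : L * b ≤ 1)
    (hb : ∀ s : ℕ, s ≤ W → x (n + s) = b * ((n + s : ℕ) : ℝ)) (s : ℕ) (hs : s < W) :
    ⌊b * ((n + s : ℕ) : ℝ)⌋₊ ≤ ⌊b * ((n + (s + 1) : ℕ) : ℝ)⌋₊ ∧
    ⌊b * ((n + (s + 1) : ℕ) : ℝ)⌋₊ ≤ ⌊b * ((n + s : ℕ) : ℝ)⌋₊ + 1 ∧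
    dx P x (n + s) = ⌊b * ((n + (s + 1) : ℕ) : ℝ)⌋₊ - ⌊b * ((n + s : ℕ) : ℝ)⌋₊ := by
  have hL1 : (1 : ℝ) ≤ L := by exact_mod_cast hL
  have hb2 : b ≤ 1 := by nlinarith
  have h1 : ⌊b * ((n + s : ℕ) : ℝ)⌋₊ ≤ ⌊b * ((n + (s + 1) : ℕ) : ℝ)⌋₊ := by
    apply Nat.floor_le_floor
    refine mul_le_mul_of_nonneg_left ?_ hb0
    exact_mod_cast (by omega : n + s ≤ n + (s + 1))
  have h2 : ⌊b * ((n + (s + 1) : ℕ) : ℝ)⌋₊ ≤ ⌊b * ((n + s : ℕ) : ℝ)⌋₊ + 1 := by
    rw [← Nat.floor_add_one (by positivity)]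
    apply Nat.floor_le_floor
    push_cast
    linarith
  refine ⟨h1, h2, ?_⟩
  unfold dx
  rw [show n + s + 1 = n + (s + 1) by ring, hb s hs.le, hb (s + 1) hs]
  set u := ⌊b * ((n + s : ℕ) : ℝ)⌋₊
  set v := ⌊b * ((n + (s + 1) : ℕ) : ℝ)⌋₊
  obtain ⟨d, hd⟩ : ∃ d, v = u + d := ⟨v - u, by omega⟩
  have hd1 : d ≤ 1 := by omega
  obtain ⟨Q, hQ⟩ : ∃ Q, P = Q + 2 := ⟨P - 2, by omega⟩
  have h3 : v + (P - 1) * u = d + P * u := by
    rw [hd, hQ, show Q + 2 - 1 = Q + 1 by omega]
    ring
  rw [h3, Nat.add_mul_mod_self_left, Nat.mod_eq_of_lt (by omega)]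
  omega

lemma nice_win {L W P : ℕ} {x : ℕ → ℝ} {n : ℕ} (hL : 1 ≤ L) (hP : 2 ≤ P) (hn : Nice L W x n) :
    win W (dx P x) n ∈ tw W (W / L + 1) := by
  obtain ⟨b, hb0, hb1, hb⟩ := hn
  have hd := fun s hs => nice_digit hL hP hb0 hb1 hb s hs
  apply mem_tw
  · intro j
    obtain ⟨h1, h2, h3⟩ := hd j.1 j.2
    show dx P x (n + j) = 0 ∨ dx P x (n + j) = 1
    rw [h3]
    omega
  · have h1 : (univ.filter (fun j : Fin W => win W (dx P x) n j = 1)).card =
        ∑ j : Fin W, dx P x (n + j) := by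
      rw [card_filter]
      refine sum_congr rfl fun j _ => ?_
      show (if dx P x (n + j) = 1 then 1 else 0) = dx P x (n + j)
      obtain ⟨h1, h2, h3⟩ := hd j.1 j.2
      have h4 : dx P x (n + j) = 0 ∨ dx P x (n + j) = 1 := by
        rw [h3]
        omega
      rcases h4 with h4 | h4
      · rw [h4, if_neg (by norm_num)]
      · rw [h4, if_pos rfl]
    rw [h1]
    have h2 : ∀ V : ℕ, V ≤ W → ∑ j ∈ range V, dx P x (n + j) + ⌊b * ((n + 0 : ℕ) : ℝ)⌋₊ = ⌊b * ((n + V : ℕ) : ℝ)⌋₊ := by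
      intro V
      induction V with
      | zero => simp
      | succ V ih =>
        intro hV
        obtain ⟨a1, a2, a3⟩ := hd V (by omega)
        rw [sum_range_succ, a3]
        have := ih (by omega)
        omega
    have h3 := h2 W le_rfl
    rw [Fin.sum_univ_eq_sum_range (fun j => dx P x (n + j)) W]
    have h4 : (⌊b * ((n + W : ℕ) : ℝ)⌋₊ : ℝ) ≤ b * ((n + W : ℕ) : ℝ) := Nat.floor_le (by positivity)
    have h5 := Nat.lt_floor_add_one (b * ((n + 0 : ℕ) : ℝ))
    have h6 : ((∑ j ∈ range W, dx P x (n + j) : ℕ) : ℝ) + (⌊b * ((n + 0 : ℕ) : ℝ)⌋₊ : ℝ) =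
        (⌊b * ((n + W : ℕ) : ℝ)⌋₊ : ℝ) := by exact_mod_cast h3
    have hL0 : (0 : ℝ) < L := by exact_mod_cast (by omega : 0 < L)
    have h7 : b * W ≤ (W : ℝ) / L := by
      rw [le_div_iff₀ hL0]
      have : (0 : ℝ) ≤ W := Nat.cast_nonneg _
      nlinarith
    have h8 : ((∑ j ∈ range W, dx P x (n + j) : ℕ) : ℝ) < (W : ℝ) / L + 1 := by
      push_cast at h4 h5 h6 ⊢
      linarith
    have h9 : ((∑ j ∈ range W, dx P x (n + j) : ℕ) : ℝ) * L < W + L := by
      have := mul_lt_mul_of_pos_right h8 hL0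
      rwa [add_mul, div_mul_cancel₀ _ hL0.ne', one_mul] at this
    have h10 : (∑ j ∈ range W, dx P x (n + j)) * L < W + L := by exact_mod_cast h9
    have h11 : ∑ j ∈ range W, dx P x (n + j) < (W + L) / L + 1 := by
      by_contra hcon
      rw [not_lt] at hcon
      have h12 : W + L < L * ((W + L) / L + 1) := Nat.lt_mul_div_succ _ (by omega)
      have h13 : L * ((W + L) / L + 1) ≤ (∑ j ∈ range W, dx P x (n + j)) * L := by
        rw [mul_comm]
        exact Nat.mul_le_mul_right _ hcon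
      omega
    rw [Nat.add_div_right _ (by omega)] at h11
    omega

lemma nice_null (U : Ultrafilter ℕ) (hU : (U : Filter ℕ) ≤ atTop) (L : ℕ) (x β : ℕ → ℝ) (hM : Mov U L x β) (W : ℕ) :
    (um U hU).m (ind (fun n => ¬ Nice L W x n)) = 0 := by
  apply le_antisymm _ ((um U hU).nonneg _ (Bd_ind _) (ind_nonneg _))
  refine le_of_forall_pos_le_add fun η hη => ?_
  rw [zero_add]
  have h1 := um_tendsto U hU (Bd_ind (fun n => ¬ Nice L W x n))
  have h2 : Tendsto (fun M : ℕ => η + ((1 : ℝ) + W) / M) U (𝓝 (η + 0)) :=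
    tendsto_const_nhds.add ((tendsto_const_div_atTop_nhds_zero_nat _).mono_left hU)
  rw [add_zero] at h2
  refine le_of_tendsto_of_tendsto h1 h2 ?_
  filter_upwards [hM.lin η hη, hM.pos, hM.small, hU (eventually_ge_atTop 1)] with M e1 e2 e3 e4
  have hM0 : (0 : ℝ) < M := by exact_mod_cast e4
  unfold Av
  rw [div_le_iff₀ hM0, add_mul, div_mul_cancel₀ _ hM0.ne']
  have h3 : ∀ n ∈ range M, ind (fun n => ¬ Nice L W x n) n ≤
      ind (fun n => n < ⌈η * M⌉₊) n + ind (fun n => M ≤ n + W) n := by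
    intro n hn
    rw [mem_range] at hn
    by_cases hc : Nice L W x n
    · have : ind (fun n => ¬ Nice L W x n) n = 0 := by
        unfold ind
        rw [if_neg (not_not.2 hc)]
      rw [this]
      exact add_nonneg (ind_nonneg _ _) (ind_nonneg _ _)
    · have h4 : ind (fun n => ¬ Nice L W x n) n = 1 := by
        unfold ind
        rw [if_pos hc]
      rw [h4]
      by_cases h5 : n < ⌈η * M⌉₊
      · have h6 : ind (fun n => n < ⌈η * M⌉₊) n = 1 := by
          unfold ind
          rw [if_pos h5]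
        rw [h6]
        linarith [ind_nonneg (fun n => M ≤ n + W) n]
      · by_cases h7 : M ≤ n + W
        · have h8 : ind (fun n => M ≤ n + W) n = 1 := by
            unfold ind
            rw [if_pos h7]
          rw [h8]
          linarith [ind_nonneg (fun n => n < ⌈η * M⌉₊) n]
        · exfalso
          apply hc
          refine ⟨β M, e2, e3, fun s hs => ?_⟩
          apply e1
          · rw [not_lt] at h5
            have h9 : η * M ≤ n := (Nat.le_ceil _).trans (by exact_mod_cast h5)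
            push_cast
            have : (0 : ℝ) ≤ s := Nat.cast_nonneg _
            linarith
          · omega
  refine (sum_le_sum h3).trans ?_
  rw [sum_add_distrib]
  have h4 : ∑ n ∈ range M, ind (fun n => n < ⌈η * M⌉₊) n ≤ η * M + 1 := by
    have h5 : ∑ n ∈ range M, ind (fun n => n < ⌈η * M⌉₊) n = (((range M).filter (fun n => n < ⌈η * M⌉₊)).card : ℝ) := by
      rw [card_filter]
      push_cast
      refine sum_congr rfl fun n _ => ?_
      unfold ind
      split_ifs <;> simp
    rw [h5]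
    have h6 : ((range M).filter (fun n => n < ⌈η * M⌉₊)).card ≤ ⌈η * M⌉₊ := by
      refine (card_le_card (t := range ⌈η * M⌉₊) fun n hn => ?_).trans (by simp)
      rw [mem_filter] at hn
      exact mem_range.2 hn.2
    have h7 : (((range M).filter (fun n => n < ⌈η * M⌉₊)).card : ℝ) ≤ ⌈η * M⌉₊ := by exact_mod_cast h6
    exact h7.trans (Nat.ceil_lt_add_one (by positivity)).le
  have h5 : ∑ n ∈ range M, ind (fun n => M ≤ n + W) n ≤ W := by
    have h5 : ∑ n ∈ range M, ind (fun n => M ≤ n + W) n = (((range M).filter (fun n => M ≤ n + W)).card : ℝ) := by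
      rw [card_filter]
      push_cast
      refine sum_congr rfl fun n _ => ?_
      unfold ind
      split_ifs <;> simp
    rw [h5]
    have h6 : ((range M).filter (fun n => M ≤ n + W)).card ≤ W := by
      refine (card_le_card (t := Ico (M - W) M) fun n hn => ?_).trans (by rw [Nat.card_Ico]; omega)
      rw [mem_filter, mem_range] at hn
      rw [mem_Ico]
      omega
    exact_mod_cast h6
  linarith

end DigP

open DigP in
/-- **package DIG** -/
theorem dig_thm : S_DIG := by
  classical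
  intro U hU L x β hL hM P hP B G hG W
  set μ := um U hU with hμ
  set F' : ℕ → (Fin W → ℕ) := fun n => if Nice L W x n then win W (dx P x) n else fun _ => 0 with hF'
  have hmem : ∀ n, F' n ∈ tw W (W / L + 1) := by
    intro n
    rw [hF']
    by_cases hn : Nice L W x n
    · simp only [hn, if_true]
      exact nice_win hL hP hn
    · simp only [hn, if_false]
      apply mem_tw
      · exact fun _ => Or.inl rfl
      · have : (univ.filter (fun j : Fin W => (fun _ : Fin W => 0) j = 1)) = ∅ := by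
          rw [filter_eq_empty_iff]
          intro j _
          norm_num
        rw [this]
        simp
  have hFR : FR F' := by
    refine (tw W (W / L + 1)).finite_toSet.subset ?_
    rintro _ ⟨n, rfl⟩
    exact hmem n
  have h1 : E μ (fun n => (win W (dx P x) n, G n)) = E μ (fun n => (F' n, G n)) := by
    refine E_null μ _ _ (Nice L W x) (nice_null U hU L x β hM W) fun n hn => ?_
    rw [hF']
    simp only [hn, if_true]
  rw [h1]
  have h2 := E_card μ F' G hFR hG ((W + 1) ^ (W / L + 1)) (Nat.one_le_pow _ _ (by omega)) (tw W (W / L + 1))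
    (tw_card _ _) hmem
  refine h2.trans (add_le_add le_rfl ?_)
  push_cast
  rw [Real.log_pow]
  refine mul_le_mul_of_nonneg_right ?_ (Real.log_nonneg (by
    have : (0 : ℝ) ≤ W := Nat.cast_nonneg _
    linarith))
  push_cast
  have : ((W / L : ℕ) : ℝ) ≤ (W : ℝ) / L := Nat.cast_div_le
  linarith

end Pool.Agent.P8H6.Uni
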