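import Pool.Agent.P8H6.Uni.Main
import Pool.Agent.P8H6.Uni.BohrB

/-!
# Uniform minor arc bounds: phases and Bohr sets for real polynomials
-/

set_option autoImplicit false

namespace Pool.Agent.P8H6.Uni

open Finset Filter Topology Polynomial
open Pool.Agent.Y958.U (LZ)
open Pool.Agent.P8H6.Irr (Flip)

lemma Pol_phs {f : ℕ → ℕ → ℤ} {ω : ℕ → ℕ} {E : Set ℕ} (h : Pol f ω E) (k : ℕ) (s a b : Fin k → ℕ)
    (ha : ∀ i, 1 ≤ a i) (d : ℕ) (hd : 1 ≤ d) : Phs (Pc f s a b) ω E d := by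
  intro ε hε
  obtain ⟨N₀, h1⟩ := h k s a b ha d hd ε hε
  refine ⟨N₀, fun N hN hNE c hc Y X hYX hXN => ?_⟩
  refine le_trans (le_of_eq ?_) (h1 N hN hNE c hc Y X hYX hXN)
  congr 1

lemma Pol_one {f : ℕ → ℕ → ℤ} {ω : ℕ → ℕ} {E : Set ℕ} (h : Pol f ω E) (d : ℕ) (hd : 1 ≤ d) :
    Phs (fun _ => 1) ω E d := by
  have h1 := Pol_phs h 0 (fun _ => 0) (fun _ => 1) (fun _ => 0) (fun _ => le_rfl) d hd
  have h2 : Pc f (k := 0) (fun _ => 0) (fun _ => 1) (fun _ => 0) = fun _ => (1 : ℂ) := by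
    funext n
    unfold Pc
    simp
  rwa [h2] at h1

/-- uniform in the polynomial: phases, and the points with fractional part in an interval -/
def NP (G : ℕ → ℤ) (ω : ℕ → ℕ) (E : Set ℕ) : Prop :=
  ∀ d : ℕ, 1 ≤ d → ∀ ε : ℝ, 0 < ε → ∃ N₀ : ℕ, ∀ N : ℕ, N₀ ≤ N → N ∉ E → ∀ P : ℝ[X], P.natDegree ≤ d →
    Minor (ω N) N (P.coeff d) → ∀ Y X : ℕ, Y ≤ X → X ≤ N →
      ‖∑ n ∈ Ioc Y X, (G n : ℂ) * ex (P.eval (n : ℝ))‖ ≤ ε * N ∧
      ∀ u v : ℝ, 0 ≤ u → u ≤ v → v ≤ 1 →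
        |∑ n ∈ (Ioc Y X).filter (fun n : ℕ => Int.fract (P.eval (n : ℝ)) ∈ Set.Ico u v), (G n : ℝ) -
          (v - u) * ∑ n ∈ Ioc Y X, (G n : ℝ)| ≤ ε * N

open scoped Classical in
theorem np_all (f : ℕ → ℕ → ℤ) (hf : ∀ j, Flip (f j)) (ω : ℕ → ℕ) (hω : Tendsto ω atTop atTop) :
    ∃ E : Set ℕ, LZ E ∧ ∀ (k : ℕ) (s a b : Fin k → ℕ), (∀ i, 1 ≤ a i) →
      NP (fun n => ∏ i, f (s i) (a i * n + b i)) ω E := by
  obtain ⟨E, hE, h1, h2⟩ := main_pol f hf ω hω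
  refine ⟨E, hE, fun k s a b ha d hd ε hε => ?_⟩
  have h3 := Pol_phs h1 k s a b ha d hd
  have h4 := Pol_one h1 d hd
  have h5 := Pol_phs h2 k s a b ha d hd
  have hF : ∀ n, ‖Pc f s a b n‖ ≤ 1 := Pc_le f (fun j n => (hf j).bd n) s a b
  obtain ⟨N₁, h6⟩ := h5 ε hε
  obtain ⟨N₂, h7⟩ := bohr_thm (Pc f s a b) hF ω (fun N => Nat.sqrt (ω N)) E d hd (sqrt_tendsto hω) (sqrt_small hω)
    h3 h4 ε hε
  refine ⟨N₁ + N₂, fun N hN hNE P hPd hPm Y X hYX hXN => ?_⟩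
  have hev : ∀ n : ℕ, P.eval (n : ℝ) = ∑ j ∈ range (d + 1), P.coeff j * (n : ℝ) ^ j := fun n =>
    eval_eq_sum_range' (by omega) _
  constructor
  · refine le_trans (le_of_eq ?_) (h6 N (by omega) hNE P.coeff hPm Y X hYX hXN)
    congr 1
    refine sum_congr rfl fun n _ => ?_
    rw [hev]
    rfl
  · intro u v hu huv hv
    have h8 := h7 N (by omega) hNE P.coeff hPm Y X hYX hXN u v hu huv hv
    refine le_trans (le_of_eq ?_) h8
    rw [← Real.norm_eq_abs, ← Complex.norm_real, Complex.ofReal_sub, Complex.ofReal_mul, Complex.ofReal_sum, Complex.ofReal_sum,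
      sum_filter, mul_sum, ← sum_sub_distrib]
    congr 1
    refine sum_congr rfl fun n _ => ?_
    rw [hev]
    have h9 : (((∏ i, f (s i) (a i * n + b i) : ℤ) : ℝ) : ℂ) = Pc f s a b n := by
      unfold Pc
      push_cast
      rfl
    rw [h9]
    by_cases h10 : Int.fract (∑ j ∈ range (d + 1), P.coeff j * (n : ℝ) ^ j) ∈ Set.Ico u v
    · rw [if_pos h10, if_pos (Set.mem_Ico.1 h10)]
      push_cast
      ring
    · rw [if_neg h10, if_neg (fun h => h10 (Set.mem_Ico.2 h))]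
      push_cast
      ring

end Pool.Agent.P8H6.Uni
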