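import Pool.Agent.P8H6.Uni.Defs

/-!
# Package POLY of project UNI: van der Corput (helper43)
-/

set_option autoImplicit false

namespace Pool.Agent.P8H6.Uni

open Finset Filter Topology

namespace POLYaux

/-- the shift to the right by `h` -/
noncomputable def sh (h : ℕ) (G : ℕ → ℂ) (m : ℕ) : ℂ := if h ≤ m then G (m - h) else 0

lemma sum_sh (G : ℕ → ℂ) (X H h : ℕ) (hG : ∀ n, X < n → G n = 0) (hh : h ≤ H) :
    ∑ m ∈ range (X + H + 1), sh h G m = ∑ n ∈ range (X + 1), G n := by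
  obtain ⟨k, rfl⟩ := Nat.exists_eq_add_of_le hh
  have e : X + (h + k) + 1 = h + (X + 1 + k) := by ring
  rw [e, Finset.sum_range_add, Finset.sum_range_add (fun x => sh h G (h + x)) (X + 1) k]
  have h1 : ∑ x ∈ range h, sh h G x = 0 := by
    apply Finset.sum_eq_zero
    intro x hx
    have : ¬ h ≤ x := by simpa using hx
    simp [sh, this]
  have h2 : ∑ x ∈ range k, sh h G (h + (X + 1 + x)) = 0 := by
    apply Finset.sum_eq_zero
    intro x hx
    have : h + (X + 1 + x) - h = X + 1 + x := by omega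
    simp only [sh, this]
    rw [if_pos (by omega)]
    exact hG _ (by omega)
  rw [h1, h2, zero_add, add_zero]
  apply Finset.sum_congr rfl
  intro x _
  simp [sh]

lemma sh_mul (G : ℕ → ℂ) (h k m : ℕ) :
    sh (h + k) G m * (starRingEnd ℂ) (sh h G m) =
      sh (h + k) (fun n => G n * (starRingEnd ℂ) (G (n + k))) m := by
  unfold sh
  by_cases h1 : h + k ≤ m
  · have h2 : h ≤ m := by omega
    have h3 : m - (h + k) + k = m - h := by omega
    simp only [h1, h2, if_true, h3]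
  · simp [h1]

/-- correlation -/
noncomputable def co (G : ℕ → ℂ) (X k : ℕ) : ℂ := ∑ n ∈ range (X + 1), G n * (starRingEnd ℂ) (G (n + k))

lemma sum_sh_mul (G : ℕ → ℂ) (X H : ℕ) (hG : ∀ n, X < n → G n = 0) (h k : ℕ) (hh : h + k ≤ H) :
    ∑ m ∈ range (X + H + 1), sh (h + k) G m * (starRingEnd ℂ) (sh h G m) = co G X k := by
  simp only [sh_mul]
  rw [sum_sh _ X H (h + k) _ hh]
  · rfl
  · intro n hn
    simp [hG n hn]

lemma norm_corr (G : ℕ → ℂ) (X H : ℕ) (hG : ∀ n, X < n → G n = 0) (c D : ℝ)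
    (hD : ‖co G X 0‖ ≤ D) (hc : ∀ k, 1 ≤ k → k < H → ‖co G X k‖ ≤ c) (h1 h2 : ℕ) (hh1 : h1 < H) (hh2 : h2 < H) :
    ‖∑ m ∈ range (X + H + 1), sh h1 G m * (starRingEnd ℂ) (sh h2 G m)‖ ≤ if h1 = h2 then D else c := by
  rcases lt_trichotomy h1 h2 with h | h | h
  · rw [if_neg h.ne]
    obtain ⟨k, rfl⟩ := Nat.exists_eq_add_of_le h.le
    have e : ∑ m ∈ range (X + H + 1), sh h1 G m * (starRingEnd ℂ) (sh (h1 + k) G m) =
        (starRingEnd ℂ) (∑ m ∈ range (X + H + 1), sh (h1 + k) G m * (starRingEnd ℂ) (sh h1 G m)) := by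
      rw [map_sum]
      apply Finset.sum_congr rfl
      intro m _
      simp [mul_comm]
    rw [e, sum_sh_mul G X H hG h1 k (by omega), RCLike.norm_conj]
    exact hc k (by omega) (by omega)
  · subst h
    rw [if_pos rfl]
    have := sum_sh_mul G X H hG h1 0 (by omega)
    rw [add_zero] at this
    rw [this]
    exact hD
  · rw [if_neg (by omega)]
    obtain ⟨k, rfl⟩ := Nat.exists_eq_add_of_le h.le
    rw [sum_sh_mul G X H hG h2 k (by omega)]
    exact hc k (by omega) (by omega)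

lemma sq_exp (S R : Finset ℕ) (u : ℕ → ℕ → ℂ) : ∑ m ∈ S, ‖∑ h ∈ R, u h m‖ ^ 2 ≤
    ∑ h1 ∈ R, ∑ h2 ∈ R, ‖∑ m ∈ S, u h1 m * (starRingEnd ℂ) (u h2 m)‖ := by
  have h0 : ∀ m, ((‖∑ h ∈ R, u h m‖ ^ 2 : ℝ) : ℂ) =
      ∑ h1 ∈ R, ∑ h2 ∈ R, u h1 m * (starRingEnd ℂ) (u h2 m) := by
    intro m
    rw [Complex.ofReal_pow, ← Complex.mul_conj', map_sum, Finset.sum_mul_sum]
  have e4 : ((∑ m ∈ S, ‖∑ h ∈ R, u h m‖ ^ 2 : ℝ) : ℂ) =
      ∑ h1 ∈ R, ∑ h2 ∈ R, ∑ m ∈ S, u h1 m * (starRingEnd ℂ) (u h2 m) := by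
    rw [Complex.ofReal_sum, Finset.sum_congr rfl (fun m _ => h0 m), Finset.sum_comm]
    apply Finset.sum_congr rfl
    intro h1 _
    rw [Finset.sum_comm]
  have h1 : (0 : ℝ) ≤ ∑ m ∈ S, ‖∑ h ∈ R, u h m‖ ^ 2 := Finset.sum_nonneg (fun m _ => sq_nonneg _)
  have e5 : ∑ m ∈ S, ‖∑ h ∈ R, u h m‖ ^ 2 = ‖((∑ m ∈ S, ‖∑ h ∈ R, u h m‖ ^ 2 : ℝ) : ℂ)‖ := by
    rw [Complex.norm_real, Real.norm_of_nonneg h1]
  rw [e5, e4]
  refine (norm_sum_le _ _).trans (Finset.sum_le_sum (fun h1 _ => norm_sum_le _ _))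

lemma cs_sum (S : Finset ℕ) (v : ℕ → ℂ) : ‖∑ m ∈ S, v m‖ ^ 2 ≤ (S.card : ℝ) * ∑ m ∈ S, ‖v m‖ ^ 2 := by
  calc ‖∑ m ∈ S, v m‖ ^ 2 ≤ (∑ m ∈ S, ‖v m‖) ^ 2 := by
        gcongr
        exact norm_sum_le _ _
    _ ≤ _ := sq_sum_le_card_mul_sum_sq (s := S) (f := fun m => ‖v m‖)

/-- van der Corput's inequality -/
lemma vdc (G : ℕ → ℂ) (X H : ℕ) (hG : ∀ n, X < n → G n = 0) (c D : ℝ) (hc0 : 0 ≤ c)
    (hD : ‖co G X 0‖ ≤ D) (hc : ∀ k, 1 ≤ k → k < H → ‖co G X k‖ ≤ c) :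
    (H : ℝ) ^ 2 * ‖∑ n ∈ range (X + 1), G n‖ ^ 2 ≤ (X + H + 1 : ℕ) * (H * D + H ^ 2 * c) := by
  have e1 : (H : ℂ) * ∑ n ∈ range (X + 1), G n = ∑ m ∈ range (X + H + 1), ∑ h ∈ range H, sh h G m := by
    rw [Finset.sum_comm]
    rw [Finset.sum_congr rfl (fun h hh => sum_sh G X H h hG (le_of_lt (by simpa using hh)))]
    simp
  have e2 : (H : ℝ) ^ 2 * ‖∑ n ∈ range (X + 1), G n‖ ^ 2 =
      ‖∑ m ∈ range (X + H + 1), ∑ h ∈ range H, sh h G m‖ ^ 2 := by
    rw [← e1, norm_mul, mul_pow, Complex.norm_natCast]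
  rw [e2]
  have e3 := cs_sum (range (X + H + 1)) (fun m => ∑ h ∈ range H, sh h G m)
  rw [Finset.card_range] at e3
  refine e3.trans (mul_le_mul_of_nonneg_left ?_ (Nat.cast_nonneg _))
  refine (sq_exp (range (X + H + 1)) (range H) (fun h m => sh h G m)).trans ?_
  calc ∑ h1 ∈ range H, ∑ h2 ∈ range H, ‖∑ m ∈ range (X + H + 1),
        sh h1 G m * (starRingEnd ℂ) (sh h2 G m)‖
      ≤ ∑ h1 ∈ range H, ∑ h2 ∈ range H, (if h1 = h2 then D else c) := by
        apply Finset.sum_le_sum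
        intro h1 hh1
        apply Finset.sum_le_sum
        intro h2 hh2
        exact norm_corr G X H hG c D hD hc h1 h2 (by simpa using hh1) (by simpa using hh2)
    _ ≤ ∑ h1 ∈ range H, ∑ h2 ∈ range H, ((if h1 = h2 then D else 0) + c) := by
        apply Finset.sum_le_sum
        intro h1 _
        apply Finset.sum_le_sum
        intro h2 _
        split_ifs <;> linarith
    _ = H * D + H ^ 2 * c := by
        have : ∀ h1 ∈ range H, ∑ h2 ∈ range H, ((if h1 = h2 then D else 0) + c) = D + H * c := by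
          intro h1 hh1
          rw [Finset.sum_add_distrib]
          simp only [Finset.sum_ite_eq, hh1, if_true]
          simp
        rw [Finset.sum_congr rfl this]
        simp
        ring

/-- `e(x)` -/
noncomputable def ee (x : ℝ) : ℂ := Complex.exp (2 * Real.pi * Complex.I * ((x : ℝ) : ℂ))

lemma ee_norm (x : ℝ) : ‖ee x‖ = 1 := by
  unfold ee
  rw [show (2 * Real.pi * Complex.I * ((x : ℝ) : ℂ) : ℂ) = ((2 * Real.pi * x : ℝ) : ℂ) * Complex.I by
    push_cast; ring]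
  exact Complex.norm_exp_ofReal_mul_I _

lemma ee_add (x y : ℝ) : ee (x + y) = ee x * ee y := by
  unfold ee
  rw [← Complex.exp_add]
  congr 1
  push_cast
  ring

lemma ee_conj (x : ℝ) : (starRingEnd ℂ) (ee x) = ee (-x) := by
  unfold ee
  rw [← Complex.exp_conj]
  congr 1
  rw [map_mul, map_mul, map_mul, Complex.conj_I, Complex.conj_ofReal, Complex.conj_ofReal]
  rw [show (starRingEnd ℂ) 2 = 2 from Complex.conj_ofNat 2]
  push_cast
  ring

/-- differences of polynomials -/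
lemma poly_diff (d h : ℕ) (c : ℕ → ℝ) : ∃ c' : ℕ → ℝ, c' d = ((d + 1) * h : ℕ) * c (d + 1) ∧ ∀ n : ℕ,
    ∑ j ∈ range (d + 2), c j * ((n + h : ℕ) : ℝ) ^ j = ∑ j ∈ range (d + 2), c j * (n : ℝ) ^ j +
      ∑ j ∈ range (d + 1), c' j * (n : ℝ) ^ j := by
  refine ⟨fun j => ∑ i ∈ Ioc j (d + 1), c i * (i.choose j : ℝ) * (h : ℝ) ^ (i - j), ?_, ?_⟩
  · have : Ioc d (d + 1) = {d + 1} := by
      ext x
      rw [Finset.mem_Ioc, Finset.mem_singleton]
      omega
    simp only [this, Finset.sum_singleton]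
    rw [show d + 1 - d = 1 by omega, Nat.choose_succ_self_right]
    push_cast
    ring
  · intro n
    have e1 : ∀ i ∈ range (d + 2), c i * ((n + h : ℕ) : ℝ) ^ i = c i * (n : ℝ) ^ i +
        ∑ j ∈ range i, c i * (i.choose j : ℝ) * (h : ℝ) ^ (i - j) * (n : ℝ) ^ j := by
      intro i _
      push_cast
      rw [add_pow, Finset.sum_range_succ, mul_add, Finset.mul_sum]
      rw [add_comm]
      congr 1
      · simp
      · apply Finset.sum_congr rfl
        intro j _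
        ring
    rw [Finset.sum_congr rfl e1, Finset.sum_add_distrib]
    congr 1
    have e2 : ∑ i ∈ range (d + 2), ∑ j ∈ range i, c i * (i.choose j : ℝ) * (h : ℝ) ^ (i - j) * (n : ℝ) ^ j =
        ∑ j ∈ range (d + 1), ∑ i ∈ Ioc j (d + 1), c i * (i.choose j : ℝ) * (h : ℝ) ^ (i - j) * (n : ℝ) ^ j := by
      apply Finset.sum_comm'
      intro x y
      simp
      omega
    rw [e2]
    apply Finset.sum_congr rfl
    intro j _
    rw [Finset.sum_mul]

/-- the product of forms -/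
noncomputable def Fp (f : ℕ → ℕ → ℤ) {k : ℕ} (s a b : Fin k → ℕ) (n : ℕ) : ℂ :=
  (((∏ i, f (s i) (a i * n + b i) : ℤ) : ℝ) : ℂ)

lemma Fp_norm (f : ℕ → ℕ → ℤ) (hf : ∀ j n, |f j n| ≤ 1) {k : ℕ} (s a b : Fin k → ℕ) (n : ℕ) :
    ‖Fp f s a b n‖ ≤ 1 := by
  unfold Fp
  rw [Complex.norm_real, Real.norm_eq_abs, ← Int.cast_abs, Finset.abs_prod]
  have : ∏ i, |f (s i) (a i * n + b i)| ≤ 1 := Finset.prod_le_one (fun i _ => abs_nonneg _) (fun i _ => hf _ _)
  exact_mod_cast this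

lemma Fp_mul (f : ℕ → ℕ → ℤ) {k : ℕ} (s a b : Fin k → ℕ) (n h : ℕ) :
    Fp f s a b n * (starRingEnd ℂ) (Fp f s a b (n + h)) =
      Fp f (Fin.append s s) (Fin.append a a) (Fin.append b (fun i => b i + a i * h)) n := by
  unfold Fp
  rw [Complex.conj_ofReal, ← Complex.ofReal_mul, ← Int.cast_mul]
  congr 2
  rw [Fin.prod_univ_add]
  simp only [Fin.append_left, Fin.append_right]
  congr 2
  funext i
  congr 1
  ring

lemma Minor.mono {C C' N : ℕ} {α : ℝ} (h : Minor C N α) (hC : C' ≤ C) : Minor C' N α := by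
  intro q h1 h2 a
  have := h q h1 (h2.trans hC) a
  have h3 : (C' : ℝ) ≤ C := by exact_mod_cast hC
  linarith

lemma Minor.mul {C C' N m : ℕ} {α : ℝ} (hm : 1 ≤ m) (h : Minor C N α) (hC : C' * m ≤ C) :
    Minor C' N ((m : ℝ) * α) := by
  intro q h1 h2 a
  have h3 := h (q * m) (Nat.mul_pos h1 hm) ((Nat.mul_le_mul_right m h2).trans hC) a
  have h4 : C' ≤ C := le_trans (Nat.le_mul_of_pos_right _ hm) hC
  have h5 : (C' : ℝ) ≤ C := by exact_mod_cast h4
  push_cast at h3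
  rw [mul_assoc] at h3
  linarith

/-- the statement for degree `d` -/
def Pd (f : ℕ → ℕ → ℤ) (ω : ℕ → ℕ) (E : Set ℕ) (d : ℕ) : Prop :=
  ∀ (k : ℕ) (s a b : Fin k → ℕ), (∀ i, 1 ≤ a i) → ∀ ε : ℝ, 0 < ε →
    ∃ K N₀ : ℕ, ∀ N : ℕ, N₀ ≤ N → N ∉ E → ∀ c : ℕ → ℝ, Minor (K * ω N) N (c d) → ∀ Y X : ℕ, Y ≤ X → X ≤ N →
      ‖∑ n ∈ Ioc Y X, Fp f s a b n * ee (∑ j ∈ range (d + 1), c j * (n : ℝ) ^ j)‖ ≤ ε * N

lemma base (f : ℕ → ℕ → ℤ) (ω : ℕ → ℕ) (E : Set ℕ) (hL : Lin f ω E) : Pd f ω E 1 := by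
  intro k s a b ha ε hε
  obtain ⟨N₀, hN₀⟩ := hL k s a b ha ε hε
  refine ⟨1, N₀, ?_⟩
  intro N hN hE c hc Y X hYX hXN
  rw [one_mul] at hc
  have h1 := hN₀ N hN hE (c 1) hc Y X hYX hXN
  have e : ∑ n ∈ Ioc Y X, Fp f s a b n * ee (∑ j ∈ range (1 + 1), c j * (n : ℝ) ^ j) =
      ee (c 0) * ∑ n ∈ Ioc Y X, (((∏ i, f (s i) (a i * n + b i) : ℤ) : ℝ) : ℂ) *
        Complex.exp (2 * Real.pi * Complex.I * (c 1 * n)) := by
    rw [Finset.mul_sum]
    apply Finset.sum_congr rfl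
    intro n _
    rw [Finset.sum_range_succ, Finset.sum_range_one, ee_add]
    have : ee (c 1 * (n : ℝ) ^ 1) = Complex.exp (2 * Real.pi * Complex.I * (c 1 * n)) := by
      unfold ee
      push_cast
      rw [pow_one]
    rw [this]
    unfold Fp
    simp only [pow_zero, mul_one]
    ring
  rw [e, norm_mul, ee_norm, one_mul]
  exact h1

lemma step (f : ℕ → ℕ → ℤ) (hf : ∀ j n, |f j n| ≤ 1) (ω : ℕ → ℕ) (E : Set ℕ) (d : ℕ) (hd : Pd f ω E d) :
    Pd f ω E (d + 1) := by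
  intro k s a b ha ε hε
  obtain ⟨H, hH⟩ := exists_nat_gt (4 / ε ^ 2)
  have hH0 : (0 : ℝ) < H := lt_of_le_of_lt (by positivity) hH
  have hH1 : 1 ≤ H := by exact_mod_cast hH0
  have ha' : ∀ i, 1 ≤ Fin.append a a i := by
    intro i
    refine Fin.addCases (fun i => ?_) (fun i => ?_) i
    · rw [Fin.append_left]; exact ha i
    · rw [Fin.append_right]; exact ha i
  have hstep : ∀ h : ℕ, ∃ K N₀ : ℕ, ∀ N : ℕ, N₀ ≤ N → N ∉ E → ∀ c : ℕ → ℝ, Minor (K * ω N) N (c d) →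
      ∀ Y X : ℕ, Y ≤ X → X ≤ N →
      ‖∑ n ∈ Ioc Y X, Fp f (Fin.append s s) (Fin.append a a) (Fin.append b (fun i => b i + a i * h)) n *
        ee (∑ j ∈ range (d + 1), c j * (n : ℝ) ^ j)‖ ≤ ε ^ 2 / 4 * N :=
    fun h => hd (k + k) _ _ _ ha' (ε ^ 2 / 4) (by positivity)
  choose K N₀ hK using hstep
  refine ⟨∑ h ∈ range H, K h * ((d + 1) * h), ∑ h ∈ range H, N₀ h + (H + 1), ?_⟩
  intro N hN hE c hc Y X hYX hXN
  have hNN : ∀ h ∈ range H, N₀ h ≤ N := by
    intro h hh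
    have := Finset.single_le_sum (f := N₀) (fun i _ => Nat.zero_le _) hh
    omega
  have hKK : ∀ h ∈ range H, K h * ((d + 1) * h) ≤ ∑ h ∈ range H, K h * ((d + 1) * h) := by
    intro h hh
    exact Finset.single_le_sum (f := fun h => K h * ((d + 1) * h)) (fun i _ => Nat.zero_le _) hh
  set g : ℕ → ℂ := fun n => Fp f s a b n * ee (∑ j ∈ range (d + 2), c j * (n : ℝ) ^ j) with hg
  have hgn : ∀ n, ‖g n‖ ≤ 1 := by
    intro n
    simp only [hg, norm_mul, ee_norm, mul_one]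
    exact Fp_norm f hf s a b n
  set G : ℕ → ℂ := fun n => if n ∈ Ioc Y X then g n else 0 with hGdef
  have hG : ∀ n, X < n → G n = 0 := by
    intro n hn
    simp only [hGdef]
    rw [if_neg]
    simp
    omega
  have hN1 : 1 ≤ N := by omega
  have hNr : (1 : ℝ) ≤ N := by exact_mod_cast hN1
  have hsum : ∑ n ∈ range (X + 1), G n = ∑ n ∈ Ioc Y X, g n := by
    simp only [hGdef]
    rw [← Finset.sum_filter]
    apply Finset.sum_congr _ (fun _ _ => rfl)
    ext n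
    rw [Finset.mem_filter, Finset.mem_range, Finset.mem_Ioc]
    omega
  have hD : ‖co G X 0‖ ≤ N := by
    unfold co
    have h1 : ∀ n ∈ range (X + 1), ‖G n * (starRingEnd ℂ) (G (n + 0))‖ ≤ if n ∈ Ioc Y X then 1 else 0 := by
      intro n _
      simp only [hGdef, add_zero]
      split_ifs
      · rw [norm_mul, RCLike.norm_conj]
        nlinarith [hgn n, norm_nonneg (g n)]
      · simp
    refine (norm_sum_le _ _).trans ((Finset.sum_le_sum h1).trans ?_)
    rw [← Finset.sum_filter, Finset.sum_const]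
    have h2 : (filter (fun n => n ∈ Ioc Y X) (range (X + 1))).card ≤ X := by
      have h5 : filter (fun n => n ∈ Ioc Y X) (range (X + 1)) ⊆ Ioc Y X := by
        intro n
        rw [Finset.mem_filter]
        exact fun h => h.2
      have h6 := Finset.card_le_card h5
      rw [Nat.card_Ioc] at h6
      omega
    have h3 : ((filter (fun n => n ∈ Ioc Y X) (range (X + 1))).card : ℝ) ≤ X := by exact_mod_cast h2
    have h4 : (X : ℝ) ≤ N := by exact_mod_cast hXN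
    simp only [nsmul_eq_mul, mul_one]
    linarith
  have hco : ∀ h, 1 ≤ h → h < H → ‖co G X h‖ ≤ ε ^ 2 / 4 * N := by
    intro h hh1 hhH
    have hmem : h ∈ range H := by simpa using hhH
    have e1 : co G X h = ∑ n ∈ Ioc Y (X - h), g n * (starRingEnd ℂ) (g (n + h)) := by
      unfold co
      have : ∀ n ∈ range (X + 1), G n * (starRingEnd ℂ) (G (n + h)) =
          if n ∈ Ioc Y (X - h) then g n * (starRingEnd ℂ) (g (n + h)) else 0 := by
        intro n _
        simp only [hGdef]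
        by_cases h1 : n ∈ Ioc Y (X - h)
        · have h2 : n ∈ Ioc Y X := by simp at h1 ⊢; omega
          have h3 : n + h ∈ Ioc Y X := by simp at h1 ⊢; omega
          rw [if_pos h1, if_pos h2, if_pos h3]
        · rw [if_neg h1]
          by_cases h2 : n ∈ Ioc Y X
          · have h3 : n + h ∉ Ioc Y X := by simp at h1 h2 ⊢; omega
            rw [if_neg h3]
            simp
          · rw [if_neg h2]
            simp
      rw [Finset.sum_congr rfl this, ← Finset.sum_filter]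
      apply Finset.sum_congr _ (fun _ _ => rfl)
      ext n
      rw [Finset.mem_filter, Finset.mem_range, Finset.mem_Ioc]
      omega
    obtain ⟨c', hc'1, hc'2⟩ := poly_diff d h c
    have e2 : ∀ n, g n * (starRingEnd ℂ) (g (n + h)) =
        Fp f (Fin.append s s) (Fin.append a a) (Fin.append b (fun i => b i + a i * h)) n *
        ee (∑ j ∈ range (d + 1), (-c' j) * (n : ℝ) ^ j) := by
      intro n
      simp only [hg]
      rw [map_mul, ee_conj, hc'2 n, ← Fp_mul]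
      have : ee (∑ j ∈ range (d + 1), (-c' j) * (n : ℝ) ^ j) =
          ee (∑ j ∈ range (d + 2), c j * (n : ℝ) ^ j) *
          ee (-(∑ j ∈ range (d + 2), c j * (n : ℝ) ^ j + ∑ j ∈ range (d + 1), c' j * (n : ℝ) ^ j)) := by
        rw [← ee_add]
        congr 1
        simp only [neg_mul, Finset.sum_neg_distrib]
        ring
      rw [this]
      ring
    rw [e1, Finset.sum_congr rfl (fun n _ => e2 n)]
    by_cases hYX' : Y ≤ X - h
    · refine hK h N (hNN h hmem) hE (fun j => -c' j) ?_ Y (X - h) hYX' (by omega)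
      have h5 : Minor (K h * ω N) N ((((d + 1) * h : ℕ) : ℝ) * c (d + 1)) := by
        refine Minor.mul (Nat.mul_pos (Nat.succ_pos d) hh1) hc ?_
        calc K h * ω N * ((d + 1) * h) = (K h * ((d + 1) * h)) * ω N := by ring
          _ ≤ _ := Nat.mul_le_mul_right _ (hKK h hmem)
      rw [← hc'1] at h5
      intro q h1 h2 a
      have := h5 q h1 h2 (-a)
      rw [Int.cast_neg] at this
      have e3 : |(q : ℝ) * -c' d - a| = |(q : ℝ) * c' d - -(a : ℝ)| := by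
        rw [← abs_neg]
        congr 1
        ring
      rw [e3]
      exact this
    · rw [Finset.Ioc_eq_empty (by omega)]
      simp
      positivity
  have hv := vdc G X H hG (ε ^ 2 / 4 * N) N (by positivity) hD hco
  rw [hsum] at hv
  have hM : ((X + H + 1 : ℕ) : ℝ) ≤ 2 * N := by
    have : X + H + 1 ≤ 2 * N := by omega
    exact_mod_cast this
  have h6 : (H : ℝ) ^ 2 * ‖∑ n ∈ Ioc Y X, g n‖ ^ 2 ≤ (H : ℝ) ^ 2 * (ε * N) ^ 2 := by
    refine hv.trans ?_
    calc ((X + H + 1 : ℕ) : ℝ) * (H * N + H ^ 2 * (ε ^ 2 / 4 * N))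
        ≤ 2 * N * (H * N + H ^ 2 * (ε ^ 2 / 4 * N)) := by gcongr
      _ ≤ (H : ℝ) ^ 2 * (ε * N) ^ 2 := by
          have h7 : 4 < H * ε ^ 2 := by
            rw [div_lt_iff₀ (by positivity)] at hH
            linarith
          have h8 : 2 * (N : ℝ) * (H * N) ≤ (H : ℝ) ^ 2 * (ε * N) ^ 2 / 2 := by
            have : 4 * ((N : ℝ) ^ 2 * H) ≤ (H * ε ^ 2) * ((N : ℝ) ^ 2 * H) := by gcongr
            nlinarith
          nlinarith
  have h7 : ‖∑ n ∈ Ioc Y X, g n‖ ^ 2 ≤ (ε * N) ^ 2 := le_of_mul_le_mul_left h6 (by positivity)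
  exact (abs_le_of_sq_le_sq' h7 (by positivity)).2

end POLYaux

open POLYaux in
theorem poly_thm : S_POLY := by
  intro f hf ω ω' E _ hω hL k s a b ha d hd ε hε
  have hall : ∀ d, 1 ≤ d → Pd f ω' E d := by
    intro d hd
    induction d, hd using Nat.le_induction with
    | base => exact base f ω' E hL
    | succ d _ ih => exact step f hf ω' E d ih
  obtain ⟨K, N₀, hK⟩ := hall d hd k s a b ha ε hε
  obtain ⟨N₁, hN₁⟩ := Filter.eventually_atTop.1 (hω K)
  refine ⟨max N₀ N₁, ?_⟩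
  intro N hN hE c hc Y X hYX hXN
  have h1 : N₀ ≤ N := (le_max_left _ _).trans hN
  have h2 : N₁ ≤ N := (le_max_right _ _).trans hN
  exact hK N h1 hE c (Minor.mono hc (hN₁ N h2)) Y X hYX hXN

end Pool.Agent.P8H6.Uni
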