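import Pool.Agent.P8H6.Uni.Defs

/-!
# Package SUP of project UNI (helper52): all partial sums, one exceptional set
-/

set_option autoImplicit false

namespace Pool.Agent.P8H6.Uni

open Finset Filter Topology
open Pool.Agent.Y958.TC
open Pool.Agent.Y958.U (LZ)
open Pool.Agent.P8H6.Irr (Flip ph psi psi_le norm_le)
open Pool.Agent.Y842.EL (LZ_mono LZ_diag')
open Pool.Agent.Y842.PH (LZ_thick)

namespace SupP

/-- the smallest value of `ω` at the places `≥ m / 2` -/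
noncomputable def low (ω : ℕ → ℕ) (m : ℕ) : ℕ := sInf (ω '' {N | m ≤ 2 * N})

lemma low_le (ω : ℕ → ℕ) (m N : ℕ) (h : m ≤ 2 * N) : low ω m ≤ ω N :=
  Nat.sInf_le ⟨N, h, rfl⟩

lemma low_tendsto (ω : ℕ → ℕ) (hω : Tendsto ω atTop atTop) : Tendsto (low ω) atTop atTop := by
  rw [tendsto_atTop_atTop]
  intro K
  obtain ⟨N₀, hN₀⟩ := (tendsto_atTop_atTop.1 hω) K
  refine ⟨2 * N₀, fun m hm => ?_⟩
  have hne : (ω '' {N | m ≤ 2 * N}).Nonempty := ⟨ω m, m, by show m ≤ 2 * m; omega, rfl⟩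
  obtain ⟨N, hN, hN2⟩ := Nat.sInf_mem hne
  have hN' : m ≤ 2 * N := hN
  unfold low
  rw [← hN2]
  exact hN₀ N (by omega)

/-- a smaller growth function, which absorbs a factor `δ` -/
noncomputable def w2 (δ : ℝ) (ω : ℕ → ℕ) (m : ℕ) : ℕ := ⌊δ * low ω m⌋₊

lemma w2_tendsto (δ : ℝ) (hδ : 0 < δ) (ω : ℕ → ℕ) (hω : Tendsto ω atTop atTop) :
    Tendsto (w2 δ ω) atTop atTop := by
  have h1 : Tendsto (fun m => δ * (low ω m : ℝ)) atTop atTop :=
    Tendsto.const_mul_atTop hδ (tendsto_natCast_atTop_atTop.comp (low_tendsto ω hω))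
  exact tendsto_nat_floor_atTop.comp h1

lemma w2_le (δ : ℝ) (hδ : 0 < δ) (ω : ℕ → ℕ) (m N : ℕ) (h : m ≤ 2 * N) : (w2 δ ω m : ℝ) ≤ δ * ω N := by
  have h1 : (w2 δ ω m : ℝ) ≤ δ * low ω m := Nat.floor_le (by positivity)
  have h2 : (low ω m : ℝ) ≤ ω N := by exact_mod_cast low_le ω m N h
  exact h1.trans (mul_le_mul_of_nonneg_left h2 hδ.le)

lemma minor_w2 (δ : ℝ) (hδ : 0 < δ) (hδ1 : δ ≤ 1) (ω : ℕ → ℕ) (m N : ℕ) (h : m ≤ 2 * N) (h' : δ * N ≤ m) (α : ℝ)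
    (hα : Minor (ω N) N α) : Minor (w2 δ ω m) m α := by
  intro q hq1 hq2 a
  have h1 := w2_le δ hδ ω m N h
  have h2 : (w2 δ ω m : ℝ) ≤ ω N := by
    refine h1.trans ?_
    have : (0 : ℝ) ≤ ω N := Nat.cast_nonneg _
    nlinarith
  have h3 : q ≤ ω N := hq2.trans (by exact_mod_cast h2)
  have h4 := hα q hq1 h3 a
  have h5 : (0 : ℝ) ≤ |(q : ℝ) * α - a| := abs_nonneg _
  calc (w2 δ ω m : ℝ) ≤ δ * ω N := h1
    _ < δ * (N * |(q : ℝ) * α - a|) := mul_lt_mul_of_pos_left h4 hδ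
    _ = (δ * N) * |(q : ℝ) * α - a| := by ring
    _ ≤ m * |(q : ℝ) * α - a| := mul_le_mul_of_nonneg_right h' h5

section sup

variable {k : ℕ} (f : Fin k → ℕ → ℤ) (a b : Fin k → ℕ) (θ : ℝ)

/-- all partial sums -/
lemma one_sup (hone : S_ONE) (hf : ∀ i, Flip (f i)) (ha : ∀ i, 1 ≤ a i) (ω : ℕ → ℕ) (hω : Tendsto ω atTop atTop)
    (δ : ℝ) (hδ : 0 < δ) (hδ1 : δ ≤ 1) :
    LZ {N : ℕ | ∃ α : ℝ, Minor (ω N) N α ∧ ∃ y : ℕ, y ≤ N ∧ δ * N < |∑ n ∈ range y, psi f a b α θ n|} := by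
  have h0 := hone k f a b hf ha (w2 δ ω) (w2_tendsto δ hδ ω hω) θ (δ / 8) (by positivity)
  have h1 := LZ_thick _ h0 (δ / 2) (by positivity) (by linarith)
  refine LZ_mono ?_ h1
  rintro N ⟨α, hα, y, hy1, hy2⟩
  have hle : ∀ n, |psi f a b α θ n| ≤ 1 := psi_le a b α θ fun i n => (hf i).bd n
  have hN0 : (0 : ℝ) < N := by
    rcases Nat.eq_zero_or_pos N with h | h
    · subst h
      have : y = 0 := by omega
      subst this
      simp at hy2
    · exact_mod_cast h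
  have hsum : |∑ n ∈ range y, psi f a b α θ n| ≤ y := by
    refine (abs_sum_le_sum_abs _ _).trans ((sum_le_sum fun n _ => hle n).trans (le_of_eq ?_))
    simp
  have hyd : δ * N < y := hy2.trans_le hsum
  refine ⟨y, by nlinarith, hy1, fun m hm1 hm2 => ?_⟩
  have hyN : (y : ℝ) ≤ N := by exact_mod_cast hy1
  have hmy : (y : ℝ) ≤ m := by exact_mod_cast hm1
  have hm0 : (0 : ℝ) < m := by nlinarith
  have hm3 : (m : ℝ) ≤ 2 * N := by nlinarith
  have hm3' : m ≤ 2 * N := by exact_mod_cast hm3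
  refine ⟨α, minor_w2 δ hδ hδ1 ω m N hm3' (by linarith) α hα, ?_⟩
  have h3 : ∑ n ∈ range m, psi f a b α θ n = ∑ n ∈ range y, psi f a b α θ n + ∑ n ∈ Ico y m, psi f a b α θ n :=
    (sum_range_add_sum_Ico _ hm1).symm
  have h4 : |∑ n ∈ Ico y m, psi f a b α θ n| ≤ (m : ℝ) - y := by
    refine (abs_sum_le_sum_abs _ _).trans ((sum_le_sum fun n _ => hle n).trans (le_of_eq ?_))
    rw [sum_const, Nat.card_Ico, nsmul_eq_mul, mul_one, Nat.cast_sub hm1]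
  have h5 : δ / 2 * N ≤ |∑ n ∈ range m, psi f a b α θ n| := by
    have h6 : ∑ n ∈ range y, psi f a b α θ n =
        ∑ n ∈ range m, psi f a b α θ n - ∑ n ∈ Ico y m, psi f a b α θ n := by rw [h3]; ring
    have h7 := abs_sub (∑ n ∈ range m, psi f a b α θ n) (∑ n ∈ Ico y m, psi f a b α θ n)
    rw [← h6] at h7
    linarith
  unfold Av
  rw [abs_div, Nat.abs_cast, lt_div_iff₀ hm0]
  nlinarith

end sup

end SupP

open SupP in
/-- **package SUP** -/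
theorem sup_thm : S_SUP := by
  intro hone f hf ω hω
  obtain ⟨E, hE, h1⟩ := LZ_diag' (ι := (ℕ × Bool) × (Σ k : ℕ, (Fin k → ℕ × ℕ × ℕ)))
    (fun z => {N : ℕ | ∃ α : ℝ, Minor (ω N) N α ∧ ∃ y : ℕ, y ≤ N ∧ 1 / ((z.1.1 : ℝ) + 1) * N <
      |∑ n ∈ range y, psi (fun i => f (z.2.2 i).1) (fun i => (z.2.2 i).2.1 + 1) (fun i => (z.2.2 i).2.2) α
        (if z.1.2 = true then 0 else -(1 / 4)) n|})
    (fun z => one_sup _ _ _ _ hone (fun i => hf _) (fun i => by omega) ω hω _ (by positivity) (by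
      rw [div_le_one (by positivity)]
      have : (0 : ℝ) ≤ z.1.1 := Nat.cast_nonneg _
      linarith))
  refine ⟨E, hE, fun k s a b ha ε hε => ?_⟩
  obtain ⟨j, hj⟩ := exists_nat_gt (8 / ε)
  obtain ⟨N₁, hN₁⟩ := h1 ((j, true), ⟨k, fun i => (s i, a i - 1, b i)⟩)
  obtain ⟨N₂, hN₂⟩ := h1 ((j, false), ⟨k, fun i => (s i, a i - 1, b i)⟩)
  obtain ⟨N₃, hN₃⟩ := exists_nat_ge (8 / ε)
  refine ⟨N₁ + N₂ + N₃, fun N hN hNE α hα Y X hYX hXN => ?_⟩
  have hN3 : 8 / ε ≤ N := hN₃.trans (by exact_mod_cast (by omega : N₃ ≤ N))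
  have ha' : ∀ i, a i - 1 + 1 = a i := fun i => by
    have := ha i
    omega
  have hj0 : (0 : ℝ) < (j : ℝ) + 1 := by positivity
  have hj1 : 1 / ((j : ℝ) + 1) ≤ ε / 8 := by
    rw [div_le_iff₀ hj0]
    have h3 : 8 / ε ≤ (j : ℝ) + 1 := by linarith
    rw [div_le_iff₀ hε] at h3
    linarith
  have h2 := norm_le (fun i => f (s i)) a b α (fun i => hf _) X Y hYX (1 / ((j : ℝ) + 1) * N) (by
    intro θ' hθ' y hy
    by_contra hcon
    rw [not_le] at hcon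
    apply hNE
    rcases hθ' with rfl | rfl
    · apply hN₁ N (by omega)
      refine ⟨α, hα, y, by omega, ?_⟩
      simp only [ha', if_true]
      exact hcon
    · apply hN₂ N (by omega)
      refine ⟨α, hα, y, by omega, ?_⟩
      simp only [ha', Bool.false_eq_true, if_false]
      exact hcon)
  refine h2.trans ?_
  have h3 : 1 / ((j : ℝ) + 1) * N ≤ ε / 8 * N := mul_le_mul_of_nonneg_right hj1 (Nat.cast_nonneg N)
  have h4 : 8 ≤ ε * N := by
    rw [div_le_iff₀ hε] at hN3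
    linarith
  linarith

end Pool.Agent.P8H6.Uni
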