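import Pool.Agent.P8H6.Uni.Asm
import Pool.Agent.P8H6.Uni.AllP
import Pool.Agent.P8H6.Uni.Dig
import Pool.Agent.P8H6.Uni.Sup
import Pool.Agent.P8H6.Uni.Poly
import Pool.Agent.P8H93.Uni.EQ

/-!
# Uniform minor arc bounds: the final forms
-/

set_option autoImplicit false

namespace Pool.Agent.P8H6.Uni

open Finset Filter Topology
open Pool.Agent.Y958.U (LZ)
open Pool.Agent.P8H6.Irr (Flip)

theorem s_one : S_ONE := one_thm eq_thm dig_thm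

lemma sqrt_tendsto {ω : ℕ → ℕ} (hω : Tendsto ω atTop atTop) : Tendsto (fun N => Nat.sqrt (ω N)) atTop atTop := by
  rw [tendsto_atTop_atTop]
  intro b
  obtain ⟨N₀, hN₀⟩ := tendsto_atTop_atTop.1 hω (b * b)
  exact ⟨N₀, fun N hN => Nat.le_sqrt.2 (hN₀ N hN)⟩

lemma sqrt_small {ω : ℕ → ℕ} (hω : Tendsto ω atTop atTop) (K : ℕ) :
    ∀ᶠ N in atTop, K * Nat.sqrt (ω N) ≤ ω N := by
  filter_upwards [(sqrt_tendsto hω).eventually_ge_atTop K] with N hN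
  exact (Nat.mul_le_mul_right _ hN).trans (Nat.sqrt_le (ω N))

lemma Minor_anti {C C' N : ℕ} (h : C' ≤ C) {α : ℝ} (hα : Minor C N α) : Minor C' N α := by
  intro q hq1 hq2 a
  have h1 := hα q hq1 (hq2.trans h) a
  have h2 : (C' : ℝ) ≤ C := by exact_mod_cast h
  linarith

/-- all real polynomials with minor leading coefficient -/
theorem main_pol (f : ℕ → ℕ → ℤ) (hf : ∀ j, Flip (f j)) (ω : ℕ → ℕ) (hω : Tendsto ω atTop atTop) :
    ∃ E : Set ℕ, LZ E ∧ Pol f (fun N => Nat.sqrt (ω N)) E ∧ Pol f ω E := by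
  have h1 := sqrt_tendsto hω
  have h2 := sqrt_tendsto h1
  obtain ⟨E, hE, h3⟩ := sup_thm s_one f hf (fun N => Nat.sqrt (Nat.sqrt (ω N))) h2
  have h4 := poly_thm f (fun j n => (hf j).bd n) (fun N => Nat.sqrt (ω N)) _ E h2 (sqrt_small h1) h3
  refine ⟨E, hE, h4, ?_⟩
  intro k s a b ha d hd ε hε
  obtain ⟨N₀, h5⟩ := h4 k s a b ha d hd ε hε
  refine ⟨N₀, fun N hN hNE c hc => h5 N hN hNE c (Minor_anti (Nat.sqrt_le_self _) hc)⟩

/-- the product as a complex sequence -/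
noncomputable def Pc (f : ℕ → ℕ → ℤ) {k : ℕ} (s a b : Fin k → ℕ) (n : ℕ) : ℂ :=
  ((∏ i, f (s i) (a i * n + b i) : ℤ) : ℂ)

lemma Pc_le (f : ℕ → ℕ → ℤ) (hf : ∀ j n, |f j n| ≤ 1) {k : ℕ} (s a b : Fin k → ℕ) (n : ℕ) :
    ‖Pc f s a b n‖ ≤ 1 := by
  unfold Pc
  rw [Complex.norm_intCast]
  have h : |∏ i, f (s i) (a i * n + b i)| ≤ 1 := by
    rw [abs_prod]
    exact prod_le_one (fun _ _ => abs_nonneg _) (fun i _ => hf _ _)
  exact_mod_cast h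

/-- all real frequencies, for the products with small sums over residue classes -/
theorem main_all (f : ℕ → ℕ → ℤ) (hf : ∀ j, Flip (f j)) (E₁ : Set ℕ) (hE₁ : LZ E₁) :
    ∃ E : Set ℕ, LZ E ∧ ∀ (k : ℕ) (s a b : Fin k → ℕ), (∀ i, 1 ≤ a i) → SmallAP (Pc f s a b) E₁ →
      ∀ ε : ℝ, 0 < ε → ∃ N₀ : ℕ, ∀ N : ℕ, N₀ ≤ N → N ∉ E → ∀ α : ℝ, ∀ Y X : ℕ, Y ≤ X → X ≤ N →
        ‖∑ n ∈ Ioc Y X, Pc f s a b n * ex (α * n)‖ ≤ ε * N := by
  classical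
  -- enumeration of the products
  set F : ℕ → ℕ → ℂ := fun i n => match (Encodable.decode i : Option (Σ k : ℕ, (Fin k → ℕ × ℕ × ℕ))) with
    | some z => Pc f (fun j => (z.2 j).1) (fun j => (z.2 j).2.1) (fun j => (z.2 j).2.2) n
    | none => 0 with hF
  have hF1 : ∀ i n, ‖F i n‖ ≤ 1 := by
    intro i n
    rw [hF]
    simp only
    split
    · exact Pc_le f (fun j n => (hf j).bd n) _ _ _ n
    · simp
  obtain ⟨w, hw, h1⟩ := all_thm F hF1 E₁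
  obtain ⟨E₂, hE₂, h2⟩ := sup_thm s_one f hf w hw
  refine ⟨E₁ ∪ E₂, Pool.Agent.Y842.EL.LZ_union hE₁ hE₂, fun k s a b ha hS ε hε => ?_⟩
  have hFi : F (Encodable.encode (⟨k, fun j => (s j, a j, b j)⟩ : Σ k : ℕ, (Fin k → ℕ × ℕ × ℕ))) = Pc f s a b := by
    funext n
    rw [hF]
    simp only [Encodable.encodek]
  have h3 := h1 (Encodable.encode (⟨k, fun j => (s j, a j, b j)⟩ : Σ k : ℕ, (Fin k → ℕ × ℕ × ℕ)))
  rw [hFi] at h3
  obtain ⟨N₁, h4⟩ := h3 hS ε hε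
  obtain ⟨N₂, h5⟩ := h2 k s a b ha ε hε
  refine ⟨N₁ + N₂, fun N hN hNE α Y X hYX hXN => ?_⟩
  rw [Set.mem_union, not_or] at hNE
  by_cases hα : Minor (w N) N α
  · have h6 := h5 N (by omega) hNE.2 α hα Y X hYX hXN
    refine le_trans (le_of_eq ?_) h6
    congr 1
    refine sum_congr rfl fun n _ => ?_
    unfold Pc ex
    push_cast
    rfl
  · exact h4 N (by omega) hNE.1 α hα Y X hYX hXN

end Pool.Agent.P8H6.Uni
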