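import Pool.Agent.P8H6.Uni.Dec

/-!
# One scale, for a moving cocycle
-/

set_option autoImplicit false

namespace Pool.Agent.P8H6.Uni

open Finset Filter Topology
open Pool.Agent.TH112.BL (Bd QD win)
open Pool.Agent.Y958.TC
open Pool.Agent.P8H6.Irr (Flip ph ph_le ph_int ph_lip psi psi_le FF FF_le mul_le' sg_cast)

/-- the mean over the residues vanishes -/
lemma ph_sumL (θ : ℝ) (p D L : ℕ) (hp : 2 ≤ p) (hL : Nat.Coprime L p) :
    ∑ r ∈ range p, ph θ (((L * (r + D) : ℕ) : ℝ) / p) = 0 := by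
  have hp0 : (p : ℝ) ≠ 0 := by
    have : (2 : ℝ) ≤ p := by exact_mod_cast hp
    linarith
  have hpc : (p : ℂ) ≠ 0 := by exact_mod_cast hp0
  set ζ : ℂ := Complex.exp (2 * Real.pi * Complex.I / p) with hζ
  have hprim : IsPrimitiveRoot (ζ ^ L) p := (Complex.isPrimitiveRoot_exp p (by omega)).pow_of_coprime L hL
  have h1 : ∑ r ∈ range p, (ζ ^ L) ^ r = 0 := hprim.geom_sum_eq_zero (by omega)
  have h2 : ∀ r : ℕ, (ph θ (((L * (r + D) : ℕ) : ℝ) / p) : ℝ) =
      ((ζ ^ L) ^ r * Complex.exp (2 * Real.pi * Complex.I * (L * D / p + θ))).re := by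
    intro r
    have e1 : (ζ ^ L) ^ r * Complex.exp (2 * Real.pi * Complex.I * (L * D / p + θ)) =
        Complex.exp (((2 * Real.pi * (((L * (r + D) : ℕ) : ℝ) / p + θ) : ℝ) : ℂ) * Complex.I) := by
      rw [hζ, ← pow_mul, ← Complex.exp_nat_mul, ← Complex.exp_add]
      congr 1
      push_cast
      ring
    rw [e1, Complex.exp_ofReal_mul_I_re]
    rfl
  rw [sum_congr rfl fun r _ => h2 r, ← Complex.re_sum, ← sum_mul, h1]
  simp

section one

variable {k : ℕ} (f : Fin k → ℕ → ℤ) (a b : Fin k → ℕ)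

/-- the signs of the functions -/
noncomputable def sl (A : ℕ) (n : ℕ) : Fin k → Fin A → SignType := fun i j => SignType.sign (f i (a i * n + j))

/-- reading a value in a window -/
lemma read_s (hb : ∀ i n, |f i n| ≤ 1) (ha : ∀ i, 1 ≤ a i) {A : ℕ} (hA : ∀ i, a i ≤ A) {W n n' : ℕ}
    (h : win W (sl f a A) n = win W (sl f a A) n') (i : Fin k) (s m : ℕ) (hs : s + m < W) :
    f i (a i * (n + s) + m) = f i (a i * (n' + s) + m) := by
  have ha' := ha i
  have hq : m / a i ≤ m := Nat.div_le_self _ _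
  have h1 := congrFun h ⟨s + m / a i, by omega⟩
  unfold win sl at h1
  have h2 := congrFun (congrFun h1 i) ⟨m % a i, (Nat.mod_lt _ (by omega)).trans_le (hA i)⟩
  simp only at h2
  have h3 := sg_cast (hb i) h2
  have e : ∀ x : ℕ, a i * (x + (s + m / a i)) + m % a i = a i * (x + s) + m := by
    intro x
    have := Nat.div_add_mod m (a i)
    calc a i * (x + (s + m / a i)) + m % a i = a i * (x + s) + (a i * (m / a i) + m % a i) := by ring
      _ = _ := by rw [this]
  rw [e, e] at h3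
  exact h3

variable (x : ℕ → ℝ) (L : ℕ) (θ : ℝ)

/-- with the phase read off the cocycle -/
noncomputable def GX (p n : ℕ) : ℝ := FF f a b p n * ph θ (((L * ⌊x n⌋₊ : ℕ) : ℝ) / p)

lemma GX_le (hb : ∀ i n, |f i n| ≤ 1) (p n : ℕ) : |GX f a b x L θ p n| ≤ 1 :=
  mul_le' (FF_le a b hb _ _) (ph_le _ _)

/-- one scale -/
lemma one_scale_x (μ : NM) (hb : ∀ i n, |f i n| ≤ 1) (ha : ∀ i, 1 ≤ a i) {A : ℕ} (hA : ∀ i, a i ≤ A)
    (c : ℕ) (hc2 : 2 ≤ c) (hc : ∀ i, 2 * (1 + b i) ≤ c) {ε : ℝ} (hε : 0 < ε) (i : ℕ) (hi1 : 1 ≤ i)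
    [NeZero (pq i (i + 1))] (hL : ∀ p ∈ QD i (i + 1), Nat.Coprime L p)
    (h2 : (i : ℝ) / 2 ^ i < (ε / 30) * ε / 3)
    (hD : Df μ (la (sl f a A) x (pq i (i + 1))) (bx x) (some ()) c i ≤ ((ε / 30) * ε / 3) * 2 ^ i / i) :
    ∑ p ∈ QD i (i + 1), Real.log p / 2 ^ i *
      |μ.m (fun n => GX f a b x L θ p (n + (p - n % p) % p))| ≤ ε := by
  classical
  set P := pq i (i + 1) with hP
  set sg : ℕ → ℝ := fun p => if 0 ≤ μ.m (fun n => GX f a b x L θ p (n + (p - n % p) % p)) then 1 else -1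
    with hsg
  have hsg1 : ∀ p, |sg p| ≤ 1 := by
    intro p; rw [hsg]; simp only; split_ifs <;> simp
  have hsg2 : ∀ p, sg p * μ.m (fun n => GX f a b x L θ p (n + (p - n % p) % p)) =
      |μ.m (fun n => GX f a b x L θ p (n + (p - n % p) % p))| := by
    intro p
    rw [hsg]
    simp only
    split_ifs with h
    · rw [one_mul, abs_of_nonneg h]
    · rw [abs_of_neg (not_le.1 h)]; ring
  set t : ℕ → ℕ → ℕ := fun p n => (p - n % p) % p with ht
  set D : ℕ → ℕ → ℕ := fun p n => ∑ j ∈ range (t p n), dx P x (n + j) with hDd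
  set Ψ : ℕ → ℕ → ℕ → ℝ := fun p n r =>
    sg p * (FF f a b p (n + t p n) * ph θ (((L * (r + D p n) : ℕ) : ℝ) / p)) with hΨd
  have hΨ : ∀ p n r, |Ψ p n r| ≤ 1 := by
    intro p n r
    rw [hΨd]
    simp only
    exact mul_le' (hsg1 p) (mul_le' (FF_le a b hb _ _) (ph_le _ _))
  have hp2 : ∀ p ∈ QD i (i + 1), p ≤ 2 ^ (i + 1) := by
    intro p hp
    unfold QD at hp
    rw [mem_filter, mem_Ioc] at hp
    exact hp.1.2
  have key := scale μ (la (sl f a A) x P) (bx x) (some ()) c hε rfl i hi1 h2 hD Ψ hΨ (by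
    intro p hp n n' r hw hres
    have hpp := (QDp hp).pos
    have h3 : n % p = n' % p := hres p hp none (by simp)
    have h4 : t p n = t p n' := by
      rw [ht]
      simp only
      rw [h3]
    have h5 : t p n' < p := Nat.mod_lt _ hpp
    have hple := hp2 p hp
    have hW : ∀ y : ℕ, 2 * (1 + y) ≤ c → t p n' + p * y < c * 2 ^ i := by
      intro y hy
      calc t p n' + p * y < p + p * y := by omega
        _ = p * (1 + y) := by ring
        _ ≤ 2 ^ (i + 1) * (1 + y) := Nat.mul_le_mul_right _ hple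
        _ = (2 * (1 + y)) * 2 ^ i := by rw [pow_succ]; ring
        _ ≤ c * 2 ^ i := Nat.mul_le_mul_right _ hy
    have hw1 : win (c * 2 ^ i) (sl f a A) n = win (c * 2 ^ i) (sl f a A) n' := by
      funext j
      have := congrFun hw j
      unfold win la at this
      unfold win
      exact congrArg Prod.fst this
    have hw2 : ∀ j < c * 2 ^ i, dx P x (n + j) = dx P x (n' + j) := by
      intro j hj
      have := congrFun hw ⟨j, hj⟩
      unfold win at this
      have h6 := congrArg (fun l => (l.2 : ℕ)) this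
      simp only [la_snd] at h6
      exact h6
    have e1 : FF f a b p (n + t p n) = FF f a b p (n' + t p n') := by
      unfold FF
      refine prod_congr rfl fun j _ => ?_
      rw [h4, read_s f a hb ha hA hw1 j (t p n') (p * b j) (hW _ (hc j))]
    have e2 : D p n = D p n' := by
      rw [hDd]
      simp only
      rw [h4]
      refine sum_congr rfl fun j hj => hw2 j ?_
      have h6 := hW 0 (by omega)
      rw [mem_range] at hj
      omega
    rw [hΨd]
    simp only
    rw [e1, e2])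
  -- the average over the residues vanishes, the value is `GX`
  have hval : ∀ p ∈ QD i (i + 1), ∀ n, Ψ p n (bx x (some ()) n % p) - (∑ r ∈ range p, Ψ p n r) / p =
      sg p * GX f a b x L θ p (n + t p n) := by
    intro p hp n
    have hpp := QDp hp
    have hp0 : (p : ℝ) ≠ 0 := by
      have := hpp.pos
      positivity
    have hpP : p ∣ P := Finset.dvd_prod_of_mem _ hp
    have e1 : ∑ r ∈ range p, Ψ p n r = 0 := by
      rw [hΨd]
      simp only
      rw [← mul_sum, ← mul_sum, ph_sumL θ p (D p n) L hpp.two_le (hL p hp), mul_zero, mul_zero]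
    rw [e1, zero_div, sub_zero]
    rw [hΨd]
    simp only
    unfold GX
    congr 2
    -- the residues agree
    have h3 := cocm (la (sl f a A) x P) (bx x) (dd := dl P) (bx_succ (sl f a A) x P) (some ()) n (t p n)
    have h4 : ∑ j ∈ range (t p n), dl P (some ()) (la (sl f a A) x P (n + j)) = D p n := by
      rw [hDd]
      refine sum_congr rfl fun j _ => ?_
      exact la_snd (sl f a A) x P (n + j)
    rw [h4] at h3
    have h5 : ⌊x (n + t p n)⌋₊ ≡ ⌊x n⌋₊ + D p n [MOD p] := Nat.ModEq.of_dvd hpP h3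
    have h6 : L * ⌊x (n + t p n)⌋₊ ≡ L * (⌊x n⌋₊ % p + D p n) [MOD p] := by
      refine (h5.mul_left L).trans ?_
      exact (Nat.ModEq.add_right _ (Nat.mod_modEq _ _).symm).mul_left L
    have h7 : ∀ u v : ℕ, u ≡ v [MOD p] → ph θ ((u : ℝ) / p) = ph θ ((v : ℝ) / p) := by
      intro u v huv
      obtain ⟨z, hz⟩ := (Nat.modEq_iff_dvd.1 huv)
      have e4 : (v : ℝ) / p = (u : ℝ) / p + ((z : ℤ) : ℝ) := by
        have h8 : (v : ℝ) - u = p * z := by exact_mod_cast hz
        field_simp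
        linarith
      rw [e4, ph_int]
    exact h7 _ _ h6.symm
  have hBG : ∀ p ∈ QD i (i + 1), Bd (fun n => sg p * GX f a b x L θ p (n + t p n)) := by
    intro p _
    refine ⟨1, fun n => ?_⟩
    exact mul_le' (hsg1 p) (mul_le' (FF_le a b hb _ _) (ph_le _ _))
  have hsumB := m_sum μ (QD i (i + 1)) (fun p => Real.log p / 2 ^ i)
    (fun p n => sg p * GX f a b x L θ p (n + t p n)) hBG
  have h5 := μ.abs_le hsumB.1
  have e6 : (fun n => |∑ p ∈ QD i (i + 1), Real.log p / 2 ^ i *
      (Ψ p n (bx x (some ()) n % p) - (∑ r ∈ range p, Ψ p n r) / p)|) =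
      fun n => |∑ p ∈ QD i (i + 1), Real.log p / 2 ^ i * (sg p * GX f a b x L θ p (n + t p n))| := by
    funext n
    congr 1
    refine sum_congr rfl fun p hp => ?_
    rw [hval p hp n]
  rw [e6] at key
  refine le_trans ?_ (h5.trans key)
  refine le_trans ?_ (le_abs_self _)
  rw [hsumB.2]
  apply le_of_eq
  refine sum_congr rfl fun p _ => ?_
  congr 1
  rw [← hsg2 p]
  exact (μ.smul (sg p) (fun n => GX f a b x L θ p (n + t p n))
    ⟨1, fun n => mul_le' (FF_le a b hb _ _) (ph_le _ _)⟩).symm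

end one

end Pool.Agent.P8H6.Uni
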