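import Pool.Agent.P8H6.Uni.Main
import Pool.Agent.P8H6.Irr.Final

/-!
# Products of linear factors over the integers, polynomial phases
-/

set_option autoImplicit false

namespace Pool.Agent.P8H6.Uni

open Finset Filter Topology Polynomial
open Pool.Agent.Y958.U (LZ)
open Pool.Agent.P8H6.Irr (Flip lamN lamZ lamN_flip lamZ_abs lamZ_prod lamZ_eq lin_abs)

/-- the leading coefficient after a linear substitution -/
lemma coeff_lin (P : ℝ[X]) (d : ℕ) (hP : P.natDegree ≤ d) (u v : ℝ) :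
    (P.comp (C u * X + C v)).coeff d = P.coeff d * u ^ d ∧ (P.comp (C u * X + C v)).natDegree ≤ d := by
  have hdeg : (C u * X + C v : ℝ[X]).natDegree ≤ 1 := natDegree_linear_le
  have h1 : P.comp (C u * X + C v) = ∑ j ∈ range (d + 1), C (P.coeff j) * (C u * X + C v) ^ j := by
    conv_lhs => rw [P.as_sum_range' (d + 1) (by omega)]
    rw [Polynomial.sum_comp]
    refine sum_congr rfl fun j _ => ?_
    rw [monomial_comp]
  constructor
  · rw [h1, finsetSum_coeff]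
    rw [sum_eq_single d]
    · rw [coeff_C_mul]
      congr 1
      have h2 := coeff_pow_of_natDegree_le (m := d) hdeg
      rw [mul_one] at h2
      rw [h2]
      simp
    · intro j hj hjd
      rw [coeff_C_mul]
      have h2 : ((C u * X + C v : ℝ[X]) ^ j).natDegree < d := by
        refine lt_of_le_of_lt (natDegree_pow_le_of_le j hdeg) ?_
        rw [mem_range] at hj
        omega
      rw [coeff_eq_zero_of_natDegree_lt h2, mul_zero]
    · intro h
      exact absurd (mem_range.2 (Nat.lt_succ_self d)) h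
  · refine natDegree_comp_le.trans ?_
    calc P.natDegree * (C u * X + C v : ℝ[X]).natDegree ≤ d * 1 := Nat.mul_le_mul hP hdeg
      _ = d := mul_one d

lemma Minor_mul {C C' N : ℕ} {α : ℝ} (h : Minor C N α) (Q : ℤ) (hQ : Q ≠ 0) (hC : C' * Q.natAbs ≤ C)
    (hC' : C' ≤ C) : Minor C' N (α * Q) := by
  intro q hq1 hq2 a
  have hQ1 : 1 ≤ Q.natAbs := Int.natAbs_pos.2 hQ
  have h1 := h (q * Q.natAbs) (Nat.mul_pos hq1 hQ1) ((Nat.mul_le_mul_right _ hq2).trans hC) (a * Q.sign)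
  have h2 : |((q * Q.natAbs : ℕ) : ℝ) * α - ((a * Q.sign : ℤ) : ℝ)| = |q * (α * Q) - a| := by
    have h3 : (Q : ℝ) = ((Q.sign : ℤ) : ℝ) * ((Q.natAbs : ℕ) : ℝ) := by
      have := Int.sign_mul_natAbs Q
      have h4 : ((Q.sign * (Q.natAbs : ℤ) : ℤ) : ℝ) = (Q : ℝ) := by rw [this]
      rw [← h4, Int.cast_mul, Int.cast_natCast]
    have h4 : |((Q.sign : ℤ) : ℝ)| = 1 := by
      rcases lt_or_gt_of_ne hQ with h5 | h5
      · rw [Int.sign_eq_neg_one_of_neg h5]
        norm_num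
      · rw [Int.sign_eq_one_of_pos h5]
        norm_num
    have h5 : ((Q.sign : ℤ) : ℝ) * ((Q.sign : ℤ) : ℝ) = 1 := by
      rw [← abs_mul_abs_self, h4, one_mul]
    have h6 : (q : ℝ) * (α * Q) - a = ((Q.sign : ℤ) : ℝ) * (((q * Q.natAbs : ℕ) : ℝ) * α - ((a * Q.sign : ℤ) : ℝ)) := by
      rw [h3]
      push_cast
      have h7 : (a : ℝ) = a * (((Q.sign : ℤ) : ℝ) * ((Q.sign : ℤ) : ℝ)) := by rw [h5, mul_one]
      conv_lhs => rw [h7]
      ring
    rw [h6, abs_mul, h4, one_mul]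
  rw [h2] at h1
  have h3 : (C' : ℝ) ≤ C := by exact_mod_cast hC'
  linarith

/-- the summand -/
noncomputable def smp {k : ℕ} (a b : Fin k → ℤ) (P : ℝ[X]) (w : ℤ) : ℂ :=
  (lamZ (∏ i, (a i * w + b i)) : ℂ) * ex (P.eval (w : ℝ))

lemma smp_le {k : ℕ} (a b : Fin k → ℤ) (P : ℝ[X]) (w : ℤ) : ‖smp a b P w‖ ≤ 1 := by
  unfold smp
  rw [norm_mul, norm_ex, mul_one, Complex.norm_intCast]
  exact_mod_cast lamZ_abs _

/-- **the positive side** -/
theorem pos_pol (ω ω' : ℕ → ℕ) (hωω : ∀ K : ℕ, ∀ᶠ N in atTop, K * ω' N ≤ ω N) (E : Set ℕ)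
    (hE : Pol (fun _ => lamN) ω' E) (k : ℕ) (a b : Fin k → ℤ) (ha : ∀ i, a i ≠ 0) (q : ℕ) (hq : 1 ≤ q) (r : ℤ)
    (d : ℕ) (hd : 1 ≤ d) (ε : ℝ) (hε : 0 < ε) :
    ∃ N₀ : ℕ, ∀ N : ℕ, N₀ ≤ N → N ∉ E → ∀ P : ℝ[X], P.natDegree ≤ d → Minor (ω N) N (P.coeff d) → ∀ x ≤ N,
      ‖∑ w ∈ (Icc 1 x).filter (fun w : ℕ => (w : ℤ) ≡ r [ZMOD q]), smp a b P w‖ ≤ ε * N := by
  classical
  -- the first element
  set V : ℕ := 1 + ∑ i, (b i).natAbs with hV
  have hbV : ∀ i, |b i| + 1 ≤ (V : ℤ) := by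
    intro i
    have := single_le_sum (f := fun i => (b i).natAbs) (fun _ _ => Nat.zero_le _) (mem_univ i)
    have h2 : |b i| = ((b i).natAbs : ℤ) := Int.abs_eq_natAbs _
    rw [h2]
    omega
  have hqZ : (0 : ℤ) < q := by exact_mod_cast hq
  set w₀ : ℕ := V + ((r - V) % q).toNat with hw₀
  have hmod0 : 0 ≤ (r - V) % q := Int.emod_nonneg _ hqZ.ne'
  have hmod1 : (r - V) % q < q := Int.emod_lt_of_pos _ hqZ
  have hw₀Z : (w₀ : ℤ) = V + (r - V) % q := by
    rw [hw₀]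
    push_cast
    rw [Int.toNat_of_nonneg hmod0]
  have hw₀r : (w₀ : ℤ) ≡ r [ZMOD q] := by
    rw [hw₀Z]
    have h1 : (r - V) % q ≡ r - V [ZMOD q] := Int.mod_modEq _ _
    have h2 := h1.add_left (V : ℤ)
    rwa [add_sub_cancel] at h2
  have hw₀V : V ≤ w₀ := by omega
  have hw₀q : w₀ < V + q := by omega
  have hbw : ∀ i, |b i| + 1 ≤ (w₀ : ℤ) := fun i => (hbV i).trans (by exact_mod_cast hw₀V)
  -- the functions
  set A : Fin k → ℕ := fun i => (a i).natAbs * q with hA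
  set B : Fin k → ℕ := fun i => (a i * w₀ + b i).natAbs with hB
  have hA1 : ∀ i, 1 ≤ A i := fun i => Nat.mul_pos (Int.natAbs_pos.2 (ha i)) hq
  obtain ⟨N₁, h1⟩ := hE k (fun _ => 0) A B hA1 d hd (ε / 4) (by positivity)
  obtain ⟨N₃, hN₃⟩ := eventually_atTop.1 (hωω (q ^ d + 1))
  obtain ⟨N₂, hN₂⟩ := exists_nat_ge (4 * (V + q + 1) / ε)
  refine ⟨N₁ + N₂ + N₃, fun N hN hNE P hPd hPm x hx => ?_⟩
  -- the polynomial
  set R : ℝ[X] := P.comp (C (q : ℝ) * X + C (w₀ : ℝ)) with hR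
  obtain ⟨hR1, hR2⟩ := coeff_lin P d hPd (q : ℝ) (w₀ : ℝ)
  rw [← hR] at hR1 hR2
  have hRm : Minor (ω' N) N (R.coeff d) := by
    rw [hR1]
    have h2 := hN₃ N (by omega)
    have h3 := Minor_mul hPm ((q ^ d : ℕ) : ℤ) (by
      have : 0 < q ^ d := by positivity
      exact_mod_cast this.ne') (C' := ω' N) (by
      rw [Int.natAbs_natCast]
      have h4 : (q ^ d + 1) * ω' N = ω' N * q ^ d + ω' N := by ring
      omega) (by
      have h4 : (q ^ d + 1) * ω' N = ω' N * q ^ d + ω' N := by ring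
      omega)
    have h4 : ((((q ^ d : ℕ) : ℤ)) : ℝ) = (q : ℝ) ^ d := by push_cast; ring
    rw [h4] at h3
    exact h3
  have hReval : ∀ n : ℕ, P.eval (((w₀ + q * n : ℕ) : ℤ) : ℝ) = ∑ j ∈ range (d + 1), R.coeff j * (n : ℝ) ^ j := by
    intro n
    rw [← eval_eq_sum_range' (by omega : R.natDegree < d + 1), hR, eval_comp]
    congr 1
    simp only [eval_add, eval_mul, eval_C, eval_X]
    push_cast
    ring
  -- the terms
  have hterm : ∀ n : ℕ, smp a b P ((w₀ + q * n : ℕ) : ℤ) =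
      (((∏ i, (fun _ => lamN) ((fun _ => 0) i : ℕ) (A i * n + B i) : ℤ) : ℝ) : ℂ) *
      Complex.exp (2 * Real.pi * Complex.I * ((∑ j ∈ range (d + 1), R.coeff j * (n : ℝ) ^ j : ℝ) : ℂ)) := by
    intro n
    unfold smp
    rw [← hReval n]
    congr 1
    rw [lamZ_prod]
    push_cast
    refine prod_congr rfl fun i _ => ?_
    obtain ⟨h3, h4⟩ := lin_abs (ha i) (hbw i) q n
    rw [lamZ_eq h3, h4]
  -- the number of terms
  set y : ℕ := if x < w₀ then 0 else (x - w₀) / q + 1 with hy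
  have hyx : y ≤ N := by
    rw [hy]
    split_ifs with h
    · omega
    · have h3 : (x - w₀) / q ≤ x - w₀ := Nat.div_le_self _ _
      omega
  have hsplit : ∑ w ∈ (Icc 1 x).filter (fun w : ℕ => (w : ℤ) ≡ r [ZMOD q]), smp a b P w =
      ∑ w ∈ ((Icc 1 x).filter (fun w : ℕ => (w : ℤ) ≡ r [ZMOD q])).filter (fun w => w < w₀), smp a b P w +
      ∑ n ∈ range y, smp a b P ((w₀ + q * n : ℕ) : ℤ) := by
    rw [← sum_filter_add_sum_filter_not _ (fun w => w < w₀)]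
    congr 1
    symm
    apply sum_bij (fun (n : ℕ) _ => w₀ + q * n)
    · intro n hn
      rw [mem_range] at hn
      rw [mem_filter, mem_filter, mem_Icc]
      have h3 : ¬ x < w₀ := by
        intro h
        rw [hy, if_pos h] at hn
        omega
      rw [hy, if_neg h3] at hn
      have h4 : q * n ≤ x - w₀ := by
        have h5 : n ≤ (x - w₀) / q := by omega
        rw [mul_comm]
        exact (Nat.le_div_iff_mul_le (by omega)).1 h5
      refine ⟨⟨⟨by omega, by omega⟩, ?_⟩, by omega⟩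
      push_cast
      have h5 : (w₀ : ℤ) + q * n ≡ w₀ + 0 [ZMOD q] := Int.ModEq.add_left _ (Int.modEq_zero_iff_dvd.2 ⟨n, rfl⟩)
      rw [add_zero] at h5
      exact h5.trans hw₀r
    · intro n _ n' _ he
      have he' : w₀ + q * n = w₀ + q * n' := he
      exact Nat.eq_of_mul_eq_mul_left (by omega : 0 < q) (by omega)
    · intro w hw
      rw [mem_filter, mem_filter, mem_Icc] at hw
      obtain ⟨⟨⟨h3, h4⟩, h5⟩, h6⟩ := hw
      have h7 : (q : ℤ) ∣ (w : ℤ) - w₀ := (Int.modEq_iff_dvd.1 (hw₀r.trans h5.symm))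
      have h8 : q ∣ w - w₀ := by
        have h9 : ((w - w₀ : ℕ) : ℤ) = (w : ℤ) - w₀ := by
          rw [Nat.cast_sub (by omega)]
        rw [← h9] at h7
        exact_mod_cast h7
      obtain ⟨n, hn⟩ := h8
      refine ⟨n, ?_, by
        show w₀ + q * n = w
        omega⟩
      rw [mem_range, hy, if_neg (by omega)]
      have h9 : n ≤ (x - w₀) / q := by
        rw [Nat.le_div_iff_mul_le (by omega), mul_comm]
        omega
      omega
    · intro n _
      rfl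
  have hsmall : ‖∑ w ∈ ((Icc 1 x).filter (fun w : ℕ => (w : ℤ) ≡ r [ZMOD q])).filter (fun w => w < w₀),
      smp a b P w‖ ≤ V + q := by
    refine (norm_sum_le _ _).trans ((sum_le_sum fun w _ => smp_le a b P _).trans ?_)
    rw [sum_const, nsmul_eq_mul, mul_one]
    have h3 : (((Icc 1 x).filter (fun w : ℕ => (w : ℤ) ≡ r [ZMOD q])).filter (fun w => w < w₀)).card ≤ w₀ := by
      refine (card_le_card (t := range w₀) fun w hw => ?_).trans (by rw [card_range])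
      rw [mem_filter] at hw
      exact mem_range.2 hw.2
    exact_mod_cast h3.trans hw₀q.le
  have hbig : ‖∑ n ∈ range y, smp a b P ((w₀ + q * n : ℕ) : ℤ)‖ ≤ 1 + ε / 4 * N := by
    rcases Nat.eq_zero_or_pos y with h0 | h0
    · rw [h0, range_zero, sum_empty, norm_zero]
      positivity
    · have h3 : range y = insert 0 (Ioc 0 (y - 1)) := by
        ext n
        rw [mem_range, mem_insert, mem_Ioc]
        omega
      rw [h3, sum_insert (by simp)]
      refine (norm_add_le _ _).trans (add_le_add (smp_le a b P _) ?_)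
      rw [sum_congr rfl fun n _ => hterm n]
      exact h1 N (by omega) hNE R.coeff hRm 0 (y - 1) (Nat.zero_le _) (by omega)
  rw [hsplit]
  refine (norm_add_le _ _).trans ?_
  have h4 : (V : ℝ) + q + 1 ≤ ε / 4 * N := by
    have h5 : 4 * ((V : ℝ) + q + 1) / ε ≤ N := hN₂.trans (by exact_mod_cast (by omega : N₂ ≤ N))
    rw [div_le_iff₀ hε] at h5
    linarith
  have h5 : 0 ≤ ε * N := by positivity
  linarith

lemma smp_neg {k : ℕ} (a b : Fin k → ℤ) (P : ℝ[X]) (w : ℤ) :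
    smp a b P (-w) = smp (fun i => -a i) b (P.comp (C (-1) * X + C 0)) w := by
  unfold smp
  have h1 : ∏ i, (a i * -w + b i) = ∏ i, ((fun i => -a i) i * w + b i) :=
    prod_congr rfl fun i _ => by
      show a i * -w + b i = -a i * w + b i
      ring
  have h2 : P.eval ((-w : ℤ) : ℝ) = (P.comp (C (-1) * X + C 0)).eval (w : ℝ) := by
    rw [eval_comp]
    congr 1
    simp
  rw [h1, h2]

/-- **both sides** -/
theorem both_pol (ω ω' : ℕ → ℕ) (hωω : ∀ K : ℕ, ∀ᶠ N in atTop, K * ω' N ≤ ω N) (E : Set ℕ)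
    (hE : Pol (fun _ => lamN) ω' E) (k : ℕ) (a b : Fin k → ℤ) (ha : ∀ i, a i ≠ 0) (q : ℕ) (hq : 1 ≤ q) (r : ℤ)
    (d : ℕ) (hd : 1 ≤ d) (ε : ℝ) (hε : 0 < ε) :
    ∃ N₀ : ℕ, ∀ N : ℕ, N₀ ≤ N → N ∉ E → ∀ P : ℝ[X], P.natDegree ≤ d → Minor (ω N) N (P.coeff d) → ∀ x ≤ N,
      ‖∑ w ∈ (Icc (-(x : ℤ)) x).filter (fun w => w ≡ r [ZMOD q]), smp a b P w‖ ≤ ε * N := by
  classical
  obtain ⟨N₁, h1⟩ := pos_pol ω ω' hωω E hE k a b ha q hq r d hd (ε / 3) (by positivity)
  obtain ⟨N₂, h2⟩ := pos_pol ω ω' hωω E hE k (fun i => -a i) b (fun i => neg_ne_zero.2 (ha i)) q hq (-r) d hd (ε / 3)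
    (by positivity)
  obtain ⟨N₃, hN₃⟩ := exists_nat_ge (3 / ε)
  refine ⟨N₁ + N₂ + N₃, fun N hN hNE P hPd hPm x hx => ?_⟩
  have h3 := h1 N (by omega) hNE P hPd hPm x hx
  obtain ⟨hR1, hR2⟩ := coeff_lin P d hPd (-1) 0
  have hRm : Minor (ω N) N ((P.comp (C (-1) * X + C 0)).coeff d) := by
    rw [hR1]
    have h4 := Minor_mul hPm ((-1) ^ d) (pow_ne_zero _ (by norm_num)) (C' := ω N) (by
      rw [Int.natAbs_pow]
      simp) le_rfl
    have h5 : ((((-1) ^ d : ℤ)) : ℝ) = (-1 : ℝ) ^ d := by push_cast; ring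
    rw [h5] at h4
    exact h4
  have h4 := h2 N (by omega) hNE _ hR2 hRm x hx
  have hsplit : (Icc (-(x : ℤ)) x).filter (fun w => w ≡ r [ZMOD q]) =
      (((Icc 1 x).filter (fun w : ℕ => (w : ℤ) ≡ r [ZMOD q])).image (fun w : ℕ => (w : ℤ))) ∪
      ((((Icc 1 x).filter (fun w : ℕ => (w : ℤ) ≡ -r [ZMOD q])).image (fun w : ℕ => -(w : ℤ))) ∪
      (({0} : Finset ℤ).filter (fun w => w ≡ r [ZMOD q]))) := by
    ext w
    simp only [mem_filter, mem_union, mem_image, mem_Icc, mem_singleton]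
    constructor
    · rintro ⟨⟨h5, h6⟩, h7⟩
      rcases lt_trichotomy w 0 with h8 | h8 | h8
      · right; left
        refine ⟨(-w).toNat, ⟨⟨by omega, by omega⟩, ?_⟩, by omega⟩
        rw [Int.toNat_of_nonneg (by omega)]
        exact h7.neg
      · right; right
        exact ⟨h8, h7⟩
      · left
        refine ⟨w.toNat, ⟨⟨by omega, by omega⟩, ?_⟩, by omega⟩
        rw [Int.toNat_of_nonneg (by omega)]
        exact h7
    · rintro (⟨m, ⟨⟨h5, h6⟩, h7⟩, rfl⟩ | ⟨m, ⟨⟨h5, h6⟩, h7⟩, rfl⟩ | ⟨rfl, h7⟩)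
      · exact ⟨⟨by omega, by omega⟩, h7⟩
      · refine ⟨⟨by omega, by omega⟩, ?_⟩
        have := h7.neg
        rwa [neg_neg] at this
      · exact ⟨⟨by omega, by omega⟩, h7⟩
  have hd1 : Disjoint ((((Icc 1 x).filter (fun w : ℕ => (w : ℤ) ≡ -r [ZMOD q])).image (fun w : ℕ => -(w : ℤ))))
      (({0} : Finset ℤ).filter (fun w => w ≡ r [ZMOD q])) := by
    rw [disjoint_left]
    intro w hw hw'
    simp only [mem_filter, mem_image, mem_Icc, mem_singleton] at hw hw'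
    obtain ⟨m, ⟨⟨h5, h6⟩, -⟩, rfl⟩ := hw
    omega
  have hd2 : Disjoint (((Icc 1 x).filter (fun w : ℕ => (w : ℤ) ≡ r [ZMOD q])).image (fun w : ℕ => (w : ℤ)))
      ((((Icc 1 x).filter (fun w : ℕ => (w : ℤ) ≡ -r [ZMOD q])).image (fun w : ℕ => -(w : ℤ))) ∪
      (({0} : Finset ℤ).filter (fun w => w ≡ r [ZMOD q]))) := by
    rw [disjoint_left]
    intro w hw hw'
    simp only [mem_filter, mem_image, mem_Icc, mem_singleton, mem_union] at hw hw'
    obtain ⟨m, ⟨⟨h5, h6⟩, -⟩, rfl⟩ := hw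
    rcases hw' with ⟨m', ⟨⟨h7, h8⟩, -⟩, h9⟩ | ⟨h9, -⟩
    · omega
    · omega
  rw [hsplit, sum_union hd2, sum_union hd1, sum_image (fun x _ y _ h => by exact_mod_cast h),
    sum_image (fun x _ y _ h => by
      have h' : -(x : ℤ) = -(y : ℤ) := h
      omega)]
  have e1 : ∑ w ∈ (Icc 1 x).filter (fun w : ℕ => (w : ℤ) ≡ -r [ZMOD q]), smp a b P (-(w : ℤ)) =
      ∑ w ∈ (Icc 1 x).filter (fun w : ℕ => (w : ℤ) ≡ -r [ZMOD q]),
        smp (fun i => -a i) b (P.comp (C (-1) * X + C 0)) w :=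
    sum_congr rfl fun w _ => smp_neg a b P w
  rw [e1]
  have h5 : ‖∑ w ∈ ({0} : Finset ℤ).filter (fun w => w ≡ r [ZMOD q]), smp a b P w‖ ≤ 1 := by
    refine (norm_sum_le _ _).trans ((sum_le_sum fun w _ => smp_le a b P _).trans ?_)
    rw [sum_const, nsmul_eq_mul, mul_one]
    have : (({0} : Finset ℤ).filter (fun w => w ≡ r [ZMOD q])).card ≤ 1 :=
      (card_filter_le _ _).trans (by rw [card_singleton])
    exact_mod_cast this
  have h6 : 1 ≤ ε / 3 * N := by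
    have h7 : 3 / ε ≤ N := hN₃.trans (by exact_mod_cast (by omega : N₃ ≤ N))
    rw [div_le_iff₀ hε] at h7
    linarith
  refine (norm_add_le _ _).trans ?_
  refine (add_le_add h3 ((norm_add_le _ _).trans (add_le_add h4 h5))).trans ?_
  linarith

end Pool.Agent.P8H6.Uni
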